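import Pool.Agent.T9h30.BT.Adm
import Pool.Agent.W401.Cheb.Frob

/-!
# Infinitely many admissible places
-/

set_option autoImplicit false
set_option linter.unusedSectionVars false

open NumberField IsDedekindDomain Filter Topology

namespace Pool.Agent.T9h30.BT

open Pool.Agent.W401.Cheb

variable {K : Type} [Field K] [NumberField K]

lemma prod_card {k : Type} [Field k] [Fintype k] :
    ∏ r : k, (Polynomial.X - Polynomial.C r) = Polynomial.X ^ Fintype.card k - Polynomial.X := by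
  classical
  have h1 := FiniteField.roots_X_pow_card_sub_X k
  have h2 : (Polynomial.X ^ Fintype.card k - Polynomial.X : Polynomial k).natDegree =
      Fintype.card k := FiniteField.X_pow_card_sub_X_natDegree_eq k Fintype.one_lt_card
  have h3 : (Polynomial.X ^ Fintype.card k - Polynomial.X : Polynomial k).Monic := by
    refine Polynomial.monic_X_pow_sub ?_
    rw [Polynomial.degree_X]
    exact_mod_cast Fintype.one_lt_card
  have h4 := Polynomial.prod_multiset_X_sub_C_of_monic_of_roots_card_eq h3 (by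
    rw [h1, h2]
    rfl)
  rw [h1] at h4
  exact h4

/-- a Frobenius element at an admissible place moves all the roots -/
lemma frob_move {a b : 𝓞 K} {v : HeightOneSpectrum (𝓞 K)} {σ : GK K} (hF : IsFrob v σ)
    (hv : ∀ x : 𝓞 K, x ^ 3 + a * x + b ∉ v.asIdeal) (t : AlgebraicClosure K)
    (ht : Rk (a : K) (b : K) t) : σ t ≠ t := by
  classical
  intro hst
  obtain ⟨Q, hQ, hQv, hQF⟩ := hF
  set i := algebraMap (𝓞 K) (𝓞 (AlgebraicClosure K)) with hi
  have hint : IsIntegral ℤ t := by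
    have hpm : (Polynomial.X ^ 3 + Polynomial.C a * Polynomial.X + Polynomial.C b :
        Polynomial (𝓞 K)).Monic := by monicity!
    have h4 : IsIntegral (𝓞 K) t := by
      refine ⟨_, hpm, ?_⟩
      have : Polynomial.eval₂ (algebraMap (𝓞 K) (AlgebraicClosure K)) t
          (Polynomial.X ^ 3 + Polynomial.C a * Polynomial.X + Polynomial.C b) =
          t ^ 3 + algebraMap K (AlgebraicClosure K) a * t + algebraMap K (AlgebraicClosure K) b := by
        simp only [Polynomial.eval₂_add, Polynomial.eval₂_mul, Polynomial.eval₂_pow,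
          Polynomial.eval₂_X, Polynomial.eval₂_C]
        rfl
      rw [this]
      exact ht
    exact isIntegral_trans t h4
  set t' : 𝓞 (AlgebraicClosure K) := ⟨t, hint⟩ with ht'
  have hst' : σ • t' = t' := RingOfIntegers.ext hst
  set N := Ideal.absNorm v.asIdeal with hN
  have h1 : t' - t' ^ N ∈ Q := by
    have := hQF t'
    rwa [hst'] at this
  have hm : v.asIdeal.IsMaximal := v.isMaximal
  let _ : Field (𝓞 K ⧸ v.asIdeal) := Ideal.Quotient.field v.asIdeal
  have hfin : Finite (𝓞 K ⧸ v.asIdeal) := v.asIdeal.finiteQuotientOfFreeOfNeBot v.ne_bot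
  let _ : Fintype (𝓞 K ⧸ v.asIdeal) := Fintype.ofFinite _
  have hc : Fintype.card (𝓞 K ⧸ v.asIdeal) = N := by
    rw [← Nat.card_eq_fintype_card, hN, Ideal.absNorm_apply, Submodule.cardQuot_apply]
  let _ : Field (𝓞 (AlgebraicClosure K) ⧸ Q) := Ideal.Quotient.field Q
  let f : 𝓞 K ⧸ v.asIdeal →+* 𝓞 (AlgebraicClosure K) ⧸ Q :=
    Ideal.quotientMap Q i (by rw [hQv])
  have hf : ∀ x : 𝓞 K, f (Ideal.Quotient.mk v.asIdeal x) = Ideal.Quotient.mk Q (i x) := fun x => rfl
  -- the polynomial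
  have hprod := prod_card (k := 𝓞 K ⧸ v.asIdeal)
  rw [hc] at hprod
  have h2 := congrArg (Polynomial.eval₂ f (Ideal.Quotient.mk Q t')) hprod
  rw [Polynomial.eval₂_finsetProd] at h2
  simp only [Polynomial.eval₂_sub, Polynomial.eval₂_X, Polynomial.eval₂_C, Polynomial.eval₂_pow] at h2
  have h3 : (Ideal.Quotient.mk Q t') ^ N - Ideal.Quotient.mk Q t' = 0 := by
    rw [← map_pow, ← map_sub]
    rw [Ideal.Quotient.eq_zero_iff_mem, ← neg_sub]
    exact Q.neg_mem h1
  rw [h3, Finset.prod_eq_zero_iff] at h2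
  obtain ⟨r, -, hr⟩ := h2
  obtain ⟨x, rfl⟩ := Ideal.Quotient.mk_surjective r
  rw [hf, sub_eq_zero] at hr
  apply hv x
  rw [← hQv]
  show i (x ^ 3 + a * x + b) ∈ Q
  have h5 : t' ^ 3 + i a * t' + i b = 0 := by
    apply RingOfIntegers.ext
    exact ht
  have h6 : i (x ^ 3 + a * x + b) = i x ^ 3 + i a * i x + i b := by
    simp only [map_add, map_mul, map_pow]
  have h7 : Ideal.Quotient.mk Q (i x ^ 3 + i a * i x + i b) =
      Ideal.Quotient.mk Q (t' ^ 3 + i a * t' + i b) := by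
    simp only [map_add, map_mul, map_pow, hr]
  rw [← Ideal.Quotient.eq_zero_iff_mem, h6, h7, h5, map_zero]

/-- one admissible place is enough -/
theorem adm_inf {J : Type} [Finite J] {a b : J → 𝓞 K} (hΔ : ∀ i, 4 * a i ^ 3 + 27 * b i ^ 2 ≠ 0)
    {v : HeightOneSpectrum (𝓞 K)} (hv : ∀ i, ∀ x : 𝓞 K, x ^ 3 + a i * x + b i ∉ v.asIdeal) :
    {v : HeightOneSpectrum (𝓞 K) | ∀ i, 2 * (4 * a i ^ 3 + 27 * b i ^ 2) ∉ v.asIdeal ∧
        ∀ x : 𝓞 K, x ^ 3 + a i * x + b i ∉ v.asIdeal}.Infinite := by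
  obtain ⟨σ, hσ⟩ := Pool.Agent.W401.Frob.exists_frob v
  obtain ⟨d, hd, h⟩ := dens_adm hΔ (g := σ) fun i t ht => frob_move hσ (hv i) t ht
  exact inf_of_cnt hd h.frequently

/-- one curve -/
theorem adm_inf_one {J : Type} [Finite J] [Nonempty J] [Subsingleton J] {a b : J → 𝓞 K}
    (hΔ : ∀ i, 4 * a i ^ 3 + 27 * b i ^ 2 ≠ 0)
    (hirr : ∀ i, ∀ x : K, x ^ 3 + (a i : K) * x + b i ≠ 0) :
    {v : HeightOneSpectrum (𝓞 K) | ∀ i, 2 * (4 * a i ^ 3 + 27 * b i ^ 2) ∉ v.asIdeal ∧
        ∀ x : 𝓞 K, x ^ 3 + a i * x + b i ∉ v.asIdeal}.Infinite := by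
  obtain ⟨j⟩ := (inferInstance : Nonempty J)
  have hΔ' : (4 : K) * (a j : K) ^ 3 + 27 * (b j : K) ^ 2 ≠ 0 := by
    have h1 : algebraMap (𝓞 K) K (4 * a j ^ 3 + 27 * b j ^ 2) ≠ 0 := by
      rw [Ne, FaithfulSMul.algebraMap_eq_zero_iff]
      exact hΔ j
    intro h2
    apply h1
    rw [map_add, map_mul, map_mul, map_pow, map_pow, map_ofNat, map_ofNat]
    exact h2
  obtain ⟨g, hg⟩ := exists_move hΔ' (hirr j)
  obtain ⟨d, hd, h⟩ := dens_adm hΔ (g := g) fun i t ht => by
    rw [Subsingleton.elim i j] at ht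
    exact hg t ht
  exact inf_of_cnt hd h.frequently

end Pool.Agent.T9h30.BT
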