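import Pool.Agent.Y18.LP.Comb
import Pool.Agent.Y18.LP.Rng
import Pool.Agent.Y18.LP.Abs

/-!
# Good functions on a group: corrections of tuples, infinite subgroups
-/

set_option autoImplicit false
set_option linter.unusedSectionVars false

namespace Pool.Agent.T9h30.BT

open Pool.Agent.Y18.LP (Comb Good correction krull fg_prod pow_mod' zpow_mod')

section pull

variable {Γ Γ' : Type} [CommGroup Γ] [CommGroup Γ'] {R : Subring ℂ} {e : ℕ} {W : Submodule R ℂ}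

/-- the pullback of a combination of characters -/
lemma comb_pull (φ : Γ' →* Γ) {A : Γ → ℂ} (hA : A ∈ Comb Γ e W) :
    (fun x => A (φ x)) ∈ Comb Γ' e W := by
  induction hA using AddSubgroup.closure_induction with
  | mem x hx =>
    obtain ⟨w, hw, E, hE, rfl⟩ := hx
    exact Comb.gen (Γ := Γ') (e := e) hw (E.comp φ) (fun g => hE (φ g))
  | zero => exact AddSubgroup.zero_mem _
  | add x y _ _ h1 h2 => exact AddSubgroup.add_mem _ h1 h2
  | neg x _ h => exact AddSubgroup.neg_mem _ h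

/-- the pullback of a good function -/
lemma good_pull (φ : Γ' →* Γ) {P : Ideal R} {β : Γ → ℂ} (hβ : Good e P W β) :
    Good e P W (fun x => β (φ x)) := by
  classical
  refine ⟨fun x => hβ.mem _, ?_⟩
  obtain ⟨d, hd, hQ⟩ := hβ.ex
  refine ⟨fun x => d (φ x), fun x => hd _, fun Q => ?_⟩
  obtain ⟨A, hA, c, hc, h1⟩ := hQ (Q.image φ)
  exact ⟨fun x => A (φ x), comb_pull φ hA, c, hc, fun x hx =>
    h1 _ (Finset.mem_image_of_mem _ hx)⟩

end pull

/-- the product of the powers -/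
def mon {Γ : Type} [CommGroup Γ] {r e : ℕ} (j : Fin r → Fin e) : (Fin r → Γ) →* Γ where
  toFun x := ∏ l, x l ^ (j l : ℕ)
  map_one' := by simp
  map_mul' x y := by
    rw [← Finset.prod_mul_distrib]
    exact Finset.prod_congr rfl fun l _ => by rw [Pi.mul_apply, mul_pow]

/-- the elements of the group generated by a tuple -/
lemma mem_closure {Γ : Type} [CommGroup Γ] {r e : ℕ} (he : 0 < e) {x : Fin r → Γ}
    (hx : ∀ l, x l ^ e = 1) {g : Γ} (hg : g ∈ Subgroup.closure (Set.range x)) :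
    ∃ j : Fin r → Fin e, g = mon j x := by
  have key : ∀ m : Fin r → ℕ, ∃ j : Fin r → Fin e, ∏ l, x l ^ m l = mon j x := by
    intro m
    refine ⟨fun l => ⟨m l % e, Nat.mod_lt _ he⟩, ?_⟩
    exact Finset.prod_congr rfl fun l _ => pow_mod' (hx l) (m l)
  have h2 : ∃ m : Fin r → ℕ, g = ∏ l, x l ^ m l := by
    induction hg using Subgroup.closure_induction with
    | mem y hy =>
      obtain ⟨l, rfl⟩ := hy
      refine ⟨fun l' => if l' = l then 1 else 0, ?_⟩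
      rw [Finset.prod_eq_single l]
      · simp
      · intro l' _ hne
        simp [hne]
      · intro h
        exact absurd (Finset.mem_univ l) h
    | one => exact ⟨0, by simp⟩
    | mul y z _ _ h1 h2 =>
      obtain ⟨m, hm⟩ := h1
      obtain ⟨m', hm'⟩ := h2
      refine ⟨m + m', ?_⟩
      rw [hm, hm', ← Finset.prod_mul_distrib]
      exact Finset.prod_congr rfl fun l _ => by rw [Pi.add_apply, pow_add]
    | inv y _ h1 =>
      obtain ⟨m, hm⟩ := h1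
      refine ⟨fun l => m l * (e - 1), ?_⟩
      rw [hm, ← Finset.prod_inv_distrib]
      refine Finset.prod_congr rfl fun l _ => ?_
      rw [inv_eq_iff_mul_eq_one, ← pow_add]
      have h3 : m l + m l * (e - 1) = e * m l := by
        obtain ⟨f, rfl⟩ : ∃ f, e = f + 1 := ⟨e - 1, by omega⟩
        rw [Nat.add_sub_cancel]
        ring
      rw [h3, pow_mul, hx, one_pow]
  obtain ⟨m, hm⟩ := h2
  obtain ⟨j, hj⟩ := key m
  exact ⟨j, hm.trans hj⟩

section main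

variable {J : Type} [Fintype J] {R : Subring ℂ} [IsNoetherianRing R] {P : Ideal R} {e : ℕ}
  {W : J → Submodule R ℂ} {z : J → ℂ}

/-- **Corrections of tuples**, uniformly in the group. -/
theorem tuples (hP : P.IsMaximal) (hR : ∀ z : ℂ, z ^ e = 1 → z ∈ R)
    (hP1 : ∀ z : R, (z : ℂ) ^ e = 1 → 1 - z ∈ P) (he : 0 < e) (hW : ∀ i, (W i).FG)
    (hz : ∀ i, z i ∈ W i) (hz0 : ∀ i, z i ≠ 0) (r : ℕ) :
    ∃ V : ℕ, ∀ (𝔉 : Type) [CommGroup 𝔉] (β : J → 𝔉 → ℂ) (H : Subgroup 𝔉),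
      (∀ c ∈ H, c ^ e = 1) → (∀ i, β i 1 = z i) →
      (∀ i, Good e P (W i) (fun c : H => β i c)) →
      ∃ K : Finset (Fin r → 𝔉), K.card ≤ 2 ^ V ∧ (∀ k ∈ K, ∀ l, k l ∈ H) ∧
        ∀ x : Fin r → 𝔉, (∀ l, x l ∈ H) → ∃ k ∈ K,
          ∀ g ∈ Subgroup.closure (Set.range (x * k)), ∀ i, β i g ≠ 0 := by
  classical
  set s : Finset (J × (Fin r → Fin e)) := Finset.univ with hs
  have hval : ∏ x ∈ s, z x.1 ≠ 0 := Finset.prod_ne_zero_iff.2 fun x _ => hz0 x.1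
  have hmem : ∏ x ∈ s, z x.1 ∈ ∏ x ∈ s, W x.1 :=
    Pool.Agent.Y18.LP.prod_mem' s _ _ fun x _ => hz x.1
  obtain ⟨V, hV⟩ := krull hP.ne_top (fg_prod s _ fun x _ => hW x.1) hmem hval
  refine ⟨V, fun 𝔉 _ β H hH h1 hg => ?_⟩
  have hgood := Good.prod (Γ := Fin r → H) (e := e) hP.isPrime s (fun x => W x.1)
    (fun x (c : Fin r → H) => β x.1 ((mon x.2 c : H) : 𝔉))
    (fun x _ => good_pull (mon x.2) (hg x.1))
  obtain ⟨K, hK1, hK2⟩ := correction hR hP hP1 hgood (V := V) (by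
    have : ∏ x ∈ s, β x.1 ((mon x.2 (1 : Fin r → H) : H) : 𝔉) = ∏ x ∈ s, z x.1 := by
      refine Finset.prod_congr rfl fun x _ => ?_
      rw [map_one, Subgroup.coe_one, h1]
    rw [this]
    exact hV)
  refine ⟨(K.map (fun c : Fin r → H => fun l => (c l : 𝔉))).toFinset, ?_, ?_, ?_⟩
  · exact (List.toFinset_card_le _).trans (by rwa [List.length_map])
  · intro k hk l
    rw [List.mem_toFinset, List.mem_map] at hk
    obtain ⟨c, _, rfl⟩ := hk
    exact (c l).2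
  · intro x hx
    obtain ⟨k, hk, h2⟩ := hK2 fun l => ⟨x l, hx l⟩
    refine ⟨fun l => (k l : 𝔉), ?_, fun g hgc i => ?_⟩
    · rw [List.mem_toFinset, List.mem_map]
      exact ⟨k, hk, rfl⟩
    · obtain ⟨j, hj⟩ := mem_closure he (x := x * fun l => (k l : 𝔉)) (fun l => by
        exact hH _ (H.mul_mem (hx l) (k l).2)) hgc
      have h3 := Finset.prod_ne_zero_iff.1 h2 (i, j) (Finset.mem_univ _)
      rw [hj]
      have h4 : ((mon j ((fun l => (⟨x l, hx l⟩ : H)) * k) : H) : 𝔉) =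
          mon j (x * fun l => (k l : 𝔉)) := by
        show ((∏ l, ((⟨x l, hx l⟩ : H) * k l) ^ (j l : ℕ) : H) : 𝔉) =
          ∏ l, (x l * (k l : 𝔉)) ^ (j l : ℕ)
        rw [Subgroup.val_finsetProd]
        rfl
      rw [← h4]
      exact h3

/-- **Infinite subgroups.** -/
theorem infinite_sub (hP : P.IsMaximal) (hR : ∀ z : ℂ, z ^ e = 1 → z ∈ R)
    (hP1 : ∀ z : R, (z : ℂ) ^ e = 1 → 1 - z ∈ P) (he : 0 < e) (hW : ∀ i, (W i).FG)
    {𝔉 : Type} [CommGroup 𝔉] (β : J → 𝔉 → ℂ) (H : Subgroup 𝔉) (hH : ∀ c ∈ H, c ^ e = 1)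
    (hg : ∀ i, Good e P (W i) (fun c : H => β i c)) (hinf : (H : Set 𝔉).Infinite)
    (F : Subgroup 𝔉) (hFH : F ≤ H) (hFn : ∀ c ∈ F, ∀ i, β i c ≠ 0) :
    ∃ H0 : Subgroup 𝔉, F ≤ H0 ∧ H0 ≤ H ∧ (H0 : Set 𝔉).Infinite ∧
      ∀ c ∈ H0, ∀ i, β i c ≠ 0 := by
  classical
  let Z : Set (Subgroup 𝔉) := {G | G ≤ H ∧ ∀ c ∈ G, ∀ i, β i c ≠ 0}
  obtain ⟨G, hFG, hG⟩ := zorn_le_nonempty₀ Z (by
    intro C hC hchain G0 hG0
    refine ⟨sSup C, ⟨sSup_le fun G hG => (hC hG).1, fun c hc i => ?_⟩, fun G hG => le_sSup hG⟩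
    have hdir : DirectedOn (· ≤ ·) C := hchain.directedOn
    rw [Subgroup.mem_sSup_of_directedOn ⟨G0, hG0⟩ hdir] at hc
    obtain ⟨G, hG, hcG⟩ := hc
    exact (hC hG).2 c hcG i) F ⟨hFH, hFn⟩
  refine ⟨G, hFG, hG.prop.1, ?_, hG.prop.2⟩
  intro hfin
  -- one more generator
  set s : Finset (J × 𝔉 × ℕ) := Finset.univ ×ˢ (hfin.toFinset ×ˢ Finset.range e) with hs
  have hmems : ∀ x : J × 𝔉 × ℕ, x ∈ s ↔ x.2.1 ∈ G ∧ x.2.2 < e := by
    intro x
    rw [hs, Finset.mem_product, Finset.mem_product, Set.Finite.mem_toFinset, Finset.mem_range]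
    simp
  have hgood := Good.prod (Γ := H) (e := e) hP.isPrime s (fun x => W x.1)
    (fun x (c : H) => β x.1 (x.2.1 * (c : 𝔉) ^ x.2.2))
    (fun x hx => by
      have h1 := (hg x.1).comp hR ⟨x.2.1, hG.prop.1 ((hmems x).1 hx).1⟩ x.2.2
      exact h1)
  have hval : ∏ x ∈ s, β x.1 (x.2.1 * ((1 : H) : 𝔉) ^ x.2.2) ≠ 0 := by
    refine Finset.prod_ne_zero_iff.2 fun x hx => ?_
    rw [Subgroup.coe_one, one_pow, mul_one]
    exact hG.prop.2 _ ((hmems x).1 hx).1 _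
  obtain ⟨V, hV⟩ := krull hP.ne_top (fg_prod s _ fun i _ => hW i.1) (hgood.mem 1) hval
  obtain ⟨K, hK1, hK2⟩ := correction hR hP hP1 hgood (V := V) hV
  -- an element of `H` all of whose translates are outside of `G`
  have hbad : (⋃ k ∈ K.toFinset, (fun g : 𝔉 => g * ((k : H) : 𝔉)⁻¹) '' (G : Set 𝔉)).Finite :=
    Set.Finite.biUnion (Finset.finite_toSet K.toFinset) fun k _ => hfin.image _
  obtain ⟨c, hcH, hc⟩ := hinf.exists_notMem_finite hbad
  obtain ⟨k, hk, h1⟩ := hK2 ⟨c, hcH⟩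
  have hckG : c * k ∉ G := by
    intro h2
    apply hc
    simp only [Set.mem_iUnion]
    exact ⟨k, List.mem_toFinset.2 hk, c * k, h2, mul_inv_cancel_right c (k : 𝔉)⟩
  have hckH : c * k ∈ H := H.mul_mem hcH k.2
  have hle : G ⊔ Subgroup.zpowers (c * k) ∈ Z := by
    refine ⟨sup_le hG.prop.1 (by rwa [Subgroup.zpowers_le]), ?_⟩
    intro x hx i
    obtain ⟨g, hg', y, hy, rfl⟩ := Subgroup.mem_sup.1 hx
    obtain ⟨j, rfl⟩ := Subgroup.mem_zpowers_iff.1 hy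
    have h2 : (c * k : 𝔉) ^ e = 1 := hH _ hckH
    obtain ⟨m, hm⟩ : ∃ m : ℕ, (c * k : 𝔉) ^ j = (c * k : 𝔉) ^ m := zpow_mod' he h2 j
    rw [hm, pow_mod' h2 m]
    exact Finset.prod_ne_zero_iff.1 h1 (i, g, m % e) ((hmems _).2 ⟨hg', Nat.mod_lt _ he⟩)
  have h3 := hG.le_of_ge hle le_sup_left
  exact hckG (h3 (Subgroup.mem_sup_right (Subgroup.mem_zpowers _)))

end main

end Pool.Agent.T9h30.BT
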