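import Pool.Agent.Y142.Split

/-!
# There are infinitely many admissible places
-/

set_option autoImplicit false
set_option linter.unusedSectionVars false

namespace Pool.Agent.T9h30.BT

open NumberField IsDedekindDomain Filter Topology
open Pool.Agent.W401.Cheb (GK IsFrob dens)

section alg

lemma cub_a {R : Type} [CommRing R] [IsDomain R] {a b T S : R} (hT : T ^ 3 + a * T + b = 0)
    (hS : S ^ 3 + a * S + b = 0) (h : T ≠ S) : a = -(T ^ 2 + T * S + S ^ 2) := by
  have h1 : (T - S) * (T ^ 2 + T * S + S ^ 2 + a) = 0 := by linear_combination hT - hS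
  rcases mul_eq_zero.1 h1 with h2 | h2
  · exact absurd (sub_eq_zero.1 h2) h
  · linear_combination h2

lemma cub_disc {R : Type} [CommRing R] [IsDomain R] {a b T S : R} (hT : T ^ 3 + a * T + b = 0)
    (hS : S ^ 3 + a * S + b = 0) (h : T ≠ S) :
    4 * a ^ 3 + 27 * b ^ 2 = (T - S) * (-(T - S) * (2 * T + S) ^ 2 * (T + 2 * S) ^ 2) := by
  have h1 := cub_a hT hS h
  have h2 : b = T * S * (T + S) := by
    linear_combination hT - T * h1
  rw [h1, h2]
  ring

/-- the roots -/
lemma cub_split {L : Type} [Field L] [IsAlgClosed L] (a b : L) : ∃ t1 t2 t3 : L,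
    t1 ^ 3 + a * t1 + b = 0 ∧ t2 ^ 3 + a * t2 + b = 0 ∧ t3 ^ 3 + a * t3 + b = 0 ∧
    ∀ x, x ^ 3 + a * x + b = (x - t1) * (x - t2) * (x - t3) := by
  obtain ⟨t1, h1⟩ := IsAlgClosed.exists_root (Polynomial.X ^ 3 + Polynomial.C a * Polynomial.X +
    Polynomial.C b : Polynomial L) (by
      have : (Polynomial.X ^ 3 + Polynomial.C a * Polynomial.X + Polynomial.C b : Polynomial L).degree
          = 3 := by compute_degree!
      rw [this]
      norm_num)
  have h1' : t1 ^ 3 + a * t1 + b = 0 := by simpa [Polynomial.IsRoot] using h1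
  obtain ⟨t2, h2⟩ := IsAlgClosed.exists_root (Polynomial.X ^ 2 + Polynomial.C t1 * Polynomial.X +
    Polynomial.C (t1 ^ 2 + a) : Polynomial L) (by
      have : (Polynomial.X ^ 2 + Polynomial.C t1 * Polynomial.X +
          Polynomial.C (t1 ^ 2 + a) : Polynomial L).degree = 2 := by compute_degree!
      rw [this]
      norm_num)
  have h2' : t2 ^ 2 + t1 * t2 + (t1 ^ 2 + a) = 0 := by simpa [Polynomial.IsRoot] using h2
  have ha : a = -(t1 ^ 2 + t1 * t2 + t2 ^ 2) := by linear_combination h2'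
  have hb : b = t1 * t2 * (t1 + t2) := by linear_combination h1' - t1 * ha
  refine ⟨t1, t2, -t1 - t2, h1', ?_, ?_, fun x => ?_⟩
  · rw [ha, hb]
    ring
  · rw [ha, hb]
    ring
  · rw [ha, hb]
    ring

variable {K : Type} [Field K]

lemma conj_root {p : Polynomial K} (hp : Irreducible p) (hm : p.Monic)
    {t s : AlgebraicClosure K} (ht : Polynomial.aeval t p = 0) (hs : Polynomial.aeval s p = 0) :
    ∃ g : GK K, g t = s := by
  have h1 : IsConjRoot K s t := by
    unfold IsConjRoot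
    rw [← minpoly.eq_of_irreducible_of_monic hp ht hm, ← minpoly.eq_of_irreducible_of_monic hp hs hm]
  exact isConjRoot_iff_exists_algEquiv.1 h1

/-- `t` is a root of the cubic -/
def Rk (a b : K) (t : AlgebraicClosure K) : Prop :=
  t ^ 3 + algebraMap K (AlgebraicClosure K) a * t + algebraMap K (AlgebraicClosure K) b = 0

lemma Rk_img {a b : K} (g : GK K) {t : AlgebraicClosure K} (ht : Rk a b t) : Rk a b (g t) := by
  have := congrArg g ht
  simp only [map_add, map_mul, map_pow, AlgEquiv.commutes, map_zero] at this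
  exact this

theorem exists_move [CharZero K] {a b : K} (hΔ : 4 * a ^ 3 + 27 * b ^ 2 ≠ 0)
    (h : ∀ x : K, x ^ 3 + a * x + b ≠ 0) :
    ∃ g : GK K, ∀ t : AlgebraicClosure K, Rk a b t → g t ≠ t := by
  obtain ⟨t1, t2, t3, h1, h2, h3, hsp⟩ := cub_split (algebraMap K (AlgebraicClosure K) a)
    (algebraMap K (AlgebraicClosure K) b)
  have hroot : ∀ t : AlgebraicClosure K, Rk a b t → t = t1 ∨ t = t2 ∨ t = t3 := by
    intro t ht
    unfold Rk at ht
    rw [hsp] at ht
    rcases mul_eq_zero.1 ht with h4 | h4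
    · rcases mul_eq_zero.1 h4 with h4 | h4
      · exact Or.inl (sub_eq_zero.1 h4)
      · exact Or.inr (Or.inl (sub_eq_zero.1 h4))
    · exact Or.inr (Or.inr (sub_eq_zero.1 h4))
  -- the polynomial
  let p : Polynomial K := Polynomial.X ^ 3 + Polynomial.C a * Polynomial.X + Polynomial.C b
  have hm : p.Monic := by
    simp only [p]
    monicity!
  have hdeg : p.natDegree = 3 := by
    simp only [p]
    compute_degree!
  have hirr : Irreducible p := by
    rw [hm.irreducible_iff_roots_eq_zero_of_degree_le_three (by omega) (by omega)]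
    rw [Multiset.eq_zero_iff_forall_notMem]
    intro x hx
    rw [Polynomial.mem_roots hm.ne_zero] at hx
    apply h x
    simpa [p] using hx
  have hcj : ∀ t s : AlgebraicClosure K, Rk a b t → Rk a b s → ∃ g : GK K, g t = s := by
    intro t s ht hs
    unfold Rk at ht hs
    refine conj_root hirr hm ?_ ?_
    · simpa [p] using ht
    · simpa [p] using hs
  -- distinct
  have hc : ∀ s t : AlgebraicClosure K, (∀ x : AlgebraicClosure K,
      x ^ 3 + algebraMap K (AlgebraicClosure K) a * x +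
      algebraMap K (AlgebraicClosure K) b = (x - s) * (x - s) * (x - t)) → False := by
    intro s t hx
    have e0 := hx 0
    have e1 := hx 1
    have e2 := hx (-1)
    have k1 : 2 * s + t = 0 := by linear_combination (1 / 2 : AlgebraicClosure K) * (e1 + e2) - e0
    have k2 : t = -2 * s := by linear_combination k1
    have k3 : algebraMap K (AlgebraicClosure K) b = 2 * s ^ 3 := by
      rw [k2] at e0
      linear_combination e0
    have k4 : algebraMap K (AlgebraicClosure K) a = -3 * s ^ 2 := by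
      rw [k2] at e1
      rw [k3] at e1
      linear_combination e1
    apply hΔ
    apply FaithfulSMul.algebraMap_injective K (AlgebraicClosure K)
    rw [map_add, map_mul, map_mul, map_pow, map_pow, k3, k4, map_ofNat, map_ofNat, map_zero]
    ring
  have d12 : t1 ≠ t2 := by
    rintro rfl
    exact hc t1 t3 hsp
  have d13 : t1 ≠ t3 := by
    rintro rfl
    exact hc t1 t2 fun x => (hsp x).trans (by ring)
  have d23 : t2 ≠ t3 := by
    rintro rfl
    exact hc t2 t1 fun x => (hsp x).trans (by ring)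
  by_contra hcon
  push Not at hcon
  obtain ⟨g, hg⟩ := hcj t1 t2 h1 h2
  obtain ⟨k, hk⟩ := hcj t1 t3 h1 h3
  have g3 : g t3 = t3 := by
    obtain ⟨t, ht, hgt⟩ := hcon g
    rcases hroot t ht with rfl | rfl | rfl
    · exact absurd (hgt.symm.trans hg) d12
    · exact absurd (g.injective (hg.trans hgt.symm)) d12
    · exact hgt
  have g2 : g t2 = t1 := by
    rcases hroot _ (Rk_img g h2) with h4 | h4 | h4
    · exact h4
    · exact absurd (g.injective (hg.trans h4.symm)) d12
    · exact absurd (g.injective (h4.trans g3.symm)) d23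
  have k2 : k t2 = t2 := by
    obtain ⟨t, ht, hgt⟩ := hcon k
    rcases hroot t ht with rfl | rfl | rfl
    · exact absurd (hgt.symm.trans hk) d13
    · exact hgt
    · exact absurd (k.injective (hk.trans hgt.symm)) d13
  have k3 : k t3 = t1 := by
    rcases hroot _ (Rk_img k h3) with h4 | h4 | h4
    · exact h4
    · exact absurd (k.injective (h4.trans k2.symm)) d23.symm
    · exact absurd (k.injective (hk.trans h4.symm)) d13
  obtain ⟨t, ht, hgt⟩ := hcon (g * k)
  have e : (g * k) t = g (k t) := rfl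
  rw [e] at hgt
  rcases hroot t ht with rfl | rfl | rfl
  · rw [hk, g3] at hgt
    exact d13 hgt.symm
  · rw [k2, g2] at hgt
    exact d12 hgt
  · rw [k3, hg] at hgt
    exact d23 hgt

end alg

variable {K : Type} [Field K] [NumberField K]

/-- places with a Frobenius element which moves all the roots -/
lemma no_root_frob {a b : 𝓞 K} {v : HeightOneSpectrum (𝓞 K)} {σ : GK K} (hF : IsFrob v σ)
    (hΔ : 4 * a ^ 3 + 27 * b ^ 2 ∉ v.asIdeal)
    (hσ : ∀ t : AlgebraicClosure K, Rk (a : K) (b : K) t → σ t ≠ t) (x : 𝓞 K) :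
    x ^ 3 + a * x + b ∉ v.asIdeal := by
  intro hx
  obtain ⟨Q, hQ, hQv, hQF⟩ := hF
  obtain ⟨t1, t2, t3, h1, h2, h3, hsp⟩ := cub_split (algebraMap K (AlgebraicClosure K) a)
    (algebraMap K (AlgebraicClosure K) b)
  set i := algebraMap (𝓞 K) (𝓞 (AlgebraicClosure K)) with hi
  have hic : ∀ y : 𝓞 K, ((i y : 𝓞 (AlgebraicClosure K)) : AlgebraicClosure K) =
      algebraMap K (AlgebraicClosure K) y := fun y => rfl
  have hint : ∀ t : AlgebraicClosure K, Rk (a : K) (b : K) t → IsIntegral ℤ t := by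
    intro t ht
    have hpm : (Polynomial.X ^ 3 + Polynomial.C a * Polynomial.X + Polynomial.C b :
        Polynomial (𝓞 K)).Monic := by monicity!
    have h4 : IsIntegral (𝓞 K) t := by
      refine ⟨_, hpm, ?_⟩
      have : Polynomial.eval₂ (algebraMap (𝓞 K) (AlgebraicClosure K)) t
          (Polynomial.X ^ 3 + Polynomial.C a * Polynomial.X + Polynomial.C b) =
          t ^ 3 + algebraMap K (AlgebraicClosure K) a * t + algebraMap K (AlgebraicClosure K) b := by
        simp only [Polynomial.eval₂_add, Polynomial.eval₂_mul, Polynomial.eval₂_pow,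
          Polynomial.eval₂_X, Polynomial.eval₂_C]
        rfl
      rw [this]
      exact ht
    exact isIntegral_trans t h4
  -- a root congruent to x
  have hroot : ∃ t : 𝓞 (AlgebraicClosure K), Rk (a : K) (b : K) t ∧ i x - t ∈ Q := by
    have h4 : i (x ^ 3 + a * x + b) ∈ Q := by
      have : x ^ 3 + a * x + b ∈ Q.comap i := by rw [hQv]; exact hx
      exact this
    have h5 : i (x ^ 3 + a * x + b) = (i x - ⟨t1, hint t1 h1⟩) * (i x - ⟨t2, hint t2 h2⟩) *
        (i x - ⟨t3, hint t3 h3⟩) := by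
      apply RingOfIntegers.ext
      have h6 := hsp (algebraMap K (AlgebraicClosure K) x)
      rw [hic]
      have h7 : ((x ^ 3 + a * x + b : 𝓞 K) : K) = (x : K) ^ 3 + (a : K) * x + b := by
        push_cast
        rfl
      rw [h7, map_add, map_add, map_mul, map_pow, h6]
      rfl
    rw [h5] at h4
    rcases hQ.isPrime.mem_or_mem h4 with h6 | h6
    · rcases hQ.isPrime.mem_or_mem h6 with h6 | h6
      · exact ⟨⟨t1, hint t1 h1⟩, h1, h6⟩
      · exact ⟨⟨t2, hint t2 h2⟩, h2, h6⟩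
    · exact ⟨⟨t3, hint t3 h3⟩, h3, h6⟩
  obtain ⟨t, ht, htx⟩ := hroot
  set N := Ideal.absNorm v.asIdeal with hN
  -- sigma t = t modulo Q
  have hfe : x ^ N - x ∈ v.asIdeal := by
    have hm : v.asIdeal.IsMaximal := v.isMaximal
    let _ : Field (𝓞 K ⧸ v.asIdeal) := Ideal.Quotient.field v.asIdeal
    have hfin : Finite (𝓞 K ⧸ v.asIdeal) := v.asIdeal.finiteQuotientOfFreeOfNeBot v.ne_bot
    let _ : Fintype (𝓞 K ⧸ v.asIdeal) := Fintype.ofFinite _
    have hc : Fintype.card (𝓞 K ⧸ v.asIdeal) = N := by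
      rw [← Nat.card_eq_fintype_card, hN, Ideal.absNorm_apply, Submodule.cardQuot_apply]
    rw [← Ideal.Quotient.eq, map_pow, ← hc, FiniteField.pow_card]
  have h4 : σ • t - t ∈ Q := by
    have e1 : σ • t - t ^ N ∈ Q := hQF t
    have e2 : t ^ N - i x ^ N ∈ Q := by
      obtain ⟨r, hr⟩ := sub_dvd_pow_sub_pow t (i x) N
      rw [hr]
      refine Q.mul_mem_right _ ?_
      have := Q.neg_mem htx
      rwa [neg_sub] at this
    have e3 : i x ^ N - i x ∈ Q := by
      have : x ^ N - x ∈ Q.comap i := by rw [hQv]; exact hfe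
      have h5 : i (x ^ N - x) ∈ Q := this
      rwa [map_sub, map_pow] at h5
    have : σ • t - t = (σ • t - t ^ N) + (t ^ N - i x ^ N) + (i x ^ N - i x) + (i x - t) := by ring
    rw [this]
    exact Q.add_mem (Q.add_mem (Q.add_mem e1 e2) e3) htx
  -- the discriminant
  have hne : σ • t ≠ t := by
    intro h
    have h5 := congrArg (fun z : 𝓞 (AlgebraicClosure K) => (z : AlgebraicClosure K)) h
    exact hσ t ht h5
  have hRk' : ∀ z : 𝓞 (AlgebraicClosure K), Rk (a : K) (b : K) z → z ^ 3 + i a * z + i b = 0 := by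
    intro z hz
    apply RingOfIntegers.ext
    exact hz
  have h5 := cub_disc (hRk' (σ • t) (Rk_img σ ht)) (hRk' t ht) hne
  have h6 : i (4 * a ^ 3 + 27 * b ^ 2) ∈ Q := by
    rw [map_add, map_mul, map_mul, map_pow, map_pow, map_ofNat, map_ofNat, h5]
    exact Q.mul_mem_right _ h4
  apply hΔ
  rw [← hQv]
  exact h6

/-- the number of places of norm at most `N` in `X` -/
noncomputable def cnt (X : Set (HeightOneSpectrum (𝓞 K))) (N : ℕ) : ℕ :=
  {v | Ideal.absNorm v.asIdeal ≤ N ∧ v ∈ X}.ncard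

lemma fin_le (N : ℕ) : {v : HeightOneSpectrum (𝓞 K) | Ideal.absNorm v.asIdeal ≤ N}.Finite := by
  have h1 : {I : Ideal (𝓞 K) | Ideal.absNorm I ≤ N}.Finite := Ideal.finite_setOfPred_absNorm_le N
  exact Set.Finite.preimage (fun v _ w _ h => HeightOneSpectrum.ext h) h1

lemma fin_cnt (X : Set (HeightOneSpectrum (𝓞 K))) (N : ℕ) :
    {v | Ideal.absNorm v.asIdeal ≤ N ∧ v ∈ X}.Finite :=
  (fin_le N).subset fun _ h => h.1

lemma cnt_mono {X Y : Set (HeightOneSpectrum (𝓞 K))} (h : X ⊆ Y) (N : ℕ) : cnt X N ≤ cnt Y N :=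
  Set.ncard_le_ncard (fun _ hv => ⟨hv.1, h hv.2⟩) (fin_cnt Y N)

lemma cnt_sub {X Y B : Set (HeightOneSpectrum (𝓞 K))} (hB : B.Finite)
    (h : ∀ v ∈ Y, v ∉ B → v ∈ X) (N : ℕ) : cnt Y N ≤ cnt X N + B.ncard := by
  have hf := fin_cnt X N
  unfold cnt
  generalize hZ : {v : HeightOneSpectrum (𝓞 K) | Ideal.absNorm v.asIdeal ≤ N ∧ v ∈ X} = Z at hf ⊢
  refine le_trans (Set.ncard_le_ncard (t := Z ∪ B) ?_ (hf.union hB)) (Set.ncard_union_le Z B)
  rw [← hZ]
  rintro v ⟨hvN, hv⟩
  by_cases hvB : v ∈ B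
  · exact Or.inr hvB
  · exact Or.inl ⟨hvN, h v hv hvB⟩

lemma dens_cnt (Y : Set (HeightOneSpectrum (𝓞 K))) (N : ℕ) :
    dens (fun v => v ∈ Y) N = (cnt Y N : ℝ) / (Nat.primeCounting N : ℝ) := by
  unfold dens cnt
  rw [← Nat.card_coe_set_eq]
  rfl

lemma arith_adm {δ y x b p : ℝ} (h1 : δ / 2 * p < y) (h2 : y ≤ x + b) (h3 : b ≤ δ / 4 * p) :
    δ / 4 * p ≤ x := by linarith

/-- **The admissible places have positive density.** -/
theorem dens_adm {J : Type} [Finite J] {a b : J → 𝓞 K} (hΔ : ∀ i, 4 * a i ^ 3 + 27 * b i ^ 2 ≠ 0)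
    {g : GK K} (hg : ∀ i, ∀ t : AlgebraicClosure K, Rk (a i : K) (b i : K) t → g t ≠ t) :
    ∃ d : ℝ, 0 < d ∧ ∀ᶠ N : ℕ in atTop, d * Nat.primeCounting N ≤
      cnt {v : HeightOneSpectrum (𝓞 K) | ∀ i, 2 * (4 * a i ^ 3 + 27 * b i ^ 2) ∉ v.asIdeal ∧
        ∀ x : 𝓞 K, x ^ 3 + a i * x + b i ∉ v.asIdeal} N := by
  classical
  let S : Set (AlgebraicClosure K) := {t | ∃ i, Rk (a i : K) (b i : K) t}
  have hS : S.Finite := by
    choose t1 t2 t3 h1 h2 h3 hsp using fun i => cub_split (algebraMap K (AlgebraicClosure K) (a i))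
      (algebraMap K (AlgebraicClosure K) (b i))
    refine ((Set.finite_range t1).union ((Set.finite_range t2).union (Set.finite_range t3))).subset ?_
    rintro t ⟨i, ht⟩
    unfold Rk at ht
    rw [hsp] at ht
    rcases mul_eq_zero.1 ht with h4 | h4
    · rcases mul_eq_zero.1 h4 with h4 | h4
      · exact Or.inl ⟨i, (sub_eq_zero.1 h4).symm⟩
      · exact Or.inr (Or.inl ⟨i, (sub_eq_zero.1 h4).symm⟩)
    · exact Or.inr (Or.inr ⟨i, (sub_eq_zero.1 h4).symm⟩)
  have hSf : Finite S := hS.to_subtype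
  let E : IntermediateField K (AlgebraicClosure K) := IntermediateField.adjoin K S
  have hE : FiniteDimensional K E := IntermediateField.finiteDimensional_adjoin fun t _ =>
    ((AlgebraicClosure.isAlgebraic K).isAlgebraic t).isIntegral
  let W : Subgroup (GK K) := E.fixingSubgroup
  have hW : IsOpen (W : Set (GK K)) := E.fixingSubgroup_isOpen
  have hWf : Finite (GK K ⧸ W) := Subgroup.quotient_finite_of_isOpen W hW
  have hWi : W.FiniteIndex := Subgroup.finiteIndex_of_finite_quotient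
  have hWc : IsClosed (W : Set (GK K)) := W.isClosed_of_isOpen hW
  have hU : IsOpen (W.normalCore : Set (GK K)) :=
    Subgroup.isOpen_of_isClosed_of_finiteIndex _ (W.normalCore_isClosed hWc)
  set C : Set (GK K) := {σ | ∀ i, ∀ t : AlgebraicClosure K, Rk (a i : K) (b i : K) t → σ t ≠ t} with hC
  have hC1 : ∀ σ ∈ C, ∀ τ : GK K, τ * σ * τ⁻¹ ∈ C := by
    intro σ hσ τ i t ht h
    have h1 : (τ * σ * τ⁻¹) t = τ (σ (τ⁻¹ t)) := rfl
    rw [h1] at h
    have h2 := hσ i (τ⁻¹ t) (Rk_img _ ht)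
    apply h2
    have h3 := congrArg (τ⁻¹ : GK K) h
    have h4 : (τ⁻¹ : GK K) (τ (σ (τ⁻¹ t))) = σ (τ⁻¹ t) := by
      show (τ⁻¹ * τ : GK K) (σ (τ⁻¹ t)) = _
      rw [inv_mul_cancel]
      rfl
    rw [← h4]
    exact h3
  have hC2 : ∀ σ ∈ C, ∀ u ∈ W.normalCore, σ * u ∈ C := by
    intro σ hσ u hu i t ht
    have h4 : u ∈ W := W.normalCore_le hu
    have h5 : u t = t :=
      (IntermediateField.mem_fixingSubgroup_iff E u).1 h4 t (IntermediateField.subset_adjoin K S
        ⟨i, ht⟩)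
    have h6 : (σ * u) t = σ (u t) := rfl
    rw [h6, h5]
    exact hσ i t ht
  set Y : Set (HeightOneSpectrum (𝓞 K)) := {v | ∃ σ ∈ C, IsFrob v σ} with hY
  have hch : Tendsto (dens fun v : HeightOneSpectrum (𝓞 K) => v ∈ Y) atTop
    (𝓝 ((((QuotientGroup.mk : GK K → GK K ⧸ W.normalCore) '' C).ncard : ℝ) /
      (Nat.card (GK K ⧸ W.normalCore) : ℝ))) :=
    Pool.Agent.Y142.chebK K W.normalCore hU C hC1 hC2
  have hUf : Finite (GK K ⧸ W.normalCore) := Subgroup.quotient_finite_of_isOpen _ hU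
  have hpos : 0 < ((((QuotientGroup.mk : GK K → GK K ⧸ W.normalCore) '' C).ncard : ℝ) /
      (Nat.card (GK K ⧸ W.normalCore) : ℝ)) := by
    have h1 : 0 < ((QuotientGroup.mk : GK K → GK K ⧸ W.normalCore) '' C).ncard :=
      (Set.ncard_pos (Set.toFinite _)).2 ⟨_, g, hg, rfl⟩
    have h2 : 0 < Nat.card (GK K ⧸ W.normalCore) := Nat.card_pos
    positivity
  set δ := ((((QuotientGroup.mk : GK K → GK K ⧸ W.normalCore) '' C).ncard : ℝ) /
      (Nat.card (GK K ⧸ W.normalCore) : ℝ)) with hδ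
  have hY1 : ∀ᶠ N : ℕ in atTop, δ / 2 < (cnt Y N : ℝ) / (Nat.primeCounting N : ℝ) := by
    have h1 := hch.eventually_const_lt (half_lt_self hpos)
    filter_upwards [h1] with N hN
    rw [dens_cnt] at hN
    exact hN
  -- the bad places
  obtain ⟨B, hBf, hBm⟩ : ∃ B : Set (HeightOneSpectrum (𝓞 K)), B.Finite ∧ ∀ v, v ∉ B → ∀ i,
      2 * (4 * a i ^ 3 + 27 * b i ^ 2) ∉ v.asIdeal := by
    refine ⟨⋃ i, {v : HeightOneSpectrum (𝓞 K) | 2 * (4 * a i ^ 3 + 27 * b i ^ 2) ∈ v.asIdeal},
      Set.finite_iUnion fun i => ?_, fun v hv i h => hv (Set.mem_iUnion.2 ⟨i, h⟩)⟩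
    have h0 : (Ideal.span {2 * (4 * a i ^ 3 + 27 * b i ^ 2)} : Ideal (𝓞 K)) ≠ 0 := by
      rw [Ne, Ideal.zero_eq_bot, Ideal.span_singleton_eq_bot]
      exact mul_ne_zero two_ne_zero (hΔ i)
    refine (Ideal.finite_factors h0).subset fun v hv => ?_
    show v.asIdeal ∣ _
    rw [Ideal.dvd_span_singleton]
    exact hv
  have hsub : ∀ N, cnt Y N ≤ cnt {v : HeightOneSpectrum (𝓞 K) | ∀ i,
      2 * (4 * a i ^ 3 + 27 * b i ^ 2) ∉ v.asIdeal ∧
        ∀ x : 𝓞 K, x ^ 3 + a i * x + b i ∉ v.asIdeal} N + B.ncard := by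
    refine cnt_sub hBf ?_
    rintro v ⟨σ, hσ, hF⟩ hvB i
    exact ⟨hBm v hvB i, fun x => no_root_frob hF
      (fun h => hBm v hvB i (v.asIdeal.mul_mem_left _ h)) (hσ i) x⟩
  refine ⟨δ / 4, by positivity, ?_⟩
  have h3 : ∀ᶠ N : ℕ in atTop, (B.ncard : ℝ) ≤ δ / 4 * Nat.primeCounting N := by
    have h4 : Tendsto (fun N : ℕ => δ / 4 * (Nat.primeCounting N : ℝ)) atTop atTop :=
      Tendsto.const_mul_atTop (by positivity)
        (tendsto_natCast_atTop_atTop.comp Nat.tendsto_primeCounting)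
    exact h4.eventually_ge_atTop _
  have h5 : ∀ᶠ N : ℕ in atTop, 0 < Nat.primeCounting N :=
    Nat.tendsto_primeCounting.eventually_gt_atTop 0
  filter_upwards [hY1, h3, h5] with N hN hN3 hN5
  have h6 : (0 : ℝ) < Nat.primeCounting N := by exact_mod_cast hN5
  rw [lt_div_iff₀ h6] at hN
  refine arith_adm hN ?_ hN3
  exact_mod_cast hsub N

/-- **There are infinitely many admissible places**, and a class modulo `m` of positive density. -/
theorem class_adm {X : Set (HeightOneSpectrum (𝓞 K))} {d : ℝ} (hd : 0 < d)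
    (hX : ∀ᶠ N : ℕ in atTop, d * Nat.primeCounting N ≤ cnt X N) {R : Type} [Finite R]
    (f : HeightOneSpectrum (𝓞 K) → R) :
    ∃ r : R, ∃ d' : ℝ, 0 < d' ∧
      ∃ᶠ N : ℕ in atTop, d' * Nat.primeCounting N ≤ cnt {v | v ∈ X ∧ f v = r} N := by
  classical
  let _ : Fintype R := Fintype.ofFinite R
  have hR : Nonempty R := by
    by_contra h
    have hE : IsEmpty R := not_nonempty_iff.1 h
    have h5 : ∀ᶠ N : ℕ in atTop, 0 < Nat.primeCounting N :=
      Nat.tendsto_primeCounting.eventually_gt_atTop 0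
    obtain ⟨N, hN, hN5⟩ := (hX.and h5).exists
    have h6 : cnt X N = 0 := by
      unfold cnt
      rw [Set.ncard_eq_zero (fin_cnt X N)]
      ext v
      exact ⟨fun _ => hE.elim (f v), fun h => h.elim⟩
    rw [h6] at hN
    have h7 : (0 : ℝ) < Nat.primeCounting N := by exact_mod_cast hN5
    have : 0 < d * Nat.primeCounting N := by positivity
    push_cast at hN
    linarith
  have hcard : 0 < Fintype.card R := Fintype.card_pos
  by_contra hcon
  push Not at hcon
  have hcon' : ∀ r : R, ∀ᶠ N : ℕ in atTop,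
      (cnt {v | v ∈ X ∧ f v = r} N : ℝ) < d / (2 * Fintype.card R) * Nat.primeCounting N := by
    intro r
    exact hcon r (d / (2 * Fintype.card R)) (by positivity)
  have hall := Filter.eventually_all.2 hcon'
  have h5 : ∀ᶠ N : ℕ in atTop, 0 < Nat.primeCounting N :=
    Nat.tendsto_primeCounting.eventually_gt_atTop 0
  obtain ⟨N, ⟨hN1, hN2⟩, hN5⟩ := ((hX.and hall).and h5).exists
  have hsum : cnt X N ≤ ∑ r : R, cnt {v | v ∈ X ∧ f v = r} N := by
    unfold cnt
    have e1 : {v | Ideal.absNorm v.asIdeal ≤ N ∧ v ∈ X} = (fin_cnt X N).toFinset := by simp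
    rw [e1, Set.ncard_coe_finset, Finset.card_eq_sum_card_fiberwise (f := f) (t := Finset.univ)
      (fun _ _ => Finset.mem_univ _)]
    refine Finset.sum_le_sum fun r _ => ?_
    rw [← Set.ncard_coe_finset]
    refine Set.ncard_le_ncard (fun v hv => ?_) (fin_cnt _ N)
    rw [Finset.mem_coe, Finset.mem_filter, Set.Finite.mem_toFinset] at hv
    exact ⟨hv.1.1, hv.1.2, hv.2⟩
  have h6 : (cnt X N : ℝ) ≤ ∑ r : R, (cnt {v | v ∈ X ∧ f v = r} N : ℝ) := by exact_mod_cast hsum
  have h7 : ∑ r : R, (cnt {v | v ∈ X ∧ f v = r} N : ℝ) ≤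
      ∑ _r : R, d / (2 * Fintype.card R) * Nat.primeCounting N :=
    Finset.sum_le_sum fun r _ => (hN2 r).le
  rw [Finset.sum_const, Finset.card_univ, nsmul_eq_mul] at h7
  have hcR : (0 : ℝ) < Fintype.card R := by exact_mod_cast hcard
  have h8 : (Fintype.card R : ℝ) * (d / (2 * Fintype.card R) * Nat.primeCounting N) =
      d / 2 * Nat.primeCounting N := by
    field_simp
  rw [h8] at h7
  have h9 : (0 : ℝ) < Nat.primeCounting N := by exact_mod_cast hN5
  have h10 : 0 < d * Nat.primeCounting N := by positivity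
  linarith

lemma inf_of_cnt {X : Set (HeightOneSpectrum (𝓞 K))} {d : ℝ} (hd : 0 < d)
    (hX : ∃ᶠ N : ℕ in atTop, d * Nat.primeCounting N ≤ cnt X N) : X.Infinite := by
  intro hfin
  have h4 : Tendsto (fun N : ℕ => d * (Nat.primeCounting N : ℝ)) atTop atTop :=
    Tendsto.const_mul_atTop hd (tendsto_natCast_atTop_atTop.comp Nat.tendsto_primeCounting)
  have h5 := h4.eventually_gt_atTop (X.ncard : ℝ)
  obtain ⟨N, hN1, hN2⟩ := (hX.and_eventually h5).exists
  have h6 : cnt X N ≤ X.ncard := Set.ncard_le_ncard (fun _ h => h.2) hfin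
  have h7 : (cnt X N : ℝ) ≤ X.ncard := by exact_mod_cast h6
  linarith

end Pool.Agent.T9h30.BT
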