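import Pool.Agent.K4H55.BI.Nf

/-!
# Integral bases of imaginary quadratic fields
-/

set_option autoImplicit false
set_option linter.unusedSectionVars false

namespace Pool.Agent.T9h30.BT

open NumberField
open Pool.Agent.K4H55.BI (IQ norm_iq)
open scoped ComplexConjugate

variable {K : Type} [Field K] [NumberField K]

/-- an integral basis `1, ω` with the norm form -/
structure Bs (ω : 𝓞 K) (t n : ℤ) : Prop where
  rel : ω ^ 2 = t * ω - n
  ex : ∀ x : 𝓞 K, ∃ a b : ℤ, x = a + b * ω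
  un : ∀ a b : ℤ, (a : 𝓞 K) + b * ω = 0 → a = 0 ∧ b = 0
  nm : ∀ a b : ℤ, Algebra.norm ℤ ((a : 𝓞 K) + b * ω) = a ^ 2 + t * a * b + n * b ^ 2
  nn : ∀ x : 𝓞 K, 0 ≤ Algebra.norm ℤ x

lemma norm_int (h : Module.finrank ℚ K = 2) (g : ℤ) : Algebra.norm ℤ (g : 𝓞 K) = g ^ 2 := by
  have h1 := Algebra.norm_algebraMap (S := 𝓞 K) (R := ℤ) g
  rw [RingOfIntegers.rank, h] at h1
  exact h1

theorem exists_bs {σ : K →+* ℂ} {δ : K} (h : IQ K σ δ) : ∃ (ω : 𝓞 K) (t n : ℤ), Bs ω t n := by
  have h2 := h.deg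
  have hr : Module.finrank ℤ (𝓞 K) = 2 := by rw [RingOfIntegers.rank, h2]
  let e := Module.finBasisOfFinrankEq ℤ (𝓞 K) hr
  set p := e.repr 1 0 with hp
  set q := e.repr 1 1 with hq
  have h1 : (1 : 𝓞 K) = p * e 0 + q * e 1 := by
    have := e.sum_repr 1
    rw [Fin.sum_univ_two, zsmul_eq_mul, zsmul_eq_mul] at this
    exact this.symm
  have hgcd : IsCoprime p q := by
    rw [Int.isCoprime_iff_gcd_eq_one]
    obtain ⟨p', hp'⟩ := Int.gcd_dvd_left (a := p) (b := q)
    obtain ⟨q', hq'⟩ := Int.gcd_dvd_right (a := p) (b := q)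
    set g : ℤ := (Int.gcd p q : ℤ) with hg
    have h3 : (1 : 𝓞 K) = (g : 𝓞 K) * (p' * e 0 + q' * e 1) := by
      rw [h1, hp', hq']
      push_cast
      ring
    have h4 := congrArg (Algebra.norm ℤ) h3
    rw [map_one, map_mul, norm_int h2] at h4
    have h5 : IsUnit (g ^ 2) := IsUnit.of_mul_eq_one _ h4.symm
    have h6 : IsUnit g := (isUnit_pow_iff (by norm_num)).1 h5
    rcases Int.isUnit_iff.1 h6 with h7 | h7
    · have : (Int.gcd p q : ℤ) = 1 := h7
      exact_mod_cast this
    · have : (Int.gcd p q : ℤ) = -1 := h7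
      omega
  obtain ⟨s, r, hsr⟩ := hgcd
  -- `s p + r q = 1`
  set ω : 𝓞 K := -r * e 0 + s * e 1 with hω
  have he0 : e 0 = s * 1 - q * ω := by
    have hsr' : (s : 𝓞 K) * p + r * q = 1 := by exact_mod_cast congrArg (fun x : ℤ => (x : 𝓞 K)) hsr
    rw [h1, hω]
    linear_combination (-(e 0 : 𝓞 K)) * hsr'
  have he1 : e 1 = r * 1 + p * ω := by
    have hsr' : (s : 𝓞 K) * p + r * q = 1 := by exact_mod_cast congrArg (fun x : ℤ => (x : 𝓞 K)) hsr
    rw [h1, hω]
    linear_combination (-(e 1 : 𝓞 K)) * hsr'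
  have hex : ∀ x : 𝓞 K, ∃ a b : ℤ, x = a + b * ω := by
    intro x
    refine ⟨e.repr x 0 * s + e.repr x 1 * r, -(e.repr x 0 * q) + e.repr x 1 * p, ?_⟩
    have h3 := e.sum_repr x
    rw [Fin.sum_univ_two, zsmul_eq_mul, zsmul_eq_mul] at h3
    conv_lhs => rw [← h3, he0, he1]
    push_cast
    ring
  obtain ⟨n', t, hnt⟩ := hex (ω ^ 2)
  -- the image of `ω`
  set z : ℂ := σ ω with hz
  have hz1 : z ^ 2 = t * z + n' := by
    have h3 := congrArg (fun y : 𝓞 K => σ (y : K)) hnt
    simp only [map_pow, map_add, map_mul, map_intCast] at h3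
    rw [hz]
    linear_combination h3
  have hz2 : (conj z) ^ 2 = t * conj z + n' := by
    have h3 := congrArg conj hz1
    simp only [map_pow, map_add, map_mul, map_intCast] at h3
    exact h3
  have hreal : conj z ≠ z := by
    intro h3
    obtain ⟨x, hx⟩ := h.cplx
    apply hx
    obtain ⟨y, m, hm, hxy⟩ := IsFractionRing.div_surjective (A := 𝓞 K) x
    obtain ⟨a, b, hab⟩ := hex y
    obtain ⟨a', b', hab'⟩ := hex m
    have key : ∀ (w : 𝓞 K) (u v : ℤ), w = u + v * ω → conj (σ (w : K)) = σ (w : K) := by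
      intro w u v hw
      have h4 : σ (w : K) = u + v * z := by
        rw [hw, hz]
        simp only [map_add, map_mul, map_intCast]
      rw [h4]
      simp only [map_add, map_mul, map_intCast, h3]
    rw [← hxy, map_div₀, map_div₀]
    have k1 := key y a b hab
    have k2 := key m a' b' hab'
    exact congrArg₂ (· / ·) k1 k2
  have hsum : z + conj z = t := by
    have h3 : (z - conj z) * (z + conj z - t) = 0 := by linear_combination hz1 - hz2
    rcases mul_eq_zero.1 h3 with h4 | h4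
    · exact absurd (sub_eq_zero.1 h4).symm hreal
    · exact sub_eq_zero.1 h4
  have hprod : z * conj z = -n' := by
    linear_combination z * hsum - hz1
  have hnorm : ∀ a b : ℤ, Algebra.norm ℤ ((a : 𝓞 K) + b * ω) = a ^ 2 + t * a * b + (-n') * b ^ 2 := by
    intro a b
    have h3 := norm_iq h (((a : 𝓞 K) + b * ω : 𝓞 K) : K)
    rw [← Algebra.coe_norm_int] at h3
    have h4 : σ (((a : 𝓞 K) + b * ω : 𝓞 K) : K) = a + b * z := by
      rw [hz]
      simp only [map_add, map_mul, map_intCast]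
    rw [h4] at h3
    simp only [map_add, map_mul, map_intCast] at h3
    have h5 : ((Algebra.norm ℤ ((a : 𝓞 K) + b * ω) : ℤ) : ℂ) =
        ((a ^ 2 + t * a * b + (-n') * b ^ 2 : ℤ) : ℂ) := by
      have h6 : ((Algebra.norm ℤ ((a : 𝓞 K) + b * ω) : ℤ) : ℂ) =
          (a + b * z) * (a + b * conj z) := by
        rw [← h3]
        push_cast
        rfl
      rw [h6]
      push_cast
      linear_combination (a * b : ℂ) * hsum + (b ^ 2 : ℂ) * hprod
    exact_mod_cast h5
  refine ⟨ω, t, -n', ?_, hex, fun a b hab => ?_, hnorm, fun x => ?_⟩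
  · rw [hnt]
    push_cast
    ring
  · have h3 : (a : ℂ) + b * z = 0 := by
      have h4 := congrArg (fun y : 𝓞 K => σ (y : K)) hab
      simp only [map_add, map_mul, map_intCast, map_zero] at h4
      exact h4
    have h4 : (a : ℂ) + b * conj z = 0 := by
      have h5 := congrArg conj h3
      simp only [map_add, map_mul, map_intCast, map_zero] at h5
      exact h5
    have h5 : (b : ℂ) * (z - conj z) = 0 := by linear_combination h3 - h4
    have hb : b = 0 := by
      rcases mul_eq_zero.1 h5 with h6 | h6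
      · exact_mod_cast h6
      · exact absurd (sub_eq_zero.1 h6).symm hreal
    subst hb
    refine ⟨?_, rfl⟩
    rw [Int.cast_zero, zero_mul, add_zero] at h3
    exact_mod_cast h3
  · have h3 := norm_iq h (x : K)
    rw [← Algebra.coe_norm_int, Complex.mul_conj, Complex.normSq_eq_norm_sq] at h3
    have h4 : ((Algebra.norm ℤ x : ℤ) : ℝ) = ‖σ x‖ ^ 2 := by exact_mod_cast h3
    have h5 : (0 : ℝ) ≤ (Algebra.norm ℤ x : ℤ) := by rw [h4]; positivity
    exact_mod_cast h5

end Pool.Agent.T9h30.BT
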