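import Pool.Agent.T9h30.BT.LS

/-!
# Continuation of the `L`-function over an abelian extension
-/

set_option autoImplicit false
set_option linter.unusedSectionVars false

namespace Pool.Agent.T9h30.BT

open NumberField IsDedekindDomain WeierstrassCurve Pool.Agent.W189.NF
open Pool.Agent.K4H55.BI (gen)
open Pool.Agent.K4H55.CX (efx)

lemma bad_finite {K : Type} [Field K] [NumberField K] {x : 𝓞 K} (hx : x ≠ 0) :
    {v : HeightOneSpectrum (𝓞 K) | x ∈ v.asIdeal}.Finite := by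
  have h0 : (Ideal.span {x} : Ideal (𝓞 K)) ≠ 0 := by
    rw [Ne, Ideal.zero_eq_bot, Ideal.span_singleton_eq_bot]
    exact hx
  refine (Ideal.finite_factors h0).subset fun v hv => ?_
  show v.asIdeal ∣ _
  rw [Ideal.dvd_span_singleton]
  exact hv

section merid

/-- a meromorphic identity principle along a segment -/
theorem order_same {Λ H : ℂ → ℂ} (hΛ : MeromorphicOn Λ Set.univ)
    (hH : ∀ x : ℝ, 1 ≤ x → x ≤ 2 → MeromorphicAt H (x : ℂ))
    (h : ∀ s : ℂ, 2 < s.re → H s = Λ s) : meromorphicOrderAt H 1 = meromorphicOrderAt Λ 1 := by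
  set U : Set ℂ := (fun x : ℝ => (x : ℂ)) '' Set.Icc 1 3 with hU
  have hconn : IsPreconnected U :=
    (isPreconnected_Icc).image _ Complex.continuous_ofReal.continuousOn
  have hmer : MeromorphicOn (H - Λ) U := by
    rintro _ ⟨x, ⟨hx1, hx2⟩, rfl⟩
    by_cases h2 : x ≤ 2
    · exact (hH x hx1 h2).sub (hΛ _ (Set.mem_univ _))
    · push Not at h2
      have h3 : (H - Λ) =ᶠ[nhds (x : ℂ)] fun _ => (0 : ℂ) := by
        have h4 : ∀ᶠ s : ℂ in nhds (x : ℂ), 2 < s.re :=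
          (isOpen_lt continuous_const Complex.continuous_re).mem_nhds h2
        filter_upwards [h4] with s hs
        rw [Pi.sub_apply, h s hs, sub_self]
      exact (MeromorphicAt.const 0 _).congr (h3.symm.filter_mono nhdsWithin_le_nhds)
  have h3 : ((3 : ℝ) : ℂ) ∈ U := ⟨3, ⟨by norm_num, le_rfl⟩, rfl⟩
  have h1 : (1 : ℂ) ∈ U := ⟨1, ⟨le_rfl, by norm_num⟩, by norm_num⟩
  have htop : meromorphicOrderAt (H - Λ) ((3 : ℝ) : ℂ) = ⊤ := by
    rw [meromorphicOrderAt_eq_top_iff]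
    have h4 : ∀ᶠ s : ℂ in nhds ((3 : ℝ) : ℂ), 2 < s.re :=
      (isOpen_lt continuous_const Complex.continuous_re).mem_nhds (by norm_num)
    filter_upwards [h4.filter_mono nhdsWithin_le_nhds] with s hs
    rw [Pi.sub_apply, h s hs, sub_self]
  have htop1 : meromorphicOrderAt (H - Λ) 1 = ⊤ := by
    by_contra hne
    exact (hmer.meromorphicOrderAt_ne_top_of_isPreconnected hconn h1 h3 hne) htop
  rw [meromorphicOrderAt_eq_top_iff] at htop1
  apply meromorphicOrderAt_congr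
  filter_upwards [htop1] with s hs
  exact sub_eq_zero.1 hs

end merid

variable {K F : Type} [Field K] [NumberField K] [Field F] [NumberField F] [Algebra K F]
  [IsGalois K F] [IsPrincipalIdealRing (𝓞 K)] {n : 𝓞 K} {c : Ideal (𝓞 K) → ℂ}
  {T : ((F ≃ₐ[K] F) →* ℂˣ) → Finset (HeightOneSpectrum (𝓞 K))}
  {χ : ((F ≃ₐ[K] F) →* ℂˣ) → 𝓞 K → ℂ}

lemma fin_dual' (hc : ∀ s t : F ≃ₐ[K] F, s * t = t * s) : Finite ((F ≃ₐ[K] F) →* ℂˣ) := by
  let _ : CommGroup (F ≃ₐ[K] F) := { (inferInstance : Group (F ≃ₐ[K] F)) with mul_comm := hc }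
  exact fin_dual (F ≃ₐ[K] F)

/-- **Continuation of the `L`-function over an abelian extension.** -/
theorem continuation (hc : ∀ s t : F ≃ₐ[K] F, s * t = t * s) (hR : Rec T χ) (a b : 𝓞 K)
    (hΔ : 4 * a ^ 3 + 27 * b ^ 2 ≠ 0) (hN : IsNF (cv (a : K) (b : K)) n c)
    {Gf : ((F ≃ₐ[K] F) →* ℂˣ) → ℂ → ℂ} (hG : ∀ ψ, Differentiable ℂ (Gf ψ))
    (hP : ∀ ψ (s : ℂ), 2 < s.re → HasProd (efx n c (χ ψ) s) (Gf ψ s)) (h1 : ∀ ψ, Gf ψ 1 ≠ 0) :
    ∃ Λ : ℂ → ℂ, MeromorphicOn Λ Set.univ ∧ AnalyticAt ℂ Λ 1 ∧ Λ 1 ≠ 0 ∧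
      ∀ s : ℂ, 2 < s.re → Λ s = (cF F a b).LSeries s := by
  classical
  have hfin := fin_dual' hc
  let _ : Fintype ((F ≃ₐ[K] F) →* ℂˣ) := Fintype.ofFinite _
  have hab := fun v : HeightOneSpectrum (𝓞 K) => fin_ab (F := F) v
  let _ := fun v : HeightOneSpectrum (𝓞 K) => Fintype.ofFinite (Ab F v)
  have h2Δ : 2 * (4 * a ^ 3 + 27 * b ^ 2) ≠ 0 := mul_ne_zero two_ne_zero hΔ
  set S : Finset (HeightOneSpectrum (𝓞 K)) :=
    (bad_finite h2Δ).toFinset ∪ Finset.univ.biUnion T with hS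
  have hSout : ∀ v, v ∉ S → 2 * (4 * a ^ 3 + 27 * b ^ 2) ∉ v.asIdeal ∧ ∀ ψ, v ∉ T ψ := by
    intro v hv
    rw [hS, Finset.mem_union, not_or, Set.Finite.mem_toFinset, Finset.mem_biUnion] at hv
    refine ⟨hv.1, fun ψ h => hv.2 ⟨ψ, Finset.mem_univ _, h⟩⟩
  -- the factors
  set A : HeightOneSpectrum (𝓞 K) → ℂ → ℂ := fun v s => ∏ u : Ab F v, PT (cF F a b) u.1 1 s with hA
  set B : HeightOneSpectrum (𝓞 K) → ℂ → ℂ := fun v s =>
    ∏ ψ : (F ≃ₐ[K] F) →* ℂˣ, PT (cv (a : K) (b : K)) v (χ ψ (gen v)) s with hB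
  have hAd : ∀ v, Differentiable ℂ (A v) := fun v =>
    Differentiable.fun_finsetProd fun u _ => PT_diff _ _ _
  have hBd : ∀ v, Differentiable ℂ (B v) := fun v =>
    Differentiable.fun_finsetProd fun ψ _ => PT_diff _ _ _
  have hA1 : ∀ v, A v 1 ≠ 0 := fun v =>
    Finset.prod_ne_zero_iff.2 fun u _ => PT_one_ne _ _ (Or.inl norm_one)
  have hB1 : ∀ v, B v 1 ≠ 0 := fun v =>
    Finset.prod_ne_zero_iff.2 fun ψ _ => PT_one_ne _ _ (hR.nrm ψ _)
  have hB2 : ∀ v (s : ℂ), 2 < s.re → B v s ≠ 0 := fun v s hs =>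
    Finset.prod_ne_zero_iff.2 fun ψ _ => PT_ne _ _ (by
      rcases hR.nrm ψ (gen v) with h | h
      · exact h.le
      · rw [h, norm_zero]
        exact zero_le_one) hs
  refine ⟨fun s => (∏ ψ, Gf ψ s) * ∏ v ∈ S, (B v s * (A v s)⁻¹), ?_, ?_, ?_, ?_⟩
  · intro s _
    have h3 : MeromorphicAt (fun s => ∏ ψ, Gf ψ s) s := by
      have : Differentiable ℂ fun s => ∏ ψ, Gf ψ s := Differentiable.fun_finsetProd fun ψ _ => hG ψ
      exact (this.analyticAt s).meromorphicAt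
    have h4 : MeromorphicAt (fun s => ∏ v ∈ S, (B v s * (A v s)⁻¹)) s := by
      refine MeromorphicAt.fun_prod fun v _ => ?_
      exact ((hBd v).analyticAt s).meromorphicAt.mul ((hAd v).analyticAt s).meromorphicAt.inv
    exact h3.mul h4
  · have h3 : AnalyticAt ℂ (fun s => ∏ ψ, Gf ψ s) 1 := by
      have : Differentiable ℂ fun s => ∏ ψ, Gf ψ s := Differentiable.fun_finsetProd fun ψ _ => hG ψ
      exact this.analyticAt 1
    have h4 : AnalyticAt ℂ (fun s => ∏ v ∈ S, (B v s * (A v s)⁻¹)) 1 := by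
      refine Finset.analyticAt_fun_prod _ fun v _ => ?_
      exact ((hBd v).analyticAt 1).mul (((hAd v).analyticAt 1).inv (hA1 v))
    exact h3.mul h4
  · exact mul_ne_zero (Finset.prod_ne_zero_iff.2 fun ψ _ => h1 ψ)
      (Finset.prod_ne_zero_iff.2 fun v _ => mul_ne_zero (hB1 v) (inv_ne_zero (hA1 v)))
  · intro s hs
    simp only
    have h3 : HasProd (fun v => ∏ ψ, efx n c (χ ψ) s v) (∏ ψ, Gf ψ s) :=
      hasProd_prod fun ψ _ => hP ψ s hs
    have h4 : HasProd (fun v : HeightOneSpectrum (𝓞 K) => if v ∈ S then B v s * (A v s)⁻¹ else 1)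
        (∏ v ∈ S, (B v s * (A v s)⁻¹)) := by
      have h5 : HasProd (fun v : HeightOneSpectrum (𝓞 K) =>
          if v ∈ S then B v s * (A v s)⁻¹ else 1)
          (∏ v ∈ S, if v ∈ S then B v s * (A v s)⁻¹ else 1) :=
        hasProd_prod_of_ne_finset_one (fun v hv => if_neg hv)
      rw [Finset.prod_congr rfl fun v hv => if_pos hv] at h5
      exact h5
    have h5 := h3.mul h4
    have h6 := LSF (K := K) (cF F a b) hs
    refine h5.unique ?_
    refine (congrArg (fun g => HasProd g ((cF F a b).LSeries s)) (funext fun v => ?_)).mp h6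
    have h7 : ∏ ψ, efx n c (χ ψ) s v = (B v s)⁻¹ := by
      rw [hB]
      simp only
      rw [← Finset.prod_inv_distrib]
      exact Finset.prod_congr rfl fun ψ _ => efx_PT hN (χ ψ) s v
    have h8 : ∏ᶠ u : Ab F v, (PT (cF F a b) u.1 1 s)⁻¹ = (A v s)⁻¹ := by
      rw [hA]
      simp only
      rw [finprod_eq_prod_of_fintype, ← Finset.prod_inv_distrib]
    rw [h7, h8]
    by_cases hv : v ∈ S
    · rw [if_pos hv, ← mul_assoc, inv_mul_cancel₀ (hB2 v s hs), one_mul]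
    · rw [if_neg hv, mul_one]
      obtain ⟨g1, g2⟩ := hSout v hv
      have h9 := above_unr hc hR a b g1 g2 s
      rw [finprod_eq_prod_of_fintype, finprod_eq_prod_of_fintype] at h9
      congr 1

end Pool.Agent.T9h30.BT
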