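import Pool.Agent.W165.CE.FF

/-!
# The number of points over extensions of a finite field
-/

set_option autoImplicit false
set_option linter.unusedSectionVars false

namespace Pool.Agent.T9h30.BT

open W165.CE
open Pool.Agent.H341R2.Sharp
open Pool.Agent.H82R3.EK (luc luc_eq sum_Mon_two card_points sum_qc_sub)

/-- the number of the affine points -/
noncomputable def np {k : Type} [Field k] (a b : k) : ℕ :=
  Nat.card {x : k × k // x.2 ^ 2 = x.1 ^ 3 + a * x.1 + b}

/-- the number of points over an extension -/
theorem np_ext {k E : Type} [Field k] [Finite k] [Field E] [Finite E] [Algebra k E]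
    (h2 : (2 : k) ≠ 0) (a b : k) (hD : 4 * a ^ 3 + 27 * b ^ 2 ≠ 0) :
    (Nat.card E : ℤ) - np (algebraMap k E a) (algebraMap k E b) =
      luc ((Nat.card k : ℤ) - np a b) (Nat.card k) (Module.finrank k E) := by
  classical
  let _ : Fintype k := Fintype.ofFinite k
  let _ : Fintype E := Fintype.ofFinite E
  have hF : ringChar k ≠ 2 := by
    intro h
    apply h2
    have h3 : ((2 : ℕ) : k) = 0 := (ringChar.spec k 2).2 (by rw [h])
    exact_mod_cast h3
  have hE : ringChar E ≠ 2 := by
    rwa [← Algebra.ringChar_eq k E]
  have key : (Fintype.card E : ℤ) - np (algebraMap k E a) (algebraMap k E b) =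
      - T (wei a b) (Module.finrank k E) := by
    unfold np
    rw [card_points hE (fun x => x ^ 3 + algebraMap k E a * x + algebraMap k E b),
      T_eq_sum (E := E) hF]
    have : ∀ x : E, Polynomial.aeval x (wei a b) =
        x ^ 3 + algebraMap k E a * x + algebraMap k E b := fun x => aeval_wei a b x
    simp_rw [this]
    ring
  have key' : (Fintype.card k : ℤ) - np a b = - T (wei a b) 1 := by
    have h1 := T_eq_sum (E := k) hF (wei a b)
    rw [Module.finrank_self] at h1
    unfold np
    rw [card_points hF (fun x => x ^ 3 + a * x + b), h1]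
    have : ∀ x : k, Polynomial.aeval x (wei a b) = x ^ 3 + a * x + b := fun x => by
      rw [aeval_wei, Algebra.algebraMap_self, RingHom.id_apply, RingHom.id_apply]
    simp_rw [this]
    ring
  have hpos : 0 < Module.finrank k E := Module.finrank_pos
  obtain ⟨n, hn⟩ := Nat.exists_eq_succ_of_ne_zero hpos.ne'
  rw [Nat.card_eq_fintype_card, Nat.card_eq_fintype_card, key, key', hn, Nat.succ_eq_add_one,
    T_luc hF (wei_natDegree _ _) (wei_monic _ _) n, A_two hF _ _ hD]
  ring

end Pool.Agent.T9h30.BT
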