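import Mathlib

/-!
# Decomposition of places in Galois extensions of number fields
-/

set_option autoImplicit false
set_option linter.unusedSectionVars false

namespace Pool.Agent.T9h30.BT

open NumberField IsDedekindDomain

section lo
variable {K F : Type} [Field K] [NumberField K] [Field F] [NumberField F] [Algebra K F]

/-- the place below -/
def lo (w : HeightOneSpectrum (𝓞 F)) : HeightOneSpectrum (𝓞 K) where
  asIdeal := w.asIdeal.under (𝓞 K)
  isPrime := inferInstance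
  ne_bot := by
    have h : Algebra.IsIntegral (𝓞 K) (𝓞 F) := inferInstance
    exact Ideal.IsIntegral.comap_ne_bot (𝓞 K) w.ne_bot

instance (w : HeightOneSpectrum (𝓞 F)) : w.asIdeal.LiesOver (lo (K := K) w).asIdeal := ⟨rfl⟩

lemma mem_lo {w : HeightOneSpectrum (𝓞 F)} {x : 𝓞 K} :
    x ∈ (lo (K := K) w).asIdeal ↔ algebraMap (𝓞 K) (𝓞 F) x ∈ w.asIdeal := Iff.rfl

/-- the places above `v` -/
abbrev Ab (F : Type) [Field F] [NumberField F] [Algebra K F] (v : HeightOneSpectrum (𝓞 K)) : Type :=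
  {u : HeightOneSpectrum (𝓞 F) // lo (K := K) u = v}

lemma lo_iff {u : HeightOneSpectrum (𝓞 F)} {v : HeightOneSpectrum (𝓞 K)} :
    lo (K := K) u = v ↔ u.asIdeal.comap (algebraMap (𝓞 K) (𝓞 F)) = v.asIdeal := by
  constructor
  · rintro rfl
    rfl
  · intro h
    exact HeightOneSpectrum.ext h

/-- the residue degree -/
noncomputable def rd (K : Type) [Field K] [NumberField K] [Algebra K F]
    (u : HeightOneSpectrum (𝓞 F)) : ℕ := u.asIdeal.inertiaDeg (𝓞 K)

lemma nrm_eq (u : HeightOneSpectrum (𝓞 F)) :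
    Ideal.absNorm u.asIdeal = Ideal.absNorm (lo (K := K) u).asIdeal ^ rd K u := by
  have h1 := Ideal.absNorm_eq_pow_inertiaDeg'_of_liesOver u.asIdeal (lo (K := K) u).asIdeal
    (lo (K := K) u).isPrime (lo (K := K) u).ne_bot
  have hm : (lo (K := K) u).asIdeal.IsMaximal := (lo (K := K) u).isMaximal
  have hm' : u.asIdeal.IsMaximal := u.isMaximal
  rw [Ideal.inertiaDeg'_eq_inertiaDeg] at h1
  exact h1

lemma one_lt_nrm (v : HeightOneSpectrum (𝓞 K)) : 1 < Ideal.absNorm v.asIdeal := by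
  have h5 : Ideal.absNorm v.asIdeal ≠ 0 := by
    rw [Ne, Ideal.absNorm_eq_zero_iff]
    exact v.ne_bot
  have h6 : Ideal.absNorm v.asIdeal ≠ 1 := by
    rw [Ne, Ideal.absNorm_eq_one_iff]
    exact v.isPrime.ne_top
  omega

lemma rd_pos (u : HeightOneSpectrum (𝓞 F)) : 0 < rd K u := by
  rw [Nat.pos_iff_ne_zero]
  intro h
  have h1 := nrm_eq (K := K) u
  rw [h, pow_zero] at h1
  have := one_lt_nrm u
  omega

lemma ab_ncard (v : HeightOneSpectrum (𝓞 K)) :
    Nat.card (Ab F v) = (v.asIdeal.primesOver (𝓞 F)).ncard := by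
  rw [← Nat.card_coe_set_eq]
  refine Nat.card_congr ⟨fun u => ⟨u.1.asIdeal, u.1.isPrime, ⟨?_⟩⟩, fun P => ⟨⟨P.1, P.2.1, ?_⟩, ?_⟩,
    fun _ => rfl, fun _ => rfl⟩
  · have h := congrArg HeightOneSpectrum.asIdeal u.2
    exact h.symm
  · have hl : P.1.LiesOver v.asIdeal := P.2.2
    exact Ideal.ne_bot_of_liesOver_of_ne_bot v.ne_bot P.1
  · apply HeightOneSpectrum.ext
    exact P.2.2.over.symm

lemma exists_ab (v : HeightOneSpectrum (𝓞 K)) : Nonempty (Ab F v) := by
  have hmax : v.asIdeal.IsMaximal := v.isMaximal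
  obtain ⟨Q, hQ, hl⟩ := Ideal.exists_maximal_ideal_liesOver_of_isIntegral (S := 𝓞 F) v.asIdeal
  have hne : Q ≠ ⊥ := Ideal.ne_bot_of_liesOver_of_ne_bot v.ne_bot Q
  exact ⟨⟨Q, hQ.isPrime, hne⟩, HeightOneSpectrum.ext hl.over.symm⟩

end lo

variable {K F : Type} [Field K] [NumberField K] [Field F] [NumberField F] [Algebra K F]

/-- `t` is a Frobenius automorphism at `u` -/
def Frb (u : HeightOneSpectrum (𝓞 F)) (t : F ≃ₐ[K] F) : Prop :=
  ∀ x : 𝓞 F, t • x - x ^ Ideal.absNorm (lo (K := K) u).asIdeal ∈ u.asIdeal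

/-- `t` is in the inertia group of `u` -/
def Ine (u : HeightOneSpectrum (𝓞 F)) (t : F ≃ₐ[K] F) : Prop :=
  ∀ x : 𝓞 F, t • x - x ∈ u.asIdeal

/-- the inertia group -/
noncomputable abbrev In (u : HeightOneSpectrum (𝓞 F)) : Subgroup (F ≃ₐ[K] F) :=
  u.asIdeal.inertia (F ≃ₐ[K] F)

lemma mem_In {u : HeightOneSpectrum (𝓞 F)} {t : F ≃ₐ[K] F} : t ∈ In u ↔ Ine u t := Iff.rfl

lemma frb_pow {u : HeightOneSpectrum (𝓞 F)} {t : F ≃ₐ[K] F} (h : Frb u t) (j : ℕ) (x : 𝓞 F) :
    t ^ j • x - x ^ Ideal.absNorm (lo (K := K) u).asIdeal ^ j ∈ u.asIdeal := by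
  induction j with
  | zero => simp
  | succ j ih =>
    have h1 := h (t ^ j • x)
    have h2 := Ideal.mem_of_dvd u.asIdeal (sub_dvd_pow_sub_pow (t ^ j • x)
      (x ^ Ideal.absNorm (lo (K := K) u).asIdeal ^ j) (Ideal.absNorm (lo (K := K) u).asIdeal)) ih
    rw [smul_smul, ← pow_succ'] at h1
    have h3 := u.asIdeal.add_mem h1 h2
    rw [sub_add_sub_cancel, ← pow_mul, ← pow_succ] at h3
    exact h3

/-- the order of the Frobenius automorphism modulo the inertia group -/
theorem frb_ord {u : HeightOneSpectrum (𝓞 F)} {t : F ≃ₐ[K] F} (h : Frb u t) (j : ℕ) :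
    t ^ j ∈ In u ↔ rd K u ∣ j := by
  have hmax : u.asIdeal.IsMaximal := u.isMaximal
  have hfin : Finite (𝓞 F ⧸ u.asIdeal) := Ideal.finiteQuotientOfFreeOfNeBot _ u.ne_bot
  let _ : Field (𝓞 F ⧸ u.asIdeal) := Ideal.Quotient.field _
  let _ : Fintype (𝓞 F ⧸ u.asIdeal) := Fintype.ofFinite _
  set q := Ideal.absNorm (lo (K := K) u).asIdeal with hq
  have hq1 : 1 < q := one_lt_nrm _
  have hcard : Nat.card (𝓞 F ⧸ u.asIdeal) = q ^ rd K u := nrm_eq (K := K) u
  have hf := rd_pos (K := K) u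
  -- in terms of the residue field
  have h1 : t ^ j ∈ In u ↔ ∀ y : 𝓞 F ⧸ u.asIdeal, y ^ q ^ j = y := by
    rw [mem_In]
    constructor
    · intro h2 y
      obtain ⟨x, rfl⟩ := Ideal.Quotient.mk_surjective y
      rw [← map_pow]
      apply Ideal.Quotient.eq.2
      have h3 := u.asIdeal.sub_mem (h2 x) (frb_pow h j x)
      rw [sub_sub_sub_cancel_left] at h3
      exact h3
    · intro h2 x
      have h3 := frb_pow h j x
      have h4 : x ^ q ^ j - x ∈ u.asIdeal := by
        apply Ideal.Quotient.eq.1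
        rw [map_pow]
        exact h2 _
      have h5 := u.asIdeal.add_mem h3 h4
      rwa [sub_add_sub_cancel] at h5
  rw [h1]
  constructor
  · intro h2
    rcases Nat.eq_zero_or_pos j with rfl | hj
    · exact dvd_zero _
    obtain ⟨g, hg⟩ := IsCyclic.exists_ofOrder_eq_natCard (α := (𝓞 F ⧸ u.asIdeal)ˣ)
    have h3 : Nat.card (𝓞 F ⧸ u.asIdeal)ˣ = q ^ rd K u - 1 := by
      rw [Nat.card_units, hcard]
    have h4 : g ^ (q ^ j - 1) = 1 := by
      have h4 : g ^ (q ^ j) = g := by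
        apply Units.ext
        push_cast
        exact h2 g
      have h5 : 1 ≤ q ^ j := Nat.one_le_pow _ _ (by omega)
      have h6 : g ^ (q ^ j - 1) * g = 1 * g := by
        rw [← pow_succ, Nat.sub_add_cancel h5, h4, one_mul]
      exact mul_right_cancel h6
    have h5 := orderOf_dvd_of_pow_eq_one h4
    rw [hg, h3] at h5
    have h6 := Nat.pow_sub_one_gcd_pow_sub_one q (rd K u) j
    rw [Nat.gcd_eq_left h5] at h6
    have h7 : q ^ rd K u = q ^ (rd K u).gcd j := by
      have h8 : 1 ≤ q ^ rd K u := Nat.one_le_pow _ _ (by omega)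
      have h9 : 1 ≤ q ^ (rd K u).gcd j := Nat.one_le_pow _ _ (by omega)
      omega
    have h8 := Nat.pow_right_injective hq1 h7
    exact Nat.gcd_eq_left_iff_dvd.1 h8.symm
  · rintro ⟨m, rfl⟩ y
    have h3 : ∀ m : ℕ, y ^ (q ^ rd K u) ^ m = y := by
      intro m
      induction m with
      | zero => rw [pow_zero, pow_one]
      | succ m ih =>
        rw [pow_succ, pow_mul, ih, ← hcard, Nat.card_eq_fintype_card]
        exact FiniteField.pow_card y
    rw [pow_mul]
    exact h3 m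

variable [IsGalois K F]

theorem exists_frb (u : HeightOneSpectrum (𝓞 F)) : ∃ t : F ≃ₐ[K] F, Frb u t := by
  have hp := u.isPrime
  have hfin : Finite (𝓞 F ⧸ u.asIdeal) := Ideal.finiteQuotientOfFreeOfNeBot _ u.ne_bot
  obtain ⟨φ, hφ⟩ := IsArithFrobAt.exists_of_isInvariant (𝓞 K) (F ≃ₐ[K] F) u.asIdeal
  exact ⟨φ, fun x => hφ x⟩

/-- places, inertia, residue degree -/
theorem count (u : HeightOneSpectrum (𝓞 F)) :
    Nat.card (Ab F (lo (K := K) u)) * Nat.card (In (K := K) u) * rd K u = Nat.card (F ≃ₐ[K] F) := by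
  have hvp := u.isPrime
  have hm : (lo (K := K) u).asIdeal.IsMaximal := (lo (K := K) u).isMaximal
  have hprime : (lo (K := K) u).asIdeal.IsPrime := hm.isPrime
  have hperf : PerfectField (lo (K := K) u).asIdeal.ResidueField := by
    have hfin : Finite (lo (K := K) u).asIdeal.ResidueField := by
      have h1 : Finite (𝓞 K ⧸ (lo (K := K) u).asIdeal) :=
        Ideal.finiteQuotientOfFreeOfNeBot _ (lo (K := K) u).ne_bot
      have h2 : Function.Surjective (algebraMap (𝓞 K ⧸ (lo (K := K) u).asIdeal)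
          (lo (K := K) u).asIdeal.ResidueField) :=
        (Ideal.bijective_algebraMap_quotient_residueField _).2
      exact Finite.of_surjective _ h2
    infer_instance
  have h1 := Ideal.ncard_primesOver_mul_card_inertia_mul_finrank (G := F ≃ₐ[K] F)
    (lo (K := K) u).asIdeal u.asIdeal
  rw [ab_ncard]
  exact h1

end Pool.Agent.T9h30.BT
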