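import Pool.Agent.K4H55.CX.Ab

/-!
# Products over the characters of a finite commutative group
-/

set_option autoImplicit false
set_option linter.unusedSectionVars false

namespace Pool.Agent.T9h30.BT

open Pool.Agent.K4H55.CX (prod_grp)

section
variable {G : Type} [CommGroup G] [Finite G]

lemma exp_ne (G : Type) [CommGroup G] [Finite G] : NeZero (Monoid.exponent G) :=
  ⟨Monoid.exponent_ne_zero_of_finite⟩

lemma fin_dual (G : Type) [CommGroup G] [Finite G] : Finite (G →* ℂˣ) := by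
  have h0 := exp_ne G
  refine Nat.finite_of_card_ne_zero ?_
  rw [CommGroup.card_monoidHom_of_hasEnoughRootsOfUnity]
  exact Nat.card_pos.ne'

/-- the characters which are trivial on `I`, evaluated at `t` -/
theorem prod_dual (I : Subgroup G) (t : G) {f r : ℕ} (hf : 0 < f) (ht : ∀ j, t ^ j ∈ I ↔ f ∣ j)
    (hr : r * Nat.card I * f = Nat.card G) {m : ℕ} (a : Fin m → ℂ) :
    ∏ᶠ ψ : {ψ : G →* ℂˣ // ∀ i ∈ I, ψ i = 1}, ∏ i, (1 - a i * ((ψ.1 t : ℂˣ) : ℂ)) =
      (∏ i, (1 - a i ^ f)) ^ r := by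
  classical
  have h0 := exp_ne G
  have hfin := fin_dual G
  set A : Subgroup (G →* ℂˣ) := (MonoidHom.domRestrictHom I ℂˣ).ker with hA
  have hmem : ∀ ψ : G →* ℂˣ, ψ ∈ A ↔ ∀ i ∈ I, ψ i = 1 := by
    intro ψ
    rw [hA, MonoidHom.mem_ker]
    constructor
    · intro h i hi
      exact DFunLike.congr_fun h ⟨i, hi⟩
    · intro h
      ext i
      exact congrArg Units.val (h i.1 i.2)
  have hcard : Nat.card A * Nat.card I = Nat.card G := by
    have h1 := CommGroup.card_domRestrictHom_ker ℂ I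
    rw [hA, h1]
    exact (Subgroup.card_eq_card_quotient_mul_card_subgroup I).symm
  -- evaluation
  let e' : A →* ℂˣ :=
    { toFun := fun ψ => ψ.1 t
      map_one' := rfl
      map_mul' := fun _ _ => rfl }
  let e : A →* ℂ := (Units.coeHom ℂ).comp e'
  let _ : Fintype A := Fintype.ofFinite A
  obtain ⟨r', h1, h2, h3⟩ := prod_grp e
  -- the size of the range
  have hrange : Nat.card (Set.range e) = Nat.card e'.range := by
    refine Nat.card_congr ⟨fun z => ⟨e' z.2.choose, ⟨_, rfl⟩⟩, fun z => ⟨z.1, ?_⟩, ?_, ?_⟩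
    · obtain ⟨ψ, hψ⟩ := z.2
      exact ⟨ψ, congrArg Units.val hψ⟩
    · intro z
      exact Subtype.ext z.2.choose_spec
    · intro z
      apply Subtype.ext
      apply Units.ext
      have hz : (z.1 : ℂ) ∈ Set.range e := by
        obtain ⟨ψ, hψ⟩ := z.2
        exact ⟨ψ, congrArg Units.val hψ⟩
      exact hz.choose_spec
  have hn : Nat.card (Set.range e) = f := by
    refine Nat.dvd_antisymm ?_ ?_
    · -- the range consists of roots of unity of order `f`
      rw [hrange]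
      have h4 : e'.range ≤ rootsOfUnity f ℂ := by
        rintro _ ⟨ψ, rfl⟩
        rw [mem_rootsOfUnity]
        show (ψ.1 t) ^ f = 1
        rw [← map_pow]
        exact (hmem ψ.1).1 ψ.2 _ ((ht f).2 dvd_rfl)
      have h5 := Subgroup.card_dvd_of_le h4
      have hne : NeZero f := ⟨hf.ne'⟩
      rwa [Complex.card_rootsOfUnity f] at h5
    · rw [← ht, ← CommGroup.forall_monoidHom_apply_eq_one_iff (M := ℂ), hrange]
      intro φ hφ
      rw [map_pow]
      have h4 : e' ⟨φ, (hmem φ).2 hφ⟩ ∈ e'.range := ⟨_, rfl⟩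
      have h5 : (⟨e' ⟨φ, (hmem φ).2 hφ⟩, h4⟩ : e'.range) ^ Nat.card e'.range = 1 := pow_card_eq_one'
      exact congrArg Subtype.val h5
  rw [hn] at h1 h3
  have hrr : r' = r := by
    have h4 : r' * f * Nat.card I = r * f * Nat.card I := by
      rw [h1, hcard, ← hr]
      ring
    exact Nat.eq_of_mul_eq_mul_right hf (Nat.eq_of_mul_eq_mul_right Nat.card_pos h4)
  subst hrr
  let E : {ψ : G →* ℂˣ // ∀ i ∈ I, ψ i = 1} ≃ A := Equiv.subtypeEquivRight fun ψ => (hmem ψ).symm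
  have h4 : ∏ᶠ ψ : {ψ : G →* ℂˣ // ∀ i ∈ I, ψ i = 1}, ∏ i, (1 - a i * ((ψ.1 t : ℂˣ) : ℂ)) =
      ∏ᶠ ψ : A, ∏ i, (1 - a i * e ψ) := by
    refine finprod_eq_of_bijective E E.bijective fun ψ => ?_
    rfl
  rw [h4, finprod_eq_prod_of_fintype, Finset.prod_comm, ← Finset.prod_pow]
  exact Finset.prod_congr rfl fun i _ => h3 (a i)

end

/-- the same for a commutative group -/
theorem prod_dual' {G : Type} [Group G] [Finite G] (hc : ∀ s t : G, s * t = t * s)
    (I : Subgroup G) (t : G) {f r : ℕ} (hf : 0 < f) (ht : ∀ j, t ^ j ∈ I ↔ f ∣ j)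
    (hr : r * Nat.card I * f = Nat.card G) {m : ℕ} (a : Fin m → ℂ) :
    ∏ᶠ ψ : {ψ : G →* ℂˣ // ∀ i ∈ I, ψ i = 1}, ∏ i, (1 - a i * ((ψ.1 t : ℂˣ) : ℂ)) =
      (∏ i, (1 - a i ^ f)) ^ r := by
  let _ : CommGroup G := { (inferInstance : Group G) with mul_comm := hc }
  exact prod_dual I t hf ht hr a

end Pool.Agent.T9h30.BT
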