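import Pool.Agent.T9h30.BT.Sum

/-!
# The sums over residues agree on finite sets, up to units, with combinations of characters
-/

set_option autoImplicit false
set_option linter.unusedSectionVars false

namespace Pool.Agent.T9h30.BT

open NumberField IsDedekindDomain Finset
open Pool.Agent.K4H55.BI (gen gen_dvd gen_prime gen_na gen_inj Prd CRS CRS.sum_unit CRS.sum_prod
  CRS.sum_mul rs rs_CRS md Fam fam_of fv fv_periodic MG prime_coprime md_coprime dvd_md VV VV_fg)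
open Pool.Agent.Y18.LP (Comb Good Mult Zr Zr_fg Zr_one Zr_Mult finite_Mult mul_Mult mul_Mult'
  prod_Mult prod_mem' fg_prod incl incl_coe comap_maximal one_sub_mem span_fg)

variable {K : Type} [Field K] [NumberField K]

open Classical in
/-- the support of a family -/
noncomputable def sp (c : Fk K) : Finset (HeightOneSpectrum (𝓞 K)) :=
  if h : {v | c v ≠ 1}.Finite then h.toFinset else ∅

lemma mem_sp {c : Fk K} (h : {v | c v ≠ 1}.Finite) (v : HeightOneSpectrum (𝓞 K)) :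
    v ∈ sp c ↔ c v ≠ 1 := by
  unfold sp
  rw [dif_pos h, Set.Finite.mem_toFinset]
  rfl

lemma sp_one : sp (1 : Fk K) = ∅ := by
  have h : {v : HeightOneSpectrum (𝓞 K) | (1 : Fk K) v ≠ 1}.Finite := by simp
  ext v
  rw [mem_sp h]
  simp

lemma fin_inv {c : Fk K} (h : {v | c v ≠ 1}.Finite) : {v | c⁻¹ v ≠ 1}.Finite := by
  have : {v | c⁻¹ v ≠ 1} = {v | c v ≠ 1} := by
    ext v
    simp
  rw [this]
  exact h

lemma sp_inv {c : Fk K} (h : {v | c v ≠ 1}.Finite) : sp c⁻¹ = sp c := by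
  ext v
  rw [mem_sp (fin_inv h), mem_sp h]
  simp

/-- conditions on a group of families -/
structure Ok (H : Subgroup (Fk K)) (e : ℕ) (A : Set (HeightOneSpectrum (𝓞 K))) : Prop where
  pow : ∀ c ∈ H, c ^ e = 1
  fin : ∀ c ∈ H, {v | c v ≠ 1}.Finite
  adm : ∀ c ∈ H, ∀ v, c v ≠ 1 → v ∈ A

variable [IsPrincipalIdealRing (𝓞 K)] [DecidableEq (𝓞 K)]
  {D : Pool.Agent.K4H55.BI.Ord (𝓞 K)} {n : 𝓞 K} {a : 𝓞 K → ℂ} {C : ℝ} {w : ℂ}
  {M : Submodule ℤ ℂ}

/-- the value -/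
noncomputable def bt (D : Pool.Agent.K4H55.BI.Ord (𝓞 K)) (f : ℂ → ℂ) (c : Fk K) : ℂ :=
  Z D f c (sp c)

lemma fam_im {S : Finset (HeightOneSpectrum (𝓞 K))} (h : ∀ v ∈ S, (2 : 𝓞 K) ∉ v.asIdeal) :
    Fam (S.image gen) := fam_of (A := {v | (2 : 𝓞 K) ∉ v.asIdeal}) (fun v hv => hv) h

lemma cop_im {S : Finset (HeightOneSpectrum (𝓞 K))}
    (h : ∀ v ∈ S, (2 : 𝓞 K) ∉ v.asIdeal ∧ n ∉ v.asIdeal) (D : Pool.Agent.K4H55.BI.Ord (𝓞 K)) :
    IsCoprime (md (S.image gen)) n :=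
  md_coprime D (fam_im fun v hv => (h v hv).1) fun p hp hd => by
    obtain ⟨v, hv, rfl⟩ := Finset.mem_image.1 hp
    exact (h v hv).2 (gen_dvd.1 hd)

lemma val_mem {R : Subring ℂ} {S : Finset (HeightOneSpectrum (𝓞 K))}
    (h : ∀ v ∈ S, (2 : 𝓞 K) ∉ v.asIdeal ∧ n ∉ v.asIdeal) (x : 𝓞 K) :
    fv D a (D.ι x / D.ι (md (S.image gen))) ∈ Submodule.span R (VV D n a) :=
  Submodule.subset_span ⟨x, md (S.image gen), (fam_im fun v hv => (h v hv).1).md_ne,
    cop_im h D, rfl⟩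

lemma Z_mem {R : Subring ℂ} {e : ℕ} (hR : ∀ z : ℂ, z ^ e = 1 → z ∈ R) {c : Fk K} (hc : c ^ e = 1)
    {S : Finset (HeightOneSpectrum (𝓞 K))}
    (h : ∀ v ∈ S, (2 : 𝓞 K) ∉ v.asIdeal ∧ n ∉ v.asIdeal) :
    Z D (fv D a) c S ∈ Submodule.span R (VV D n a) := by
  unfold Z
  refine Submodule.sum_mem _ fun x _ => ?_
  by_cases hx : ∀ v ∈ S, x ∉ v.asIdeal
  · exact (Submodule.span R (VV D n a)).smul_mem (⟨X S c x, hR _ (X_pow hc hx)⟩ : R) (val_mem h x)
  · rw [X_zero hx, zero_mul]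
    exact Submodule.zero_mem _

/-- the sum for a fixed modulus is a combination of characters -/
lemma Z_comb {R : Subring ℂ} {e : ℕ} {H : Subgroup (Fk K)} (hH : ∀ c ∈ H, c ^ e = 1)
    {S : Finset (HeightOneSpectrum (𝓞 K))}
    (h : ∀ v ∈ S, (2 : 𝓞 K) ∉ v.asIdeal ∧ n ∉ v.asIdeal) :
    (fun c : H => Z D (fv D a) (c : Fk K) S) ∈ Comb H e (Submodule.span R (VV D n a)) := by
  classical
  have h1 : (fun c : H => Z D (fv D a) (c : Fk K) S) =
      ∑ x ∈ rs D (md (S.image gen)), fun c : H =>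
        X S (c : Fk K) x * fv D a (D.ι x / D.ι (md (S.image gen))) := by
    funext c
    rw [Finset.sum_apply]
    rfl
  rw [h1]
  refine AddSubgroup.sum_mem _ fun x _ => ?_
  by_cases hx : ∀ v ∈ S, x ∉ v.asIdeal
  · let E : H →* ℂ :=
      { toFun := fun c => X S (c : Fk K) x
        map_one' := by rw [Subgroup.coe_one]; exact X_one_c hx
        map_mul' := fun c c' => by rw [Subgroup.coe_mul]; exact X_cc S _ _ x }
    have h5 := Comb.gen (Γ := H) (e := e) (val_mem (R := R) (D := D) (a := a) h x) E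
      fun c => X_pow (hH c c.2) hx
    have h6 : (fun c : H => X S (c : Fk K) x * fv D a (D.ι x / D.ι (md (S.image gen)))) =
        fun c : H => fv D a (D.ι x / D.ι (md (S.image gen))) * E c := by
      funext c
      exact mul_comm _ _
    rw [h6]
    exact h5
  · have : (fun c : H => X S (c : Fk K) x * fv D a (D.ι x / D.ι (md (S.image gen)))) = 0 := by
      funext c
      rw [X_zero hx, zero_mul]
      rfl
    rw [this]
    exact AddSubgroup.zero_mem _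

theorem good (hMG : MG D n a C w M) {R : Subring ℂ} {e : ℕ}
    (hR : ∀ z : ℂ, z ^ e = 1 → z ∈ R) (al : HeightOneSpectrum (𝓞 K) → R) {P : Ideal R}
    (hP : P.IsPrime) (hP1 : ∀ z : R, (z : ℂ) ^ e = 1 → 1 - z ∈ P) {H : Subgroup (Fk K)}
    {A : Set (HeightOneSpectrum (𝓞 K))} (hH : Ok H e A)
    (hA : ∀ v ∈ A, ((2 : 𝓞 K) ∉ v.asIdeal ∧ n ∉ v.asIdeal) ∧ (al v : ℂ) = a (gen v) ∧
      al v - 2 ∉ P) :
    Good e P (Submodule.span R (VV D n a)) (fun c : H => bt D (fv D a) c) := by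
  classical
  have hsp : ∀ c : H, ∀ v ∈ sp (c : Fk K), v ∈ A := fun c v hv =>
    hH.adm c c.2 v ((mem_sp (hH.fin c c.2) v).1 hv)
  refine ⟨fun c => Z_mem hR (hH.pow c c.2) fun v hv => (hA v (hsp c v hv)).1, ?_⟩
  have hprod : ∀ S : Finset (HeightOneSpectrum (𝓞 K)), (∀ v ∈ S, v ∈ A) →
      ∏ v ∈ S, (al v - 2) ∉ P := by
    intro S hS h
    obtain ⟨v, hv, h1⟩ := (hP.prod_mem_iff).1 h
    exact (hA v (hS v hv)).2.2 h1
  refine ⟨fun c => ∏ v ∈ sp (c : Fk K), (al v - 2), fun c => hprod _ (hsp c), fun Q => ?_⟩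
  set S : Finset (HeightOneSpectrum (𝓞 K)) := Q.biUnion (fun c => sp (c : Fk K)) with hS
  have hSA : ∀ v ∈ S, v ∈ A := by
    intro v hv
    obtain ⟨c, _, h1⟩ := Finset.mem_biUnion.1 hv
    exact hsp c v h1
  refine ⟨_, Z_comb (R := R) (D := D) (a := a) hH.pow (S := S) (fun v hv => (hA v (hSA v hv)).1),
    ∏ v ∈ S, (al v - 2), hprod S hSA, ?_⟩
  intro c hc
  have hsub : sp (c : Fk K) ⊆ S := Finset.subset_biUnion_of_mem (fun c : H => sp (c : Fk K)) hc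
  obtain ⟨x, hx, h1⟩ := Z_prod hMG (hH.pow c c.2) (T := sp (c : Fk K)) (S \ sp (c : Fk K))
    Finset.sdiff_disjoint (by
      rw [Finset.sdiff_union_of_subset hsub]
      exact fun v hv => (hA v (hSA v hv)).1) (fun v hv => by
        by_contra h1
        exact (Finset.mem_sdiff.1 hv).2 ((mem_sp (hH.fin c c.2) v).2 h1))
  rw [Finset.sdiff_union_of_subset hsub] at h1
  have hx2 : ∀ v, (x v)⁻¹ ^ e = 1 := fun v => by rw [inv_pow, hx, inv_one]
  refine ⟨∏ v ∈ S \ sp (c : Fk K), (al v - ⟨x v, hR _ (hx v)⟩ - ⟨(x v)⁻¹, hR _ (hx2 v)⟩), ?_, ?_⟩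
  · rw [← Ideal.Quotient.eq_zero_iff_mem, map_sub, map_mul, sub_eq_zero, map_prod, map_prod,
      map_prod]
    have h2 : ∏ v ∈ S \ sp (c : Fk K), Ideal.Quotient.mk P (al v - ⟨x v, hR _ (hx v)⟩ -
          ⟨(x v)⁻¹, hR _ (hx2 v)⟩) =
        ∏ v ∈ S \ sp (c : Fk K), Ideal.Quotient.mk P (al v - 2) := by
      refine Finset.prod_congr rfl fun v _ => ?_
      rw [← sub_eq_zero, ← map_sub, Ideal.Quotient.eq_zero_iff_mem]
      have h3 : al v - ⟨x v, hR _ (hx v)⟩ - ⟨(x v)⁻¹, hR _ (hx2 v)⟩ - (al v - 2) =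
          (1 - ⟨x v, hR _ (hx v)⟩) + (1 - ⟨(x v)⁻¹, hR _ (hx2 v)⟩ : R) := by ring
      rw [h3]
      exact P.add_mem (hP1 _ (hx v)) (hP1 _ (hx2 v))
    rw [h2, Finset.prod_sdiff hsub]
  · show Z D (fv D a) (c : Fk K) S = _
    rw [h1, Subring.smul_def, smul_eq_mul]
    show _ = _ * Z D (fv D a) (c : Fk K) (sp (c : Fk K))
    congr 1
    rw [← Subring.subtype_apply, map_prod]
    refine Finset.prod_congr rfl fun v hv => ?_
    rw [map_sub, map_sub]
    simp only [Subring.subtype_apply]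
    rw [(hA v (hSA v (Finset.sdiff_subset hv))).2.1]

lemma rs_one (D : Pool.Agent.K4H55.BI.Ord (𝓞 K)) {f : ℂ → ℂ}
    (hf : ∀ (z : ℂ) (y : 𝓞 K), f (z + D.ι y) = f z) :
    ∑ x ∈ rs D (1 : 𝓞 K), f (D.ι x / D.ι 1) = f 0 := by
  have h1 := Pool.Agent.K4H55.BK.bt_empty (D := D) f hf
  rw [← h1]
  unfold Pool.Agent.K4H55.BI.bt
  have h2 : md (∅ : Finset (𝓞 K)) = 1 := by unfold md; simp
  rw [h2]
  refine Finset.sum_congr rfl fun x _ => ?_
  have h5 : Pool.Agent.K4H55.BI.chi (∅ : Finset (𝓞 K)) x = 1 := by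
    unfold Pool.Agent.K4H55.BI.chi; simp
  rw [h5, one_mul]

lemma bt_one : bt D (fv D a) (1 : Fk K) = fv D a 0 := by
  unfold bt Z
  rw [sp_one]
  have h2 : md ((∅ : Finset (HeightOneSpectrum (𝓞 K))).image gen) = 1 := by unfold md; simp
  rw [h2]
  rw [← rs_one D (f := fv D a) (fun z y => fv_periodic D a z y)]
  refine Finset.sum_congr rfl fun x _ => ?_
  have h3 : X (∅ : Finset (HeightOneSpectrum (𝓞 K))) 1 x = 1 := by unfold X; simp
  rw [h3, one_mul]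

section setup

variable {J : Type} [Fintype J] {n : J → 𝓞 K} {a : J → 𝓞 K → ℂ} {C : J → ℝ} {w : J → ℂ}
  {M : J → Submodule ℤ ℂ}

/-- the admissible places -/
def Ad (n : J → 𝓞 K) (a : J → 𝓞 K → ℂ) (lam : Ideal (integralClosure ℤ ℂ)) :
    Set (HeightOneSpectrum (𝓞 K)) :=
  {v | (2 : 𝓞 K) ∉ v.asIdeal ∧ ∀ i, n i ∉ v.asIdeal ∧ ∀ x ∈ lam, (x : ℂ) ≠ a i (gen v) - 2}

/-- the ring and the ideal -/
theorem setup (hMG : ∀ i, MG D (n i) (a i) (C i) (w i) (M i)) (h0 : ∀ i, fv D (a i) 0 ≠ 0)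
    (N : ℕ) (lam : Ideal (integralClosure ℤ ℂ)) (hlam : lam.IsPrime)
    (hmem : (2 : integralClosure ℤ ℂ) ∈ lam) :
    ∃ (R : Subring ℂ) (_ : IsNoetherianRing R) (P : Ideal R)
      (al : J → HeightOneSpectrum (𝓞 K) → R), P.IsMaximal ∧
      (∀ z : ℂ, z ^ (2 ^ N) = 1 → z ∈ R) ∧ (∀ z : R, (z : ℂ) ^ (2 ^ N) = 1 → 1 - z ∈ P) ∧
      ∀ i, ∀ v ∈ Ad n a lam, ((2 : 𝓞 K) ∉ v.asIdeal ∧ n i ∉ v.asIdeal) ∧
        (al i v : ℂ) = a i (gen v) ∧ al i v - 2 ∉ P := by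
  classical
  have he : 0 < 2 ^ N := pow_pos (by norm_num) N
  let W1 : Submodule ℤ ℂ := (∏ i, Submodule.span ℤ (VV D (n i) (a i))) * Zr (2 ^ N)
  have hfg : W1.FG := (fg_prod univ _ fun i _ => VV_fg (hMG i)).mul (Zr_fg he)
  have hfin : Module.Finite ℤ W1 := Module.Finite.iff_fg.2 hfg
  have hz : ∀ i, fv D (a i) 0 ∈ VV D (n i) (a i) := fun i =>
    ⟨0, 1, one_ne_zero, isCoprime_one_left, by rw [map_zero, zero_div]⟩
  have hw : (∏ i, fv D (a i) 0) * 1 ∈ W1 := Submodule.mul_mem_mul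
    (prod_mem' univ _ _ fun i _ => Submodule.subset_span (hz i)) (Zr_one _)
  have hw0 : (∏ i, fv D (a i) 0) * 1 ≠ 0 := by
    rw [mul_one]
    exact Finset.prod_ne_zero_iff.2 fun i _ => h0 i
  let R : Subring ℂ := Mult W1
  have hRfin : Module.Finite ℤ R := finite_Mult hw hw0
  have hnoeth : IsNoetherianRing R := IsNoetherianRing.of_finite ℤ R
  have hRroot : ∀ z : ℂ, z ^ (2 ^ N) = 1 → z ∈ R := fun z hz => mul_Mult' (Zr_Mult hz)
  have haR : ∀ i, ∀ v : HeightOneSpectrum (𝓞 K), n i ∉ v.asIdeal → a i (gen v) ∈ R := by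
    intro i v hvn
    have hq : Prime (gen v) := gen_prime v
    have hqN : ¬ gen v ∣ n i := fun hd => hvn (gen_dvd.1 hd)
    refine mul_Mult (prod_Mult univ _ (Finset.mem_univ i) ?_)
    intro w hw
    induction hw using Submodule.span_induction with
    | mem x hx =>
      obtain ⟨x, m, hm, hmn, rfl⟩ := hx
      rw [(hMG i).hecke hq hqN (rs_CRS D hq.ne_zero) hm hmn]
      have hιq : D.ι (gen v) ≠ 0 := fun h => hq.ne_zero (D.inj (by rw [h, map_zero]))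
      have hιm : D.ι m ≠ 0 := fun h => hm (D.inj (by rw [h, map_zero]))
      refine Submodule.add_mem _ (Submodule.subset_span ⟨gen v * x, m, hm, hmn, ?_⟩)
        (Submodule.sum_mem _ fun b _ => Submodule.subset_span ⟨x + m * b, m * gen v,
          mul_ne_zero hm hq.ne_zero, hmn.mul_left (prime_coprime D hq hqN), ?_⟩)
      · congr 1
        rw [map_mul]
        ring
      · congr 1
        rw [map_add, map_mul, map_mul]
        field_simp
    | zero => rw [mul_zero]; exact Submodule.zero_mem _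
    | add x y _ _ h1 h2 => rw [mul_add]; exact Submodule.add_mem _ h1 h2
    | smul a x _ h => rw [mul_smul_comm]; exact Submodule.smul_mem _ _ h
  have hmem' : ((2 : ℕ) : integralClosure ℤ ℂ) ∈ lam := by exact_mod_cast hmem
  let P : Ideal R := lam.comap (incl hRfin)
  refine ⟨R, hnoeth, P, fun i v => if h : a i (gen v) ∈ R then ⟨a i (gen v), h⟩ else 0,
    comap_maximal lam hRfin hlam Nat.prime_two hmem', hRroot, ?_, ?_⟩
  · intro z hz
    rw [Ideal.mem_comap, map_sub, map_one]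
    refine one_sub_mem lam hlam Nat.prime_two hmem' (n := N) _ ?_
    apply Subtype.ext
    have h1 : ((incl hRfin z ^ (2 ^ N) : integralClosure ℤ ℂ) : ℂ) =
        ((incl hRfin z : integralClosure ℤ ℂ) : ℂ) ^ (2 ^ N) := rfl
    rw [h1, incl_coe, hz]
    rfl
  · rintro i v ⟨hv2, hvA⟩
    obtain ⟨h1, h2⟩ := hvA i
    have h3 := haR i v h1
    refine ⟨⟨hv2, h1⟩, ?_, ?_⟩
    · simp only [dif_pos h3]
    · simp only [dif_pos h3]
      intro h4
      rw [Ideal.mem_comap] at h4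
      refine h2 _ h4 ?_
      rw [incl_coe]
      rfl

/-- **Corrections of tuples of families**, uniformly in the group. -/
theorem eng (hMG : ∀ i, MG D (n i) (a i) (C i) (w i) (M i)) (h0 : ∀ i, fv D (a i) 0 ≠ 0)
    (N r : ℕ) (lam : Ideal (integralClosure ℤ ℂ)) (hlam : lam.IsPrime)
    (hmem : (2 : integralClosure ℤ ℂ) ∈ lam) :
    ∃ V : ℕ, ∀ H : Subgroup (Fk K), Ok H (2 ^ N) (Ad n a lam) →
      ∃ K₀ : Finset (Fin r → Fk K), K₀.card ≤ 2 ^ V ∧ (∀ k ∈ K₀, ∀ l, k l ∈ H) ∧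
        ∀ x : Fin r → Fk K, (∀ l, x l ∈ H) → ∃ k ∈ K₀,
          ∀ g ∈ Subgroup.closure (Set.range (x * k)), ∀ i, bt D (fv D (a i)) g ≠ 0 := by
  obtain ⟨R, hR0, P, al, hP, hR, hP1, hA⟩ := setup hMG h0 N lam hlam hmem
  obtain ⟨V, hV⟩ := tuples (J := J) (R := R) (P := P) (e := 2 ^ N)
    (W := fun i => Submodule.span R (VV D (n i) (a i))) (z := fun i => fv D (a i) 0) hP hR hP1
    (pow_pos (by norm_num) N) (fun i => span_fg (VV_fg (hMG i)))
    (fun i => Submodule.subset_span ⟨0, 1, one_ne_zero, isCoprime_one_left,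
      by rw [map_zero, zero_div]⟩) h0 r
  refine ⟨V, fun H hH => ?_⟩
  exact hV (Fk K) (fun i c => bt D (fv D (a i)) c) H hH.pow (fun i => bt_one)
    (fun i => good (hMG i) hR (al i) hP.isPrime hP1 hH (hA i))

/-- **Infinite groups of families.** -/
theorem eng_inf (hMG : ∀ i, MG D (n i) (a i) (C i) (w i) (M i)) (h0 : ∀ i, fv D (a i) 0 ≠ 0)
    (N : ℕ) (lam : Ideal (integralClosure ℤ ℂ)) (hlam : lam.IsPrime)
    (hmem : (2 : integralClosure ℤ ℂ) ∈ lam) (H : Subgroup (Fk K))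
    (hH : Ok H (2 ^ N) (Ad n a lam)) (hinf : (H : Set (Fk K)).Infinite)
    (F : Subgroup (Fk K)) (hFH : F ≤ H) (hFn : ∀ c ∈ F, ∀ i, bt D (fv D (a i)) c ≠ 0) :
    ∃ H0 : Subgroup (Fk K), F ≤ H0 ∧ H0 ≤ H ∧ (H0 : Set (Fk K)).Infinite ∧
      ∀ c ∈ H0, ∀ i, bt D (fv D (a i)) c ≠ 0 := by
  obtain ⟨R, hR0, P, al, hP, hR, hP1, hA⟩ := setup hMG h0 N lam hlam hmem
  exact infinite_sub (J := J) (R := R) (P := P) (e := 2 ^ N)
    (W := fun i => Submodule.span R (VV D (n i) (a i))) hP hR hP1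
    (pow_pos (by norm_num) N) (fun i => span_fg (VV_fg (hMG i)))
    (fun i c => bt D (fv D (a i)) c) H hH.pow
    (fun i => good (hMG i) hR (al i) hP.isPrime hP1 hH (hA i)) hinf F hFH hFn

end setup

end Pool.Agent.T9h30.BT
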