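import Pool.Agent.T9h30.BT.Cnt
import Pool.Agent.T9h30.BT.Dec
import Pool.Agent.T9h30.RS.Fin

/-!
# The local factors of `y² = x³ + a x + b` at the places prime to the discriminant
-/

set_option autoImplicit false
set_option linter.unusedSectionVars false

namespace Pool.Agent.T9h30.BT

open NumberField IsDedekindDomain WeierstrassCurve Pool.Agent.W189.NF Pool.Agent.Y698
open Pool.Agent.H82R3.EK (luc)

section one

variable {M : Type} [Field M] [NumberField M]

/-- the curve `y² = x³ + a x + b` -/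
def cv {R : Type} [CommRing R] (a b : R) : WeierstrassCurve R := ⟨0, 0, 0, a, b⟩

lemma cv_map {R S : Type} [CommRing R] [CommRing S] (f : R →+* S) (a b : R) :
    (cv a b).map f = cv (f a) (f b) := by
  unfold cv
  ext <;> simp

lemma cv_Δ {R : Type} [CommRing R] (a b : R) : (cv a b).Δ = -(2 ^ 3 * (2 * (4 * a ^ 3 + 27 * b ^ 2))) := by
  unfold cv WeierstrassCurve.Δ WeierstrassCurve.b₂ WeierstrassCurve.b₄ WeierstrassCurve.b₆
    WeierstrassCurve.b₈
  simp only
  ring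

lemma AP_cv {R : Type} [CommRing R] (a b : R) :
    Nat.card (AP (cv a b)) = Nat.card {x : R × R // x.2 ^ 2 = x.1 ^ 3 + a * x.1 + b} := by
  refine Nat.card_congr (Equiv.subtypeEquivRight fun x => ?_)
  rw [WeierstrassCurve.Affine.equation_iff]
  unfold cv
  simp

/-- the number of the affine points over the residue field -/
noncomputable def pp (a b : 𝓞 M) (u : HeightOneSpectrum (𝓞 M)) : ℕ :=
  Nat.card {x : (𝓞 M ⧸ u.asIdeal) × (𝓞 M ⧸ u.asIdeal) //
    x.2 ^ 2 = x.1 ^ 3 + (Ideal.Quotient.mk u.asIdeal a) * x.1 + (Ideal.Quotient.mk u.asIdeal b)}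

/-- the residue fields -/
noncomputable def resEquiv (u : HeightOneSpectrum (𝓞 M)) :
    (𝓞 M ⧸ u.asIdeal) ≃+* IsLocalRing.ResidueField (Ov u) :=
  (Ideal.quotEquivOfEq (by
    ext r
    rw [RingHom.mem_ker]
    exact (redMap_eq_zero u r).symm)).trans
    (RingHom.quotientKerEquivOfSurjective (redMap_surjective u))

lemma resEquiv_mk (u : HeightOneSpectrum (𝓞 M)) (x : 𝓞 M) :
    resEquiv u (Ideal.Quotient.mk _ x) = redMap u x := rfl

lemma unit_iff (u : HeightOneSpectrum (𝓞 M)) (r : 𝓞 M) :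
    IsUnit (algebraMap (𝓞 M) (Ov u) r) ↔ r ∉ u.asIdeal := by
  rw [← redMap_eq_zero u r]
  unfold redMap
  rw [RingHom.comp_apply, IsLocalRing.residue_eq_zero_iff, IsLocalRing.mem_maximalIdeal,
    mem_nonunits_iff, not_not]

theorem loc_int (a b : 𝓞 M) (u : HeightOneSpectrum (𝓞 M))
    (hu : 2 * (4 * a ^ 3 + 27 * b ^ 2) ∉ u.asIdeal) :
    aV (cv (a : M) (b : M)) u = (Ideal.absNorm u.asIdeal : ℤ) - pp a b u ∧
      eV (cv (a : M) (b : M)) u = Ideal.absNorm u.asIdeal := by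
  have hfin := finite_res u
  set W₀ : WeierstrassCurve (Ov u) :=
    cv (algebraMap (𝓞 M) (Ov u) a) (algebraMap (𝓞 M) (Ov u) b) with hW₀
  have h2 : (2 : 𝓞 M) ∉ u.asIdeal := fun h => hu (u.asIdeal.mul_mem_right _ h)
  have hΔ : IsUnit W₀.Δ := by
    have e : W₀.Δ = algebraMap (𝓞 M) (Ov u) (-(2 ^ 3 * (2 * (4 * a ^ 3 + 27 * b ^ 2)))) := by
      rw [hW₀, cv_Δ]
      simp only [map_neg, map_mul, map_add, map_pow, map_ofNat]
    rw [e, unit_iff, neg_mem_iff]
    intro h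
    rcases u.isPrime.mem_or_mem h with h | h
    · exact h2 (u.isPrime.mem_of_pow_mem 3 h)
    · exact hu h
  have hW : (cv (a : M) (b : M)).baseChange (u.adicCompletion M) =
      W₀.map (algebraMap (Ov u) (u.adicCompletion M)) := by
    unfold WeierstrassCurve.baseChange
    rw [hW₀, cv_map, cv_map]
    rfl
  obtain ⟨h3, h4⟩ := min_count (Ov u) hΔ hW
  have hcard : Nat.card (IsLocalRing.ResidueField (Ov u)) = Ideal.absNorm u.asIdeal :=
    card_residue u
  rw [hcard] at h3 h4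
  refine ⟨?_, h4⟩
  unfold aV
  rw [h3]
  congr 2
  rw [hW₀, cv_map, AP_cv]
  unfold pp
  symm
  refine Nat.card_congr ⟨fun x => ⟨(resEquiv u x.1.1, resEquiv u x.1.2), ?_⟩,
    fun x => ⟨((resEquiv u).symm x.1.1, (resEquiv u).symm x.1.2), ?_⟩, ?_, ?_⟩
  · have h5 := congrArg (resEquiv u) x.2
    simp only [map_add, map_mul, map_pow, resEquiv_mk] at h5
    exact h5
  · apply (resEquiv u).injective
    simp only [map_add, map_mul, map_pow, resEquiv_mk, RingEquiv.apply_symm_apply]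
    exact x.2
  · intro x
    simp
  · intro x
    simp

end one

section ext

variable {K F : Type} [Field K] [NumberField K] [Field F] [NumberField F] [Algebra K F]

/-- the number of points over an extension -/
theorem pp_ext (a b : 𝓞 K) (u : HeightOneSpectrum (𝓞 F))
    (hv : 2 * (4 * a ^ 3 + 27 * b ^ 2) ∉ (lo (K := K) u).asIdeal) :
    (Ideal.absNorm u.asIdeal : ℤ) - pp (algebraMap (𝓞 K) (𝓞 F) a) (algebraMap (𝓞 K) (𝓞 F) b) u =
      luc ((Ideal.absNorm (lo (K := K) u).asIdeal : ℤ) - pp a b (lo (K := K) u))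
        (Ideal.absNorm (lo (K := K) u).asIdeal) (rd K u) := by
  set v := lo (K := K) u with hvd
  have hm : v.asIdeal.IsMaximal := v.isMaximal
  have hm' : u.asIdeal.IsMaximal := u.isMaximal
  have hfin : Finite (𝓞 K ⧸ v.asIdeal) := Ideal.finiteQuotientOfFreeOfNeBot _ v.ne_bot
  have hfin' : Finite (𝓞 F ⧸ u.asIdeal) := Ideal.finiteQuotientOfFreeOfNeBot _ u.ne_bot
  let _ : Field (𝓞 K ⧸ v.asIdeal) := Ideal.Quotient.field _
  let _ : Field (𝓞 F ⧸ u.asIdeal) := Ideal.Quotient.field _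
  have h2 : (2 : 𝓞 K) ∉ v.asIdeal := fun h => hv (v.asIdeal.mul_mem_right _ h)
  have h2' : (2 : 𝓞 K ⧸ v.asIdeal) ≠ 0 := by
    intro h
    apply h2
    rw [← Ideal.Quotient.eq_zero_iff_mem, map_ofNat]
    exact h
  have hD : 4 * (Ideal.Quotient.mk v.asIdeal a) ^ 3 + 27 * (Ideal.Quotient.mk v.asIdeal b) ^ 2 ≠ 0 := by
    intro h
    apply hv
    apply v.asIdeal.mul_mem_left
    rw [← Ideal.Quotient.eq_zero_iff_mem]
    simp only [map_add, map_mul, map_pow, map_ofNat]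
    exact h
  have h3 := np_ext (E := 𝓞 F ⧸ u.asIdeal) h2' _ _ hD
  have h4 : Module.finrank (𝓞 K ⧸ v.asIdeal) (𝓞 F ⧸ u.asIdeal) = rd K u := by
    unfold rd
    rw [← Ideal.inertiaDeg'_eq_inertiaDeg v.asIdeal u.asIdeal, Ideal.inertiaDeg'_algebraMap]
  have h5 : ∀ x : 𝓞 K, algebraMap (𝓞 K ⧸ v.asIdeal) (𝓞 F ⧸ u.asIdeal) (Ideal.Quotient.mk _ x) =
      Ideal.Quotient.mk _ (algebraMap (𝓞 K) (𝓞 F) x) := fun x => rfl
  rw [h4, h5, h5] at h3
  exact h3

end ext

end Pool.Agent.T9h30.BT
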