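import Pool.Agent.T9h30.BT.Dual
import Pool.Agent.T9h30.BT.Loc

/-!
# The Euler factors above a place
-/

set_option autoImplicit false
set_option linter.unusedSectionVars false

namespace Pool.Agent.T9h30.BT

open NumberField IsDedekindDomain WeierstrassCurve Pool.Agent.W189.NF
open Pool.Agent.H82R3.EK (luc luc_eq)

section def1

variable {M : Type} [Field M] [NumberField M]

/-- the inverse of the Euler factor, twisted by `z` -/
noncomputable def PT (W : WeierstrassCurve M) (u : HeightOneSpectrum (𝓞 M)) (z s : ℂ) : ℂ :=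
  1 - (aV W u : ℂ) * (z * (Ideal.absNorm u.asIdeal : ℂ) ^ (-s)) +
    (eV W u : ℂ) * (z * (Ideal.absNorm u.asIdeal : ℂ) ^ (-s)) ^ 2

end def1

variable {K F : Type} [Field K] [NumberField K] [Field F] [NumberField F] [Algebra K F]

lemma cpow_pow (q f : ℕ) (s : ℂ) : ((q ^ f : ℕ) : ℂ) ^ (-s) = ((q : ℂ) ^ (-s)) ^ f := by
  induction f with
  | zero => simp
  | succ f ih => rw [pow_succ, Nat.cast_mul, Complex.natCast_mul_natCast_cpow, ih, pow_succ]

lemma bad_up {a b : 𝓞 K} {u : HeightOneSpectrum (𝓞 F)}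
    (hv : 2 * (4 * a ^ 3 + 27 * b ^ 2) ∉ (lo (K := K) u).asIdeal) :
    2 * (4 * (algebraMap (𝓞 K) (𝓞 F) a) ^ 3 + 27 * (algebraMap (𝓞 K) (𝓞 F) b) ^ 2) ∉ u.asIdeal := by
  intro h
  apply hv
  rw [mem_lo]
  have e : algebraMap (𝓞 K) (𝓞 F) (2 * (4 * a ^ 3 + 27 * b ^ 2)) =
      2 * (4 * (algebraMap (𝓞 K) (𝓞 F) a) ^ 3 + 27 * (algebraMap (𝓞 K) (𝓞 F) b) ^ 2) := by
    simp only [map_mul, map_add, map_pow, map_ofNat]
  rw [e]
  exact h

/-- the curve over `F` -/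
noncomputable abbrev cF (F : Type) [Field F] [NumberField F] [Algebra K F] (a b : 𝓞 K) :
    WeierstrassCurve F := cv (algebraMap K F (a : K)) (algebraMap K F (b : K))

lemma PT_above (a b : 𝓞 K) (u : HeightOneSpectrum (𝓞 F))
    (hv : 2 * (4 * a ^ 3 + 27 * b ^ 2) ∉ (lo (K := K) u).asIdeal) {α β : ℂ}
    (h1 : α + β = (aV (cv (a : K) (b : K)) (lo (K := K) u) : ℤ))
    (h2 : α * β = (Ideal.absNorm (lo (K := K) u).asIdeal : ℤ)) (s : ℂ) :
    PT (cF F a b) u 1 s =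
      (1 - (α * (Ideal.absNorm (lo (K := K) u).asIdeal : ℂ) ^ (-s)) ^ rd K u) *
      (1 - (β * (Ideal.absNorm (lo (K := K) u).asIdeal : ℂ) ^ (-s)) ^ rd K u) := by
  have hF := loc_int (algebraMap (𝓞 K) (𝓞 F) a) (algebraMap (𝓞 K) (𝓞 F) b) u (bad_up hv)
  have hK := loc_int a b (lo (K := K) u) hv
  have h3 := pp_ext (F := F) a b u hv
  have e1 : cF F a b = cv ((algebraMap (𝓞 K) (𝓞 F) a : 𝓞 F) : F) ((algebraMap (𝓞 K) (𝓞 F) b : 𝓞 F) : F) := rfl
  rw [← hK.1] at h3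
  unfold PT
  rw [e1, hF.1, hF.2, h3, luc_eq h1 h2, one_mul, nrm_eq (K := K) u, cpow_pow]
  set q := Ideal.absNorm (lo (K := K) u).asIdeal with hq
  rw [mul_pow, mul_pow]
  have h4 : (((q ^ rd K u : ℕ) : ℤ) : ℂ) = α ^ rd K u * β ^ rd K u := by
    rw [← mul_pow, h2]
    push_cast
    rfl
  rw [h4]
  ring

variable [IsGalois K F]

lemma rd_eq {u u' : HeightOneSpectrum (𝓞 F)} (h : lo (K := K) u = lo (K := K) u') :
    rd K u = rd K u' := by
  have hm : (lo (K := K) u).asIdeal.IsMaximal := (lo (K := K) u).isMaximal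
  have hp := u.isPrime
  have hp' := u'.isPrime
  have hl : u'.asIdeal.LiesOver (lo (K := K) u).asIdeal := by
    rw [h]
    infer_instance
  exact Ideal.inertiaDeg_eq_of_isGaloisGroup (lo (K := K) u).asIdeal u.asIdeal u'.asIdeal (F ≃ₐ[K] F)

theorem above (hc : ∀ s t : F ≃ₐ[K] F, s * t = t * s) (a b : 𝓞 K)
    {v : HeightOneSpectrum (𝓞 K)} (hv : 2 * (4 * a ^ 3 + 27 * b ^ 2) ∉ v.asIdeal) (u₀ : Ab F v)
    {t : F ≃ₐ[K] F} (ht : Frb u₀.1 t) (s : ℂ) :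
    ∏ᶠ u : Ab F v, PT (cF F a b) u.1 1 s =
      ∏ᶠ ψ : {ψ : (F ≃ₐ[K] F) →* ℂˣ // ∀ i ∈ In (K := K) u₀.1, ψ i = 1},
        PT (cv (a : K) (b : K)) v ((ψ.1 t : ℂˣ) : ℂ) s := by
  classical
  obtain ⟨u₀, rfl⟩ := u₀
  simp only at ht ⊢
  set v := lo (K := K) u₀ with hvd
  have hK := loc_int a b v hv
  obtain ⟨α, β, h1, h2⟩ := Pool.Agent.K4H55.CX.exists_ab
    ((aV (cv (a : K) (b : K)) v : ℤ) : ℂ) ((Ideal.absNorm v.asIdeal : ℤ) : ℂ)
  have hcount := count (K := K) u₀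
  have hAb : Nat.card (Ab F v) ≠ 0 := by
    intro h0
    rw [← hvd, h0, zero_mul, zero_mul] at hcount
    exact Nat.card_pos.ne' hcount.symm
  have hfin : Finite (Ab F v) := Nat.finite_of_card_ne_zero hAb
  let _ : Fintype (Ab F v) := Fintype.ofFinite _
  have h3 := prod_dual' hc (In (K := K) u₀) t (rd_pos (K := K) u₀) (frb_ord ht) hcount
    ![α * (Ideal.absNorm v.asIdeal : ℂ) ^ (-s), β * (Ideal.absNorm v.asIdeal : ℂ) ^ (-s)]
  have h4 : ∀ u : Ab F v, PT (cF F a b) u.1 1 s =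
      ∏ i : Fin 2, (1 - ![α * (Ideal.absNorm v.asIdeal : ℂ) ^ (-s),
        β * (Ideal.absNorm v.asIdeal : ℂ) ^ (-s)] i ^ rd K u₀) := by
    rintro ⟨u, hu⟩
    rw [Fin.prod_univ_two]
    simp only [Matrix.cons_val_zero, Matrix.cons_val_one]
    rw [PT_above a b u (by rw [hu]; exact hv) (α := α) (β := β) (by rw [hu]; exact h1)
      (by rw [hu]; exact h2), hu, rd_eq (show lo (K := K) u = lo (K := K) u₀ from hu)]
  rw [finprod_eq_prod_of_fintype, Finset.prod_congr rfl fun u _ => h4 u, Finset.prod_const,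
    Finset.card_univ, ← Nat.card_eq_fintype_card, ← h3]
  refine finprod_congr fun ψ => ?_
  rw [Fin.prod_univ_two]
  simp only [Matrix.cons_val_zero, Matrix.cons_val_one]
  unfold PT
  rw [hK.2, ← h1]
  have h5 : (((Ideal.absNorm v.asIdeal : ℕ) : ℤ) : ℂ) = α * β := h2.symm
  rw [h5]
  ring

end Pool.Agent.T9h30.BT
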