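import Pool.Agent.T9h30.BT.Qi

/-!
# The symbol of Jacobi in the ring of integers
-/

set_option autoImplicit false
set_option linter.unusedSectionVars false

namespace Pool.Agent.T9h30.BT

open NumberField IsDedekindDomain UniqueFactorizationMonoid

variable {K : Type} [Field K] [NumberField K]

/-- the symbol of Jacobi -/
noncomputable def JJ (x : 𝓞 K) (I : Ideal (𝓞 K)) : ℤ :=
  ((normalizedFactors I).map fun P => qi P x).prod

lemma nf_place {I P : Ideal (𝓞 K)} (h : P ∈ normalizedFactors I) :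
    ∃ v : HeightOneSpectrum (𝓞 K), v.asIdeal = P ∧ I ≤ v.asIdeal := by
  have h1 := prime_of_normalized_factor P h
  refine ⟨⟨P, Ideal.isPrime_of_prime h1, h1.ne_zero⟩, rfl, ?_⟩
  exact Ideal.le_of_dvd (dvd_of_mem_normalizedFactors h)

lemma JJ_mul_right {I J : Ideal (𝓞 K)} (hI : I ≠ ⊥) (hJ : J ≠ ⊥) (x : 𝓞 K) :
    JJ x (I * J) = JJ x I * JJ x J := by
  unfold JJ
  rw [normalizedFactors_mul hI hJ, Multiset.map_add, Multiset.prod_add]

lemma JJ_place (x : 𝓞 K) (v : HeightOneSpectrum (𝓞 K)) : JJ x v.asIdeal = qi v.asIdeal x := by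
  unfold JJ
  rw [normalizedFactors_irreducible v.irreducible, normalize_eq, Multiset.map_singleton,
    Multiset.prod_singleton]

lemma JJ_top (x : 𝓞 K) : JJ x ⊤ = 1 := by
  unfold JJ
  rw [← Ideal.one_eq_top, normalizedFactors_one, Multiset.map_zero, Multiset.prod_zero]

lemma JJ_mul (I : Ideal (𝓞 K)) (x y : 𝓞 K) : JJ (x * y) I = JJ x I * JJ y I := by
  unfold JJ
  rw [← Multiset.prod_map_mul]
  congr 1
  refine Multiset.map_congr rfl fun P hP => ?_
  obtain ⟨v, rfl, -⟩ := nf_place hP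
  exact qi_mul v x y

lemma JJ_congr {I : Ideal (𝓞 K)} {x y : 𝓞 K} (h : x - y ∈ I) : JJ x I = JJ y I := by
  unfold JJ
  congr 1
  refine Multiset.map_congr rfl fun P hP => ?_
  obtain ⟨v, rfl, hv⟩ := nf_place hP
  exact qi_congr (hv h)

lemma JJ_ne {I : Ideal (𝓞 K)} {x : 𝓞 K}
    (h : ∀ v : HeightOneSpectrum (𝓞 K), I ≤ v.asIdeal → x ∉ v.asIdeal) : JJ x I * JJ x I = 1 := by
  rw [← JJ_mul]
  unfold JJ
  refine Multiset.prod_eq_one fun z hz => ?_
  obtain ⟨P, hP, rfl⟩ := Multiset.mem_map.1 hz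
  obtain ⟨v, rfl, hv⟩ := nf_place hP
  rw [qi_mul]
  exact qi_sq (h v hv)

/-- the symbol of a rational integer -/
theorem JJ_int {I : Ideal (𝓞 K)} (hI : I ≠ ⊥)
    (ho : ∀ v : HeightOneSpectrum (𝓞 K), I ≤ v.asIdeal → (2 : 𝓞 K) ∉ v.asIdeal) (r : ℤ) :
    JJ (r : 𝓞 K) I = jacobiSym r (Ideal.absNorm I) := by
  have key : ∀ s : Multiset (Ideal (𝓞 K)), (∀ P ∈ s, ∃ v : HeightOneSpectrum (𝓞 K),
      v.asIdeal = P ∧ (2 : 𝓞 K) ∉ v.asIdeal) →
      (s.map fun P => qi P (r : 𝓞 K)).prod = jacobiSym r (Ideal.absNorm s.prod) ∧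
        Ideal.absNorm s.prod ≠ 0 := by
    intro s
    induction s using Multiset.induction_on with
    | empty =>
      intro _
      rw [Multiset.map_zero, Multiset.prod_zero, Multiset.prod_zero, map_one, jacobiSym.one_right]
      exact ⟨rfl, one_ne_zero⟩
    | cons P s ih =>
      intro h
      obtain ⟨h1, h2⟩ := ih fun Q hQ => h Q (Multiset.mem_cons_of_mem hQ)
      obtain ⟨v, rfl, hv⟩ := h P (Multiset.mem_cons_self P s)
      have h3 : Ideal.absNorm v.asIdeal ≠ 0 := by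
        rw [Ne, Ideal.absNorm_eq_zero_iff]
        exact v.ne_bot
      have : NeZero (Ideal.absNorm v.asIdeal) := ⟨h3⟩
      have : NeZero (Ideal.absNorm s.prod) := ⟨h2⟩
      rw [Multiset.map_cons, Multiset.prod_cons, Multiset.prod_cons, map_mul, h1, qi_int hv]
      refine ⟨?_, mul_ne_zero h3 h2⟩
      rw [jacobiSym.mul_right]
  have h1 := (key (normalizedFactors I) fun P hP => by
    obtain ⟨v, h2, h3⟩ := nf_place hP
    exact ⟨v, h2, ho v h3⟩).1
  have h2 : (normalizedFactors I).prod = I := by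
    have := prod_normalizedFactors_eq (a := I) hI
    rwa [normalize_eq] at this
  rw [h2] at h1
  exact h1

end Pool.Agent.T9h30.BT
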