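import Pool.Agent.T9h30.BT.Jac

/-!
# The symbol modulo rational integers
-/

set_option autoImplicit false
set_option linter.unusedSectionVars false

namespace Pool.Agent.T9h30.BT

open NumberField IsDedekindDomain UniqueFactorizationMonoid

variable {K : Type} [Field K] [NumberField K] {ω : 𝓞 K} {t n : ℤ}

lemma Bs.uniq (hB : Bs ω t n) {a b a' b' : ℤ} (h : (a : 𝓞 K) + b * ω = a' + b' * ω) :
    a = a' ∧ b = b' := by
  have h1 := hB.un (a - a') (b - b') (by
    push_cast
    linear_combination h)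
  omega

lemma Bs.uniq1 (hB : Bs ω t n) {a b a' : ℤ} (h : (a : 𝓞 K) + b * ω = a') : a = a' ∧ b = 0 := by
  refine hB.uniq (a' := a') (b' := 0) ?_
  rw [h, Int.cast_zero, zero_mul, add_zero]

/-- the conjugation -/
theorem exists_cj (hB : Bs ω t n) : ∃ τ : 𝓞 K →+* 𝓞 K, (∀ x, τ (τ x) = x) ∧ τ ω = t - ω ∧
    (∀ x, x * τ x = (Algebra.norm ℤ x : ℤ)) := by
  choose a b hab using hB.ex
  have hval : ∀ (x : 𝓞 K) (u v : ℤ), x = u + v * ω → a x = u ∧ b x = v := fun x u v h =>
    hB.uniq ((hab x).symm.trans h)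
  let τ : 𝓞 K →+* 𝓞 K :=
    { toFun := fun x => a x + b x * (t - ω)
      map_one' := by
        obtain ⟨h1, h2⟩ := hval 1 1 0 (by push_cast; ring)
        rw [h1, h2]
        push_cast
        ring
      map_zero' := by
        obtain ⟨h1, h2⟩ := hval 0 0 0 (by push_cast; ring)
        rw [h1, h2]
        push_cast
        ring
      map_add' := fun x y => by
        obtain ⟨h1, h2⟩ := hval (x + y) (a x + a y) (b x + b y) (by
          conv_lhs => rw [hab x, hab y]
          push_cast
          ring)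
        rw [h1, h2]
        push_cast
        ring
      map_mul' := fun x y => by
        obtain ⟨h1, h2⟩ := hval (x * y) (a x * a y - n * b x * b y)
          (a x * b y + b x * a y + t * b x * b y) (by
          conv_lhs => rw [hab x, hab y]
          push_cast
          linear_combination (b x * b y : 𝓞 K) * hB.rel)
        rw [h1, h2]
        push_cast
        linear_combination (-(b x : 𝓞 K) * b y) * hB.rel }
  have hτ : ∀ (x : 𝓞 K) (u v : ℤ), x = u + v * ω → τ x = u + v * (t - ω) := by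
    intro x u v h
    obtain ⟨h1, h2⟩ := hval x u v h
    show (a x : 𝓞 K) + b x * (t - ω) = _
    rw [h1, h2]
  refine ⟨τ, fun x => ?_, ?_, fun x => ?_⟩
  · have h1 := hτ x _ _ (hab x)
    have h2 := hτ (τ x) (a x + b x * t) (-b x) (by rw [h1]; push_cast; ring)
    rw [h2]
    conv_rhs => rw [hab x]
    push_cast
    ring
  · rw [hτ ω 0 1 (by push_cast; ring)]
    push_cast
    ring
  · have h1 := hτ x _ _ (hab x)
    have h2 : x * τ x = ((a x : 𝓞 K) + b x * ω) * ((a x : 𝓞 K) + b x * (t - ω)) := by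
      rw [h1, ← hab x]
    have h3 := hB.nm (a x) (b x)
    rw [← hab x] at h3
    rw [h2, h3]
    push_cast
    linear_combination (-(b x : 𝓞 K) ^ 2) * hB.rel

lemma absNorm_eq (hB : Bs ω t n) (x : 𝓞 K) :
    (Ideal.absNorm (Ideal.span {x}) : ℤ) = Algebra.norm ℤ x := by
  rw [Ideal.absNorm_span_singleton]
  exact Int.natAbs_of_nonneg (hB.nn x)

lemma norm_int' (hB : Bs ω t n) (g : ℤ) : Algebra.norm ℤ (g : 𝓞 K) = g ^ 2 := by
  have := hB.nm g 0
  rw [Int.cast_zero, zero_mul, add_zero] at this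
  rw [this]
  ring

/-- the symbol modulo an odd prime number -/
theorem JJ_prime [IsPrincipalIdealRing (𝓞 K)] (hB : Bs ω t n) (x : 𝓞 K) {q : ℕ} (hq : q.Prime)
    (hodd : q % 2 = 1) : JJ x (Ideal.span {(q : 𝓞 K)}) = jacobiSym (Algebra.norm ℤ x) q := by
  classical
  obtain ⟨τ, hτ1, hτ2, hτ3⟩ := exists_cj hB
  have hq0 : (q : 𝓞 K) ≠ 0 := by exact_mod_cast hq.ne_zero
  have h2v : ∀ v : HeightOneSpectrum (𝓞 K), (q : 𝓞 K) ∈ v.asIdeal → (2 : 𝓞 K) ∉ v.asIdeal := by
    intro v hv h2
    apply v.isPrime.ne_top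
    rw [Ideal.eq_top_iff_one]
    obtain ⟨s, hs⟩ : ∃ s, q = 2 * s + 1 := ⟨q / 2, by omega⟩
    have h3 : (1 : 𝓞 K) = q - 2 * s := by
      rw [hs]
      push_cast
      ring
    rw [h3]
    exact v.asIdeal.sub_mem hv (v.asIdeal.mul_mem_right _ h2)
  by_cases hex : ∃ v : HeightOneSpectrum (𝓞 K), Ideal.absNorm v.asIdeal = q
  · obtain ⟨v, hv⟩ := hex
    obtain ⟨w, hw⟩ := (IsPrincipalIdealRing.principal v.asIdeal).principal
    have hw' : v.asIdeal = Ideal.span {w} := hw
    have hnw : Algebra.norm ℤ w = q := by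
      rw [← absNorm_eq hB, ← hw', hv]
    have h1 : w * τ w = q := by
      rw [hτ3, hnw]
      push_cast
      rfl
    have hnw' : Algebra.norm ℤ (τ w) = q := by
      have h2 := hτ3 (τ w)
      rw [hτ1, mul_comm, h1] at h2
      exact_mod_cast h2.symm
    have habs : Ideal.absNorm (Ideal.span {τ w}) = q := by
      have := absNorm_eq hB (τ w)
      rw [hnw'] at this
      exact_mod_cast this
    have hpr : (Ideal.span {τ w}).IsPrime :=
      Ideal.isPrime_of_irreducible_absNorm (by rw [habs]; exact hq)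
    let v' : HeightOneSpectrum (𝓞 K) := ⟨Ideal.span {τ w}, hpr, by
      rw [Ne, Ideal.span_singleton_eq_bot]
      rintro h
      rw [h, Algebra.norm_zero] at hnw'
      exact hq.ne_zero (by exact_mod_cast hnw'.symm)⟩
    have hmem : ∀ y, y ∈ v'.asIdeal ↔ τ y ∈ v.asIdeal := by
      intro y
      rw [hw']
      show y ∈ Ideal.span {τ w} ↔ _
      rw [Ideal.mem_span_singleton, Ideal.mem_span_singleton]
      constructor
      · rintro ⟨z, rfl⟩
        exact ⟨τ z, by rw [map_mul, hτ1]⟩
      · rintro ⟨z, hz⟩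
        exact ⟨τ z, by rw [← map_mul, ← hz, hτ1]⟩
    have hqi : qi v'.asIdeal x = qi v.asIdeal (τ x) := by
      have h3 : (∃ y, x - y ^ 2 ∈ v'.asIdeal) ↔ ∃ y, τ x - y ^ 2 ∈ v.asIdeal := by
        constructor
        · rintro ⟨y, hy⟩
          exact ⟨τ y, by rw [← map_pow, ← map_sub]; exact (hmem _).1 hy⟩
        · rintro ⟨y, hy⟩
          refine ⟨τ y, (hmem _).2 ?_⟩
          rw [map_sub, map_pow, hτ1]
          exact hy
      unfold qi
      by_cases h4 : x ∈ v'.asIdeal
      · rw [if_pos h4, if_pos ((hmem x).1 h4)]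
      · rw [if_neg h4, if_neg fun h => h4 ((hmem x).2 h)]
        by_cases h5 : ∃ y, x - y ^ 2 ∈ v'.asIdeal
        · rw [if_pos h5, if_pos (h3.1 h5)]
        · rw [if_neg h5, if_neg fun h => h5 (h3.2 h)]
    have hI : Ideal.span {(q : 𝓞 K)} = v.asIdeal * v'.asIdeal := by
      rw [hw']
      show _ = Ideal.span {w} * Ideal.span {τ w}
      rw [Ideal.span_singleton_mul_span_singleton, h1]
    have hqv : (q : 𝓞 K) ∈ v.asIdeal := by
      rw [← h1, hw']
      exact Ideal.mul_mem_right _ _ (Ideal.mem_span_singleton_self w)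
    rw [hI, JJ_mul_right v.ne_bot v'.ne_bot, JJ_place, JJ_place, hqi, ← qi_mul, hτ3,
      qi_int (h2v v hqv), hv]
  · push Not at hex
    -- an inert prime number
    have hnq : Ideal.absNorm (Ideal.span {(q : 𝓞 K)}) = q ^ 2 := by
      have h1 := absNorm_eq hB (q : 𝓞 K)
      have h2 := norm_int' hB (q : ℤ)
      rw [Int.cast_natCast] at h2
      rw [h2] at h1
      exact_mod_cast h1
    have hne : Ideal.span {(q : 𝓞 K)} ≠ ⊤ := by
      intro h
      rw [h, Ideal.absNorm_top] at hnq
      have : 1 < q ^ 2 := Nat.one_lt_pow (by norm_num) hq.one_lt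
      omega
    obtain ⟨M, hM, hle⟩ := Ideal.exists_le_maximal _ hne
    have hqM : (q : 𝓞 K) ∈ M := hle (Ideal.mem_span_singleton_self _)
    let v : HeightOneSpectrum (𝓞 K) := ⟨M, hM.isPrime, by
      rintro rfl
      exact hq0 ((Ideal.mem_bot).1 hqM)⟩
    have hdv : v.asIdeal ∣ Ideal.span {(q : 𝓞 K)} := Ideal.dvd_iff_le.2 hle
    have h3 := map_dvd Ideal.absNorm hdv
    rw [hnq] at h3
    obtain ⟨k, hk, hk1⟩ := (Nat.dvd_prime_pow hq).1 h3
    have hcard : Ideal.absNorm v.asIdeal = q ^ 2 := by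
      interval_cases k
      · rw [pow_zero, Ideal.absNorm_eq_one_iff] at hk1
        exact absurd hk1 v.isPrime.ne_top
      · rw [pow_one] at hk1
        exact absurd hk1 (hex v)
      · exact hk1
    have heq : Ideal.span {(q : 𝓞 K)} = v.asIdeal := by
      obtain ⟨J, hJ⟩ := hdv
      have h4 := congrArg Ideal.absNorm hJ
      rw [map_mul, hnq, hcard] at h4
      have h5 : Ideal.absNorm J = 1 := by
        have h6 : 0 < q ^ 2 := pow_pos hq.pos 2
        exact Nat.eq_of_mul_eq_mul_left h6 (by rw [mul_one]; exact h4.symm)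
      rw [Ideal.absNorm_eq_one_iff] at h5
      rw [hJ, h5, Ideal.mul_top]
    have hv2 := h2v v hqM
    rw [heq, JJ_place]
    -- the residue field
    let _ := rF v
    let _ : Fintype (𝓞 K ⧸ v.asIdeal) := @Fintype.ofFinite _ (rfin v)
    have hfact : Fact q.Prime := ⟨hq⟩
    have hcharq : CharP (𝓞 K ⧸ v.asIdeal) q := by
      have h4 : ((q : ℕ) : 𝓞 K ⧸ v.asIdeal) = 0 := by
        rw [← map_natCast (Ideal.Quotient.mk v.asIdeal), Ideal.Quotient.eq_zero_iff_mem]
        exact hqM
      exact ringChar.of_eq (CharP.ringChar_of_prime_eq_zero hq h4)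
    set W : 𝓞 K ⧸ v.asIdeal := Ideal.Quotient.mk v.asIdeal ω with hW
    have hW2 : W ^ 2 = t * W - n := by
      rw [hW, ← map_pow, hB.rel, map_sub, map_mul, map_intCast, map_intCast]
    have hint : ∀ z : ℤ, (z : 𝓞 K ⧸ v.asIdeal) ^ q = z := by
      intro z
      have h4 : ((z : ZMod q)) ^ q = z := ZMod.pow_card _
      have h5 := congrArg (ZMod.castHom (dvd_refl q) (𝓞 K ⧸ v.asIdeal)) h4
      rwa [map_pow, map_intCast] at h5
    have hWq : (W ^ q) ^ 2 = t * W ^ q - n := by
      have h4 := congrArg (fun y => y ^ q) hW2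
      rw [sub_pow_char, mul_pow, hint, hint] at h4
      rw [← pow_mul, mul_comm, pow_mul]
      exact h4
    have hWq' : W ^ q = t - W := by
      have h4 : (W ^ q - W) * (W ^ q - (t - W)) = 0 := by
        linear_combination hWq - hW2
      rcases mul_eq_zero.1 h4 with h5 | h5
      · exfalso
        have hall : ∀ z : 𝓞 K ⧸ v.asIdeal, z ^ q = z := by
          intro z
          obtain ⟨y, rfl⟩ := Ideal.Quotient.mk_surjective z
          obtain ⟨a, b, rfl⟩ := hB.ex y
          rw [map_add, map_mul, map_intCast, map_intCast, add_pow_char, mul_pow, hint, hint]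
          rw [sub_eq_zero.1 h5]
        obtain ⟨g, hg⟩ := IsCyclic.exists_ofOrder_eq_natCard (α := (𝓞 K ⧸ v.asIdeal)ˣ)
        have h6 : g ^ (q - 1) = 1 := by
          apply mul_right_cancel (b := g)
          rw [one_mul, ← pow_succ, Nat.sub_add_cancel hq.one_le]
          apply Units.ext
          rw [Units.val_pow_eq_pow_val]
          exact hall _
        have h7 := orderOf_dvd_of_pow_eq_one h6
        rw [hg, Nat.card_units, rcard, hcard] at h7
        have h8 := Nat.le_of_dvd (by have := hq.two_le; omega) h7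
        have h9 : q * 2 ≤ q ^ 2 := by
          rw [sq]
          exact Nat.mul_le_mul_left q hq.two_le
        have := hq.two_le
        omega
      · exact sub_eq_zero.1 h5
    have hxq : (Ideal.Quotient.mk v.asIdeal x) ^ (q + 1) =
        ((Algebra.norm ℤ x : ℤ) : 𝓞 K ⧸ v.asIdeal) := by
      obtain ⟨a, b, hab⟩ := hB.ex x
      have h4 : (Ideal.Quotient.mk v.asIdeal x) = a + b * W := by
        rw [hab, map_add, map_mul, map_intCast, map_intCast]
      have h5 : (Ideal.Quotient.mk v.asIdeal x) ^ q = a + b * (t - W) := by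
        rw [h4, add_pow_char, mul_pow, hint, hint, hWq']
      have h6 := hB.nm a b
      rw [← hab] at h6
      rw [pow_succ, h5, h4, h6]
      push_cast
      linear_combination (-(b : 𝓞 K ⧸ v.asIdeal) ^ 2) * hW2
    have h4 := qi_euler hv2 x
    have h5 : q ^ 2 / 2 = (q + 1) * (q / 2) := by
      obtain ⟨s, hs⟩ : ∃ s, q = 2 * s + 1 := ⟨q / 2, by omega⟩
      have e2 : q / 2 = s := by omega
      rw [e2, hs]
      have : (2 * s + 1) ^ 2 = 2 * ((2 * s + 1 + 1) * s) + 1 := by ring
      omega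
    have h6 : ((qi v.asIdeal x : ℤ) : 𝓞 K ⧸ v.asIdeal) =
        ((legendreSym q (Algebra.norm ℤ x) : ℤ) : 𝓞 K ⧸ v.asIdeal) := by
      rw [← Ideal.Quotient.eq, map_pow, map_intCast, hcard, h5, pow_mul, hxq] at h4
      rw [← h4]
      have h7 := legendreSym.eq_pow q (Algebra.norm ℤ x)
      have h8 := congrArg (ZMod.castHom (dvd_refl q) (𝓞 K ⧸ v.asIdeal)) h7
      rw [map_intCast, map_pow, map_intCast] at h8
      exact h8.symm
    have h7 : ((qi v.asIdeal x : ℤ) : 𝓞 K) - ((legendreSym q (Algebra.norm ℤ x) : ℤ) : 𝓞 K) ∈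
        v.asIdeal := by
      rw [← Ideal.Quotient.eq, map_intCast, map_intCast]
      exact h6
    rw [pm_ne hv2 (qi_cases _ _) ?_ h7, jacobiSym.legendreSym.to_jacobiSym]
    by_cases h0 : ((Algebra.norm ℤ x : ℤ) : ZMod q) = 0
    · exact Or.inl ((legendreSym.eq_zero_iff q _).2 h0)
    · exact Or.inr (legendreSym.eq_one_or_neg_one q h0)

/-- **The symbol modulo odd integers.** -/
theorem JJ_nat [IsPrincipalIdealRing (𝓞 K)] (hB : Bs ω t n) (x : 𝓞 K) :
    ∀ k : ℕ, k % 2 = 1 → JJ x (Ideal.span {(k : 𝓞 K)}) = jacobiSym (Algebra.norm ℤ x) k := by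
  intro k
  induction k using Nat.recOnMul with
  | zero => intro h; omega
  | one =>
    intro _
    rw [Nat.cast_one, Ideal.span_singleton_one, JJ_top, jacobiSym.one_right]
  | prime q hq => exact fun h => JJ_prime hB x hq h
  | mul a b ha hb =>
    intro h
    have hao : a % 2 = 1 := by
      rcases Nat.mod_two_eq_zero_or_one a with h1 | h1
      · rw [Nat.mul_mod, h1, zero_mul] at h
        simp at h
      · exact h1
    have hbo : b % 2 = 1 := by
      rcases Nat.mod_two_eq_zero_or_one b with h1 | h1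
      · rw [Nat.mul_mod, h1, mul_zero] at h
        simp at h
      · exact h1
    have ha0 : (a : 𝓞 K) ≠ 0 := by
      have : a ≠ 0 := by omega
      exact_mod_cast this
    have hb0 : (b : 𝓞 K) ≠ 0 := by
      have : b ≠ 0 := by omega
      exact_mod_cast this
    have : NeZero a := ⟨by omega⟩
    have : NeZero b := ⟨by omega⟩
    rw [Nat.cast_mul, ← Ideal.span_singleton_mul_span_singleton, JJ_mul_right, ha hao, hb hbo,
      jacobiSym.mul_right]
    · rwa [Ne, Ideal.span_singleton_eq_bot]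
    · rwa [Ne, Ideal.span_singleton_eq_bot]

end Pool.Agent.T9h30.BT
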