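import Pool.Agent.T9h30.BT.Idn
import Pool.Agent.K4H55.CX.Nv

/-!
# The `L`-function over an abelian extension
-/

set_option autoImplicit false
set_option linter.unusedSectionVars false

namespace Pool.Agent.T9h30.BT

open NumberField IsDedekindDomain WeierstrassCurve Pool.Agent.W189.NF
open Pool.Agent.K4H55.BI (gen)
open Pool.Agent.K4H55.CX (efx)

section one

variable {M : Type} [Field M] [NumberField M] (W : WeierstrassCurve M)
  (u : HeightOneSpectrum (𝓞 M))

lemma eV_cases : (eV W u = Ideal.absNorm u.asIdeal) ∨ (eV W u = 0 ∧ |aV W u| ≤ 1) := by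
  by_cases h : RS.GoodAt W u
  · exact Or.inl (RS.aV_good h).2
  · exact Or.inr ⟨(RS.aV_bad h).2, (RS.aV_bad h).1⟩

lemma aV_le' : |aV W u| ≤ (Ideal.absNorm u.asIdeal : ℤ) := aV_le W u

lemma PT_diff (z : ℂ) : Differentiable ℂ (PT W u z) := by
  unfold PT
  have h0 : (Ideal.absNorm u.asIdeal : ℂ) ≠ 0 := by
    have := one_lt_nrm u
    exact_mod_cast (by omega : Ideal.absNorm u.asIdeal ≠ 0)
  have h1 : Differentiable ℂ fun s : ℂ => z * (Ideal.absNorm u.asIdeal : ℂ) ^ (-s) := by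
    refine (differentiable_const z).mul ?_
    intro s
    exact (differentiable_neg s).const_cpow (Or.inl h0)
  exact ((differentiable_const _).sub ((differentiable_const _).mul h1)).add
    ((differentiable_const _).mul (h1.pow 2))

/-- the factors do not vanish at `s = 1` -/
lemma PT_one_ne {z : ℂ} (hz : ‖z‖ = 1 ∨ z = 0) : PT W u z 1 ≠ 0 := by
  have hq1 := one_lt_nrm u
  set q := Ideal.absNorm u.asIdeal with hq
  have hq0 : (q : ℂ) ≠ 0 := by exact_mod_cast (by omega : q ≠ 0)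
  have hle := aV_le' W u
  rw [← hq] at hle
  intro h0
  unfold PT at h0
  rw [← hq, Complex.cpow_neg_one] at h0
  rcases hz with hz | hz
  · rcases eV_cases W u with he | ⟨he, ha⟩
    · rw [he, ← hq] at h0
      have h1 : (q : ℂ) - (aV W u : ℂ) * z + z ^ 2 = 0 := by
        have : (q : ℂ) - (aV W u : ℂ) * z + z ^ 2 =
            q * (1 - (aV W u : ℂ) * (z * (q : ℂ)⁻¹) + ((q : ℤ) : ℂ) * (z * (q : ℂ)⁻¹) ^ 2) := by
          push_cast
          field_simp
        rw [this, h0, mul_zero]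
      have h2 : z * (starRingEnd ℂ) z = 1 := by
        rw [Complex.mul_conj, Complex.normSq_eq_norm_sq, hz]
        norm_num
      have h3 : (aV W u : ℂ) = q * (starRingEnd ℂ) z + z := by
        linear_combination ((aV W u : ℂ) - z) * (-h2) - (starRingEnd ℂ) z * h1
      have him := congrArg Complex.im h3
      have hre := congrArg Complex.re h3
      simp only [Complex.add_im, Complex.mul_im, Complex.conj_im, Complex.conj_re,
        Complex.natCast_re, Complex.natCast_im, Complex.intCast_im, Complex.add_re, Complex.mul_re,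
        Complex.intCast_re] at him hre
      have hqr : (1 : ℝ) < q := by exact_mod_cast hq1
      have him0 : z.im = 0 := by
        have : (q - 1 : ℝ) * z.im = 0 := by linarith
        rcases mul_eq_zero.1 this with h | h
        · linarith
        · exact h
      have hz2 : z.re ^ 2 = 1 := by
        have := congrArg Complex.re h2
        simp only [Complex.mul_re, Complex.conj_re, Complex.conj_im, Complex.one_re] at this
        rw [him0] at this
        nlinarith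
      have hle' : |(aV W u : ℝ)| ≤ q := by exact_mod_cast hle
      rw [abs_le] at hle'
      rcases mul_self_eq_one_iff.1 ((sq _).symm.trans hz2) with h | h
      · rw [h] at hre
        linarith [hle'.2]
      · rw [h] at hre
        linarith [hle'.1]
    · rw [he, Int.cast_zero, zero_mul, add_zero] at h0
      have h1 : (aV W u : ℂ) * z = q := by
        field_simp at h0
        linear_combination -h0
      have h2 := congrArg norm h1
      rw [norm_mul, hz, mul_one, Complex.norm_natCast, Complex.norm_intCast] at h2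
      have h3 : |(aV W u : ℝ)| ≤ 1 := by exact_mod_cast ha
      have h4 : (1 : ℝ) < q := by exact_mod_cast hq1
      linarith
  · rw [hz] at h0
    norm_num at h0

/-- the factors do not vanish in the half plane -/
lemma PT_ne {z s : ℂ} (hz : ‖z‖ ≤ 1) (hs : 2 < s.re) : PT W u z s ≠ 0 := by
  have hq1 := one_lt_nrm u
  set q := Ideal.absNorm u.asIdeal with hq
  have hq2 : (2 : ℝ) ≤ q := by exact_mod_cast hq1
  have hle : |(aV W u : ℝ)| ≤ q := by
    have := aV_le' W u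
    exact_mod_cast this
  have hle' : |(eV W u : ℝ)| ≤ q := by
    have : |eV W u| ≤ (Ideal.absNorm u.asIdeal : ℤ) := eV_le W u
    exact_mod_cast this
  obtain ⟨x, hx⟩ : ∃ x : ℂ, x = z * (q : ℂ) ^ (-s) := ⟨_, rfl⟩
  have hxn : ‖x‖ ≤ ((q : ℝ) ^ 2)⁻¹ := by
    rw [hx, norm_mul, Complex.norm_natCast_cpow_of_pos (by omega)]
    have h1 : (q : ℝ) ^ (-s).re ≤ (q : ℝ) ^ (-2 : ℝ) := by
      apply Real.rpow_le_rpow_of_exponent_le (by linarith)
      rw [Complex.neg_re]
      linarith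
    have h2 : (q : ℝ) ^ (-2 : ℝ) = ((q : ℝ) ^ 2)⁻¹ := by
      rw [Real.rpow_neg (by positivity)]
      norm_num
    have h3 : 0 ≤ (q : ℝ) ^ (-s).re := by positivity
    calc ‖z‖ * (q : ℝ) ^ (-s).re ≤ 1 * (q : ℝ) ^ (-s).re := by gcongr
      _ = (q : ℝ) ^ (-s).re := one_mul _
      _ ≤ _ := by rw [← h2]; exact h1
  have hqx : (q : ℝ) * ‖x‖ ≤ 1 / 2 := by
    calc (q : ℝ) * ‖x‖ ≤ q * ((q : ℝ) ^ 2)⁻¹ := by gcongr
      _ = (q : ℝ)⁻¹ := by field_simp
      _ ≤ 2⁻¹ := inv_anti₀ (by norm_num) hq2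
      _ = 1 / 2 := by norm_num
  have hx4 : ‖x‖ ≤ 1 / 4 := by
    nlinarith [norm_nonneg x]
  intro h0
  have h1 : (1 : ℂ) = (aV W u : ℂ) * x - (eV W u : ℂ) * x ^ 2 := by
    unfold PT at h0
    rw [← hq, ← hx] at h0
    linear_combination h0
  have h2 := congrArg norm h1
  rw [norm_one] at h2
  have h3 : ‖(aV W u : ℂ) * x - (eV W u : ℂ) * x ^ 2‖ ≤ q * ‖x‖ + q * ‖x‖ * ‖x‖ := by
    refine (norm_sub_le _ _).trans ?_
    rw [norm_mul, norm_mul, norm_pow, Complex.norm_intCast, Complex.norm_intCast]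
    have e : (q : ℝ) * ‖x‖ * ‖x‖ = q * ‖x‖ ^ 2 := by ring
    rw [e]
    gcongr
  have h4 : (q : ℝ) * ‖x‖ * ‖x‖ ≤ 1 / 2 * (1 / 4) := by
    apply mul_le_mul hqx hx4 (norm_nonneg _) (by norm_num)
  linarith

end one

variable {K F : Type} [Field K] [NumberField K] [Field F] [NumberField F] [Algebra K F]
  [IsGalois K F]

lemma fin_ab (v : HeightOneSpectrum (𝓞 K)) : Finite (Ab F v) := by
  obtain ⟨u₀, rfl⟩ := (exists_ab (F := F) v)
  have hcount := count (K := K) u₀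
  refine Nat.finite_of_card_ne_zero fun h0 => ?_
  rw [h0, zero_mul, zero_mul] at hcount
  exact Nat.card_pos.ne' hcount.symm

/-- the `L`-series as a product over the places of `K` -/
theorem LSF (W : WeierstrassCurve F) {s : ℂ} (hs : 2 < s.re) :
    HasProd (fun v : HeightOneSpectrum (𝓞 K) => ∏ᶠ u : Ab F v, (PT W u.1 1 s)⁻¹)
      (W.LSeries s) := by
  classical
  have h2 : HasProd (fun u : HeightOneSpectrum (𝓞 F) => (PT W u 1 s)⁻¹) (W.LSeries s) := by
    have h1 := (LSeries_hasProd W hs).2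
    refine (congrArg (fun g => HasProd g (W.LSeries s)) (funext fun u => ?_)).mp h1
    unfold PT
    rw [one_mul]
    rfl
  have h3 := (Equiv.sigmaFiberEquiv (fun u : HeightOneSpectrum (𝓞 F) => lo (K := K) u)).hasProd_iff.2 h2
  refine h3.sigma (g := fun v : HeightOneSpectrum (𝓞 K) => ∏ᶠ u : Ab F v, (PT W u.1 1 s)⁻¹)
    (fun v => ?_)
  have hfin := fin_ab (F := F) v
  let _ : Fintype (Ab F v) := Fintype.ofFinite _
  have h4 := hasProd_fintype (fun u : Ab F v => (PT W u.1 1 s)⁻¹)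
  rw [← finprod_eq_prod_of_fintype] at h4
  exact h4

variable [IsPrincipalIdealRing (𝓞 K)] {n : 𝓞 K} {c : Ideal (𝓞 K) → ℂ}

/-- the form belongs to the curve -/
def IsNF (W : WeierstrassCurve K) (n : 𝓞 K) (c : Ideal (𝓞 K) → ℂ) : Prop :=
  ∀ v : HeightOneSpectrum (𝓞 K), c v.asIdeal = aV W v ∧
    (n ∈ v.asIdeal → eV W v = 0) ∧ (n ∉ v.asIdeal → eV W v = Ideal.absNorm v.asIdeal)

lemma efx_PT {W : WeierstrassCurve K} (h : IsNF W n c) (χ : 𝓞 K → ℂ) (s : ℂ)
    (v : HeightOneSpectrum (𝓞 K)) : efx n c χ s v = (PT W v (χ (gen v)) s)⁻¹ := by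
  obtain ⟨h1, h2, h3⟩ := h v
  have hq : (Ideal.absNorm v.asIdeal : ℂ) ≠ 0 := by
    have := one_lt_nrm v
    exact_mod_cast (by omega : Ideal.absNorm v.asIdeal ≠ 0)
  unfold efx PT
  congr 1
  rw [h1]
  by_cases hn : n ∈ v.asIdeal
  · rw [if_pos hn, h2 hn]
    push_cast
    ring
  · rw [if_neg hn, h3 hn]
    have e1 : (Ideal.absNorm v.asIdeal : ℂ) ^ (1 - 2 * s) = (Ideal.absNorm v.asIdeal : ℂ) *
        (Ideal.absNorm v.asIdeal : ℂ) ^ (-s) * (Ideal.absNorm v.asIdeal : ℂ) ^ (-s) := by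
      rw [show (1 : ℂ) - 2 * s = 1 + -s + -s by ring, Complex.cpow_add _ _ hq,
        Complex.cpow_add _ _ hq, Complex.cpow_one]
    rw [e1]
    push_cast
    ring

/-- the characters of the Galois group and their reciprocity -/
structure Rec (T : ((F ≃ₐ[K] F) →* ℂˣ) → Finset (HeightOneSpectrum (𝓞 K)))
    (χ : ((F ≃ₐ[K] F) →* ℂˣ) → 𝓞 K → ℂ) : Prop where
  nrm : ∀ ψ x, ‖χ ψ x‖ = 1 ∨ χ ψ x = 0
  law : ∀ ψ (u : HeightOneSpectrum (𝓞 F)), lo (K := K) u ∉ T ψ → ∀ t : F ≃ₐ[K] F, Frb u t →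
    ((ψ t : ℂˣ) : ℂ) = χ ψ (gen (lo (K := K) u))

variable {T : ((F ≃ₐ[K] F) →* ℂˣ) → Finset (HeightOneSpectrum (𝓞 K))}
  {χ : ((F ≃ₐ[K] F) →* ℂˣ) → 𝓞 K → ℂ}

/-- the factors at the unramified places -/
theorem above_unr (hc : ∀ s t : F ≃ₐ[K] F, s * t = t * s) (hR : Rec T χ) (a b : 𝓞 K)
    {v : HeightOneSpectrum (𝓞 K)} (hv : 2 * (4 * a ^ 3 + 27 * b ^ 2) ∉ v.asIdeal)
    (hT : ∀ ψ, v ∉ T ψ) (s : ℂ) :
    ∏ᶠ u : Ab F v, PT (cF F a b) u.1 1 s =
      ∏ᶠ ψ : (F ≃ₐ[K] F) →* ℂˣ, PT (cv (a : K) (b : K)) v (χ ψ (gen v)) s := by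
  obtain ⟨u₀⟩ := exists_ab (F := F) v
  obtain ⟨t, ht⟩ := exists_frb (K := K) u₀.1
  have hv0 : lo (K := K) u₀.1 = v := u₀.2
  rw [above hc a b hv u₀ ht s]
  have hval : ∀ ψ, ((ψ t : ℂˣ) : ℂ) = χ ψ (gen v) := by
    intro ψ
    have h1 := hR.law ψ u₀.1 (by rw [hv0]; exact hT ψ) t ht
    rw [hv0] at h1
    exact h1
  have hine : ∀ ψ : (F ≃ₐ[K] F) →* ℂˣ, ∀ i ∈ In (K := K) u₀.1, ψ i = 1 := by
    intro ψ i hi
    have h2 : Frb u₀.1 (i * t) := by
      intro x
      have h3 := u₀.1.asIdeal.add_mem (hi (t • x)) (ht x)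
      rw [sub_add_sub_cancel, ← mul_smul] at h3
      exact h3
    have h3 := hR.law ψ u₀.1 (by rw [hv0]; exact hT ψ) _ h2
    rw [hv0, ← hval ψ] at h3
    have h4 : ψ (i * t) = ψ t := Units.ext h3
    rw [map_mul] at h4
    exact mul_right_cancel (h4.trans (one_mul _).symm)
  let E : {ψ : (F ≃ₐ[K] F) →* ℂˣ // ∀ i ∈ In (K := K) u₀.1, ψ i = 1} ≃ ((F ≃ₐ[K] F) →* ℂˣ) :=
    Equiv.subtypeUnivEquiv hine
  refine finprod_eq_of_bijective E E.bijective fun ψ => ?_
  rw [hval]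
  rfl

end Pool.Agent.T9h30.BT
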