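import Pool.Agent.T9h30.BT.Bas

/-!
# Quadratic symbols modulo prime ideals
-/

set_option autoImplicit false
set_option linter.unusedSectionVars false

namespace Pool.Agent.T9h30.BT

open NumberField IsDedekindDomain

variable {K : Type} [Field K] [NumberField K]

open Classical in
/-- the quadratic symbol modulo an ideal -/
noncomputable def qi (P : Ideal (𝓞 K)) (x : 𝓞 K) : ℤ :=
  if x ∈ P then 0 else if ∃ y, x - y ^ 2 ∈ P then 1 else -1

lemma qi_zero {P : Ideal (𝓞 K)} {x : 𝓞 K} (h : x ∈ P) : qi P x = 0 := by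
  unfold qi
  rw [if_pos h]

lemma qi_sq {P : Ideal (𝓞 K)} {x : 𝓞 K} (h : x ∉ P) : qi P x * qi P x = 1 := by
  unfold qi
  rw [if_neg h]
  split_ifs <;> norm_num

lemma qi_cases (P : Ideal (𝓞 K)) (x : 𝓞 K) : qi P x = 0 ∨ qi P x = 1 ∨ qi P x = -1 := by
  unfold qi
  split_ifs <;> simp

lemma qi_one_of {P : Ideal (𝓞 K)} {x y : 𝓞 K} (h : x ∉ P) (hy : x - y ^ 2 ∈ P) : qi P x = 1 := by
  unfold qi
  rw [if_neg h, if_pos ⟨y, hy⟩]

lemma qi_congr {P : Ideal (𝓞 K)} {x y : 𝓞 K} (h : x - y ∈ P) : qi P x = qi P y := by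
  have h1 : x ∈ P ↔ y ∈ P := by
    constructor
    · intro hx
      have : y = x - (x - y) := by ring
      rw [this]
      exact P.sub_mem hx h
    · intro hy
      have : x = (x - y) + y := by ring
      rw [this]
      exact P.add_mem h hy
  have h2 : (∃ z, x - z ^ 2 ∈ P) ↔ ∃ z, y - z ^ 2 ∈ P := by
    refine exists_congr fun z => ?_
    constructor
    · intro hx
      have : y - z ^ 2 = (x - z ^ 2) - (x - y) := by ring
      rw [this]
      exact P.sub_mem hx h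
    · intro hx
      have : x - z ^ 2 = (y - z ^ 2) + (x - y) := by ring
      rw [this]
      exact P.add_mem hx h
  classical
  unfold qi
  by_cases hx : x ∈ P
  · rw [if_pos hx, if_pos (h1.1 hx)]
  · rw [if_neg hx, if_neg fun h => hx (h1.2 h)]
    by_cases hs : ∃ z, x - z ^ 2 ∈ P
    · rw [if_pos hs, if_pos (h2.1 hs)]
    · rw [if_neg hs, if_neg fun h => hs (h2.2 h)]

/-- the residue field -/
noncomputable abbrev rF (v : HeightOneSpectrum (𝓞 K)) : Field (𝓞 K ⧸ v.asIdeal) :=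
  @Ideal.Quotient.field _ _ v.asIdeal v.isMaximal

lemma rfin (v : HeightOneSpectrum (𝓞 K)) : Finite (𝓞 K ⧸ v.asIdeal) :=
  Ideal.finiteQuotientOfFreeOfNeBot _ v.ne_bot

lemma rcard (v : HeightOneSpectrum (𝓞 K)) :
    Nat.card (𝓞 K ⧸ v.asIdeal) = Ideal.absNorm v.asIdeal := by
  rw [Ideal.absNorm_apply, Submodule.cardQuot_apply]

open Classical in
lemma qi_qc (v : HeightOneSpectrum (𝓞 K)) (x : 𝓞 K) :
    letI := rF v
    letI : Fintype (𝓞 K ⧸ v.asIdeal) := @Fintype.ofFinite _ (rfin v)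
    qi v.asIdeal x = quadraticChar (𝓞 K ⧸ v.asIdeal) (Ideal.Quotient.mk v.asIdeal x) := by
  let := rF v
  let : Fintype (𝓞 K ⧸ v.asIdeal) := @Fintype.ofFinite _ (rfin v)
  show qi v.asIdeal x = quadraticChar (𝓞 K ⧸ v.asIdeal) (Ideal.Quotient.mk v.asIdeal x)
  by_cases hx : x ∈ v.asIdeal
  · rw [qi_zero hx, Ideal.Quotient.eq_zero_iff_mem.2 hx]
    exact (MulChar.map_zero _).symm
  · have h0 : Ideal.Quotient.mk v.asIdeal x ≠ 0 := fun h => hx (Ideal.Quotient.eq_zero_iff_mem.1 h)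
    by_cases hs : ∃ y, x - y ^ 2 ∈ v.asIdeal
    · obtain ⟨y, hy⟩ := hs
      rw [qi_one_of hx hy]
      symm
      rw [quadraticChar_one_iff_isSquare h0]
      refine ⟨Ideal.Quotient.mk v.asIdeal y, ?_⟩
      rw [← map_mul, ← sq]
      exact Ideal.Quotient.eq.2 hy
    · have h1 : qi v.asIdeal x = -1 := by
        unfold qi
        rw [if_neg hx, if_neg hs]
      rw [h1]
      symm
      rw [quadraticChar_neg_one_iff_not_isSquare]
      rintro ⟨y, hy⟩
      obtain ⟨y', rfl⟩ := Ideal.Quotient.mk_surjective y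
      rw [← map_mul, ← sq] at hy
      exact hs ⟨y', Ideal.Quotient.eq.1 hy⟩

lemma qi_mul (v : HeightOneSpectrum (𝓞 K)) (x y : 𝓞 K) :
    qi v.asIdeal (x * y) = qi v.asIdeal x * qi v.asIdeal y := by
  classical
  rw [qi_qc, qi_qc, qi_qc, map_mul, map_mul]

lemma qi_one (v : HeightOneSpectrum (𝓞 K)) : qi v.asIdeal 1 = 1 := by
  refine qi_one_of (y := 1) (fun h => v.isPrime.ne_top ((Ideal.eq_top_iff_one _).2 h)) ?_
  rw [one_pow, sub_self]
  exact Submodule.zero_mem _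

lemma odd_rc {v : HeightOneSpectrum (𝓞 K)} (hv : (2 : 𝓞 K) ∉ v.asIdeal) :
    letI := rF v
    ringChar (𝓞 K ⧸ v.asIdeal) ≠ 2 := by
  let := rF v
  show ringChar (𝓞 K ⧸ v.asIdeal) ≠ 2
  intro h
  have h1 : ((ringChar (𝓞 K ⧸ v.asIdeal) : ℕ) : 𝓞 K ⧸ v.asIdeal) = 0 :=
    ringChar.Nat.cast_ringChar
  rw [h] at h1
  apply hv
  rw [← Ideal.Quotient.eq_zero_iff_mem, map_ofNat]
  exact_mod_cast h1

/-- the criterion of Euler -/
lemma qi_euler {v : HeightOneSpectrum (𝓞 K)} (hv : (2 : 𝓞 K) ∉ v.asIdeal) (x : 𝓞 K) :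
    x ^ (Ideal.absNorm v.asIdeal / 2) - (qi v.asIdeal x : 𝓞 K) ∈ v.asIdeal := by
  classical
  let := rF v
  let : Fintype (𝓞 K ⧸ v.asIdeal) := @Fintype.ofFinite _ (rfin v)
  rw [← Ideal.Quotient.eq, qi_qc, map_pow, map_intCast,
    quadraticChar_eq_pow_of_char_ne_two' (odd_rc hv), ← Nat.card_eq_fintype_card, rcard]

lemma pm_ne {v : HeightOneSpectrum (𝓞 K)} (hv : (2 : 𝓞 K) ∉ v.asIdeal) {a b : ℤ}
    (ha : a = 0 ∨ a = 1 ∨ a = -1) (hb : b = 0 ∨ b = 1 ∨ b = -1)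
    (h : (a : 𝓞 K) - b ∈ v.asIdeal) : a = b := by
  have h1 : (1 : 𝓞 K) ∉ v.asIdeal := fun h => v.isPrime.ne_top ((Ideal.eq_top_iff_one _).2 h)
  have h1' : (-1 : 𝓞 K) ∉ v.asIdeal := fun h => h1 (by simpa using v.asIdeal.neg_mem h)
  have h2' : (-2 : 𝓞 K) ∉ v.asIdeal := fun h => hv (by simpa using v.asIdeal.neg_mem h)
  rcases ha with rfl | rfl | rfl <;> rcases hb with rfl | rfl | rfl
  · rfl
  · exfalso; apply h1'; simpa using h
  · exfalso; apply h1; simpa using h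
  · exfalso; apply h1; simpa using h
  · rfl
  · exfalso; apply hv
    have : ((1 : ℤ) : 𝓞 K) - ((-1 : ℤ) : 𝓞 K) = 2 := by push_cast; ring
    rwa [this] at h
  · exfalso; apply h1'; simpa using h
  · exfalso; apply h2'
    have : ((-1 : ℤ) : 𝓞 K) - ((1 : ℤ) : 𝓞 K) = -2 := by push_cast; ring
    rwa [this] at h
  · rfl

/-- the symbol of a rational integer -/
theorem qi_int {v : HeightOneSpectrum (𝓞 K)} (hv : (2 : 𝓞 K) ∉ v.asIdeal) (r : ℤ) :
    qi v.asIdeal (r : 𝓞 K) = jacobiSym r (Ideal.absNorm v.asIdeal) := by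
  classical
  let := rF v
  let : Fintype (𝓞 K ⧸ v.asIdeal) := @Fintype.ofFinite _ (rfin v)
  obtain ⟨p, hp⟩ := CharP.exists (𝓞 K ⧸ v.asIdeal)
  obtain ⟨f, hpr, hcard⟩ := FiniteField.card (𝓞 K ⧸ v.asIdeal) p
  rw [← Nat.card_eq_fintype_card, rcard] at hcard
  have hfact : Fact p.Prime := ⟨hpr⟩
  have hp2 : p ≠ 2 := by
    have h1 := odd_rc hv
    rwa [ringChar.eq_iff.2 hp] at h1
  have hpo : p % 2 = 1 := hpr.eq_two_or_odd.resolve_left hp2
  have hpmem : (p : 𝓞 K) ∈ v.asIdeal := by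
    rw [← Ideal.Quotient.eq_zero_iff_mem, map_natCast]
    exact CharP.cast_eq_zero _ p
  have hzero : ∀ z : ℤ, (z : ZMod p) = 0 → (z : 𝓞 K) ∈ v.asIdeal := by
    intro z hz
    obtain ⟨w, hw⟩ := (ZMod.intCast_zmod_eq_zero_iff_dvd z p).1 hz
    rw [hw]
    push_cast
    exact v.asIdeal.mul_mem_right _ hpmem
  -- the power
  have key : ∀ j : ℕ, ∃ m : ℕ, (p ^ j) / 2 = m * (p / 2) ∧ m % 2 = j % 2 := by
    intro j
    induction j with
    | zero => exact ⟨0, by simp, rfl⟩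
    | succ j ih =>
      obtain ⟨m, h1, h2⟩ := ih
      refine ⟨p * m + 1, ?_, ?_⟩
      · obtain ⟨s, hs⟩ : ∃ s, p = 2 * s + 1 := ⟨p / 2, by omega⟩
        have hodd : (p ^ j) % 2 = 1 := by
          rw [Nat.pow_mod, hpo, one_pow]
          rfl
        obtain ⟨w, hw⟩ : ∃ w, p ^ j = 2 * w + 1 := ⟨p ^ j / 2, by omega⟩
        have e1 : p ^ j / 2 = w := by omega
        have e2 : p / 2 = s := by omega
        rw [e1, e2] at h1
        rw [e2, pow_succ, hw, hs]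
        have e3 : (2 * w + 1) * (2 * s + 1) / 2 = w * (2 * s + 1) + s := by
          have : (2 * w + 1) * (2 * s + 1) = 2 * (w * (2 * s + 1) + s) + 1 := by ring
          omega
        rw [e3, h1]
        ring
      · have : (p * m) % 2 = m % 2 := by
          rw [Nat.mul_mod, hpo, one_mul, Nat.mod_mod]
        omega
  obtain ⟨m, h1, h2⟩ := key f
  have h3 := qi_euler hv (r : 𝓞 K)
  rw [hcard, h1] at h3
  -- modulo `p`
  have h4 : (r : 𝓞 K) ^ (m * (p / 2)) - ((legendreSym p r) ^ m : ℤ) ∈ v.asIdeal := by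
    have h5 : (((r ^ (m * (p / 2)) - (legendreSym p r) ^ m : ℤ)) : ZMod p) = 0 := by
      push_cast
      rw [legendreSym.eq_pow, ← pow_mul, mul_comm m, sub_self]
    have := hzero _ h5
    push_cast at this ⊢
    exact this
  have h5 : ((legendreSym p r ^ m : ℤ) : 𝓞 K) - (qi v.asIdeal (r : 𝓞 K) : 𝓞 K) ∈ v.asIdeal := by
    have := v.asIdeal.sub_mem h3 h4
    rwa [sub_sub_sub_cancel_left] at this
  have hleg : legendreSym p r = 0 ∨ legendreSym p r = 1 ∨ legendreSym p r = -1 := by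
    by_cases h0 : (r : ZMod p) = 0
    · exact Or.inl ((legendreSym.eq_zero_iff p r).2 h0)
    · exact Or.inr (legendreSym.eq_one_or_neg_one p h0)
  have hpow : ∀ z : ℤ, (z = 0 ∨ z = 1 ∨ z = -1) → ∀ j : ℕ, (z ^ j = 0 ∨ z ^ j = 1 ∨ z ^ j = -1) := by
    intro z hz j
    rcases hz with rfl | rfl | rfl
    · rcases Nat.eq_zero_or_pos j with h | h
      · subst h
        simp
      · exact Or.inl (zero_pow h.ne')
    · exact Or.inr (Or.inl (one_pow j))
    · rcases neg_one_pow_eq_or ℤ j with h | h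
      · exact Or.inr (Or.inl h)
      · exact Or.inr (Or.inr h)
  have h6 := pm_ne hv (hpow _ hleg m) (qi_cases _ _) h5
  rw [← h6, hcard, jacobiSym.pow_right, ← jacobiSym.legendreSym.to_jacobiSym]
  -- parity of the exponents
  have hf0 : (f : ℕ) ≠ 0 := f.pos.ne'
  have hm0 : m ≠ 0 := by
    rintro rfl
    rw [zero_mul] at h1
    have h7 : 2 ≤ p ^ (f : ℕ) := hpr.two_le.trans (Nat.le_self_pow hf0 p)
    omega
  rcases hleg with h | h | h
  · rw [h, zero_pow hm0, zero_pow hf0]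
  · rw [h, one_pow, one_pow]
  · rw [h, ← Nat.div_add_mod m 2, ← Nat.div_add_mod (f : ℕ) 2, h2, pow_add, pow_add, pow_mul,
      pow_mul]
    norm_num

end Pool.Agent.T9h30.BT
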