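import Pool.Agent.K4H55.CX.Val
import Pool.Agent.T9h30.BT.Abs

/-!
# Sums over residues attached to families of local characters
-/

set_option autoImplicit false
set_option linter.unusedSectionVars false

namespace Pool.Agent.T9h30.BT

open NumberField IsDedekindDomain Finset
open Pool.Agent.K4H55.BI (gen gen_dvd gen_prime gen_na gen_inj Prd CRS CRS.sum_unit CRS.sum_prod
  CRS.sum_mul rs rs_CRS md Fam fam_of fv fv_periodic MG prime_coprime md_coprime dvd_md VV)

section step

variable {O : Type} [CommRing O]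

/-- **The step.** -/
theorem step2 [IsDomain O] (ι : O →+* ℂ) (hι : Function.Injective ι) {f : ℂ → ℂ}
    (hf : ∀ z y, f (z + ι y) = f z) {m q : O}
    (hm : m ≠ 0) (hq : q ≠ 0) (hco : IsCoprime q m) {X : O → ℂ} (hX : Prd m X)
    (hXm : ∀ x y, X (x * y) = X x * X y) {Y : ℂ} (hXq : Y * X q = 1) {cq : ℂ} {S Q P : Finset O}
    (hS : CRS m S) (hQ : CRS q Q) (hP : CRS (m * q) P)
    (hh : ∀ x, cq * f (ι x / ι m) = f (ι q * (ι x / ι m)) + ∑ b ∈ Q, f ((ι x / ι m + ι b) / ι q)) :
    (∑ x ∈ P, open Classical in if q ∣ x then 0 else X x * f (ι x / ι (m * q))) =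
      (cq - X q - Y) * ∑ x ∈ S, X x * f (ι x / ι m) := by
  classical
  have hιm : ι m ≠ 0 := fun h => hm (hι (by rw [h, map_zero]))
  have hιq : ι q ≠ 0 := fun h => hq (hι (by rw [h, map_zero]))
  have hfm : Prd m fun x => f (ι x / ι m) := by
    rintro x y ⟨k, hk⟩
    have hx : x = y + m * k := by linear_combination hk
    have : ι x / ι m = ι y / ι m + ι k := by
      rw [hx, map_add, map_mul]
      field_simp
    simp only
    rw [this, hf]
  have hfmq : Prd (m * q) fun x => f (ι x / ι (m * q)) := by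
    rintro x y ⟨k, hk⟩
    have hx : x = y + m * q * k := by linear_combination hk
    have : ι x / ι (m * q) = ι y / ι (m * q) + ι k := by
      rw [hx, map_add, map_mul, map_mul]
      field_simp
    simp only
    rw [this, hf]
  have hXmq : Prd (m * q) X := fun x y h => hX x y ((dvd_mul_right m q).trans h)
  set g : O → ℂ := fun x => X x * f (ι x / ι (m * q)) with hg
  have hgp : Prd (m * q) g := fun x y h => by
    show X x * f (ι x / ι (m * q)) = X y * f (ι y / ι (m * q))
    have h1 := hfmq x y h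
    simp only at h1
    rw [hXmq x y h, h1]
  have h1 : ∀ x, (if q ∣ x then (0 : ℂ) else X x * f (ι x / ι (m * q))) =
      g x - (if q ∣ x then g x else 0) := by
    intro x
    split_ifs <;> simp [hg]
  rw [Finset.sum_congr rfl fun x _ => h1 x, Finset.sum_sub_distrib]
  have h2 := CRS.sum_prod hm hS hQ hP hgp
  have h3 := CRS.sum_mul hq hS hP hgp
  rw [h2, h3]
  have h4 : ∀ y ∈ S, ∑ b ∈ Q, g (y + m * b) =
      X y * (cq * f (ι y / ι m) - f (ι q * (ι y / ι m))) := by
    intro y _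
    have h5 : ∀ b ∈ Q, g (y + m * b) = X y * f ((ι y / ι m + ι b) / ι q) := by
      intro b _
      have h6 : X (y + m * b) = X y := hX _ _ ⟨b, by ring⟩
      have h7 : ι (y + m * b) / ι (m * q) = (ι y / ι m + ι b) / ι q := by
        rw [map_add, map_mul, map_mul]
        field_simp
      simp only [hg]
      rw [h6, h7]
    rw [Finset.sum_congr rfl h5, ← Finset.mul_sum, hh y]
    ring
  have h5 : ∀ x ∈ S, g (q * x) = X q * (X x * f (ι x / ι m)) := by
    intro x _
    have h7 : ι (q * x) / ι (m * q) = ι x / ι m := by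
      rw [map_mul, map_mul]
      field_simp
    simp only [hg]
    rw [hXm, h7]
    ring
  have h6 : ∑ y ∈ S, X y * f (ι q * (ι y / ι m)) = Y * ∑ y ∈ S, X y * f (ι y / ι m) := by
    have hp : Prd m fun x => X x * f (ι x / ι m) := fun x y h => by
      have h8 := hfm x y h
      simp only at h8 ⊢
      rw [hX x y h, h8]
    have h9 := CRS.sum_unit hco hS hp
    rw [← h9, Finset.mul_sum]
    refine Finset.sum_congr rfl fun y _ => ?_
    rw [hXm, map_mul]
    have : ι q * ι y / ι m = ι q * (ι y / ι m) := by ring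
    rw [this]
    linear_combination (-(X y) * f (ι q * (ι y / ι m))) * hXq
  rw [Finset.sum_congr rfl h4, Finset.sum_congr rfl h5, ← Finset.mul_sum]
  have h7 : ∑ y ∈ S, X y * (cq * f (ι y / ι m) - f (ι q * (ι y / ι m))) =
      cq * ∑ y ∈ S, X y * f (ι y / ι m) - ∑ y ∈ S, X y * f (ι q * (ι y / ι m)) := by
    rw [Finset.mul_sum, ← Finset.sum_sub_distrib]
    exact Finset.sum_congr rfl fun y _ => by ring
  rw [h7, h6]
  ring

end step

section fam

variable {K : Type} [Field K] [NumberField K]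

/-- families of local characters -/
abbrev Fk (K : Type) [Field K] [NumberField K] : Type :=
  (v : HeightOneSpectrum (𝓞 K)) → MulChar (𝓞 K ⧸ v.asIdeal) ℂ

/-- the product of the local characters at the places of `S` -/
noncomputable def X (S : Finset (HeightOneSpectrum (𝓞 K))) (c : Fk K) (x : 𝓞 K) : ℂ :=
  ∏ v ∈ S, c v (Ideal.Quotient.mk v.asIdeal x)

lemma X_mul (S : Finset (HeightOneSpectrum (𝓞 K))) (c : Fk K) (x y : 𝓞 K) :
    X S c (x * y) = X S c x * X S c y := by
  unfold X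
  rw [← Finset.prod_mul_distrib]
  exact Finset.prod_congr rfl fun v _ => by rw [map_mul, map_mul]

lemma X_one (S : Finset (HeightOneSpectrum (𝓞 K))) (c : Fk K) : X S c 1 = 1 := by
  unfold X
  exact Finset.prod_eq_one fun v _ => by rw [map_one, map_one]

lemma X_cc (S : Finset (HeightOneSpectrum (𝓞 K))) (c c' : Fk K) (x : 𝓞 K) :
    X S (c * c') x = X S c x * X S c' x := by
  unfold X
  rw [← Finset.prod_mul_distrib]
  exact Finset.prod_congr rfl fun v _ => by rw [Pi.mul_apply, MulChar.mul_apply]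

lemma X_inv (S : Finset (HeightOneSpectrum (𝓞 K))) (c : Fk K) (x : 𝓞 K) :
    X S c⁻¹ x = (X S c x)⁻¹ := by
  unfold X
  rw [← Finset.prod_inv_distrib]
  exact Finset.prod_congr rfl fun v _ => by rw [Pi.inv_apply, MulChar.inv_apply_eq_inv']

lemma unit_mk {v : HeightOneSpectrum (𝓞 K)} {x : 𝓞 K} :
    IsUnit (Ideal.Quotient.mk v.asIdeal x) ↔ x ∉ v.asIdeal := by
  have hm : v.asIdeal.IsMaximal := v.isMaximal
  let _ : Field (𝓞 K ⧸ v.asIdeal) := Ideal.Quotient.field _
  rw [isUnit_iff_ne_zero, Ne, Ideal.Quotient.eq_zero_iff_mem]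

lemma X_ne {S : Finset (HeightOneSpectrum (𝓞 K))} {c : Fk K} {x : 𝓞 K} :
    X S c x ≠ 0 ↔ ∀ v ∈ S, x ∉ v.asIdeal := by
  unfold X
  rw [Finset.prod_ne_zero_iff]
  refine forall₂_congr fun v _ => ?_
  rw [← unit_mk, Ne, MulChar.apply_eq_zero_iff, not_not]

lemma X_zero {S : Finset (HeightOneSpectrum (𝓞 K))} {c : Fk K} {x : 𝓞 K}
    (h : ¬ ∀ v ∈ S, x ∉ v.asIdeal) : X S c x = 0 := by
  by_contra h0
  exact h (X_ne.1 h0)

lemma X_pow {S : Finset (HeightOneSpectrum (𝓞 K))} {c : Fk K} {e : ℕ} (hc : c ^ e = 1) {x : 𝓞 K}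
    (hx : ∀ v ∈ S, x ∉ v.asIdeal) : X S c x ^ e = 1 := by
  unfold X
  rw [← Finset.prod_pow]
  refine Finset.prod_eq_one fun v hv => ?_
  have h1 := unit_mk.2 (hx v hv)
  have h2 : (c v) ^ e = 1 := congrFun hc v
  have h3 := MulChar.pow_apply_coe (c v) e h1.unit
  rw [IsUnit.unit_spec] at h3
  rw [← h3, h2, MulChar.one_apply h1]

lemma X_one_c {S : Finset (HeightOneSpectrum (𝓞 K))} {x : 𝓞 K}
    (hx : ∀ v ∈ S, x ∉ v.asIdeal) : X S (1 : Fk K) x = 1 := by
  have := X_pow (c := (1 : Fk K)) (e := 1) (one_pow 1) hx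
  rwa [pow_one] at this

variable [IsPrincipalIdealRing (𝓞 K)]

lemma mod_of [DecidableEq (𝓞 K)] {S : Finset (HeightOneSpectrum (𝓞 K))}
    {v : HeightOneSpectrum (𝓞 K)} (hv : v ∈ S) {x : 𝓞 K} (h : md (S.image gen) ∣ x) :
    x ∈ v.asIdeal := gen_dvd.1 ((dvd_md (Finset.mem_image_of_mem _ hv)).trans h)

lemma X_prd [DecidableEq (𝓞 K)] (S : Finset (HeightOneSpectrum (𝓞 K))) (c : Fk K) :
    Prd (md (S.image gen)) (X S c) := by
  intro x y hxy
  unfold X
  refine Finset.prod_congr rfl fun v hv => ?_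
  rw [Ideal.Quotient.eq.2 (mod_of hv hxy)]

/-- the sum over the residues modulo the product of the places of `S` -/
noncomputable def Z [DecidableEq (𝓞 K)] (D : Pool.Agent.K4H55.BI.Ord (𝓞 K)) (f : ℂ → ℂ) (c : Fk K)
    (S : Finset (HeightOneSpectrum (𝓞 K))) : ℂ :=
  ∑ x ∈ rs D (md (S.image gen)), X S c x * f (D.ι x / D.ι (md (S.image gen)))

variable {D : Pool.Agent.K4H55.BI.Ord (𝓞 K)} {n : 𝓞 K} {a : 𝓞 K → ℂ} {C : ℝ} {w : ℂ}
  {M : Submodule ℤ ℂ}

lemma md_ins [DecidableEq (𝓞 K)] [DecidableEq (HeightOneSpectrum (𝓞 K))]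
    {S : Finset (HeightOneSpectrum (𝓞 K))} {v : HeightOneSpectrum (𝓞 K)} (hv : v ∉ S) :
    md ((insert v S).image gen) = md (S.image gen) * gen v := by
  rw [Finset.image_insert, Pool.Agent.K4H55.BI.md_insert]
  intro h
  obtain ⟨v', hv', he⟩ := Finset.mem_image.1 h
  exact hv (gen_inj he ▸ hv')

/-- the step for the sums -/
theorem Z_step [DecidableEq (𝓞 K)] [DecidableEq (HeightOneSpectrum (𝓞 K))] (h : MG D n a C w M)
    {S : Finset (HeightOneSpectrum (𝓞 K))} {v : HeightOneSpectrum (𝓞 K)} (hv : v ∉ S)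
    (hS : ∀ v' ∈ insert v S, (2 : 𝓞 K) ∉ v'.asIdeal ∧ n ∉ v'.asIdeal) {c : Fk K} (hc : c v = 1) :
    Z D (fv D a) c (insert v S) =
      (a (gen v) - X S c (gen v) - (X S c (gen v))⁻¹) * Z D (fv D a) c S := by
  classical
  have hfam : Fam (S.image gen) := fam_of (A := {v | (2 : 𝓞 K) ∉ v.asIdeal}) (fun v hv => hv)
    (fun v' hv' => (hS v' (Finset.mem_insert_of_mem hv')).1)
  have hqp : Prime (gen v) := gen_prime v
  have hm := hfam.md_ne
  have hvS : ∀ v' ∈ S, gen v ∉ v'.asIdeal := by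
    intro v' hv' hmem
    have := gen_na (gen_dvd.2 hmem)
    rw [this] at hv'
    exact hv hv'
  have hco : IsCoprime (gen v) (md (S.image gen)) := by
    refine prime_coprime D hqp fun hd => ?_
    obtain ⟨p, hp, hd'⟩ := (hqp.dvd_finsetProd_iff _).1 hd
    obtain ⟨v', hv', rfl⟩ := Finset.mem_image.1 hp
    have := gen_na hd'
    rw [← this] at hv'
    exact hv hv'
  have hmn : IsCoprime (md (S.image gen)) n := md_coprime D hfam fun p hp hd => by
    obtain ⟨v', hv', rfl⟩ := Finset.mem_image.1 hp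
    exact (hS v' (Finset.mem_insert_of_mem hv')).2 (gen_dvd.1 hd)
  have hqn : ¬ gen v ∣ n := fun hd =>
    (hS v (Finset.mem_insert_self v S)).2 (gen_dvd.1 hd)
  have hP : CRS (md (S.image gen) * gen v) (rs D (md (S.image gen) * gen v)) :=
    rs_CRS D (mul_ne_zero hm hqp.ne_zero)
  have hXq : X S c (gen v) ≠ 0 := X_ne.2 hvS
  have h2 := step2 D.ι D.inj (fv_periodic D a) hm hqp.ne_zero hco (X_prd S c) (X_mul S c)
    (inv_mul_cancel₀ hXq) (rs_CRS D hm) (rs_CRS D hqp.ne_zero) hP (cq := a (gen v))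
    (fun x => h.hecke hqp hqn (rs_CRS D hqp.ne_zero) hm hmn)
  unfold Z
  rw [md_ins hv, ← h2]
  refine Finset.sum_congr rfl fun x _ => ?_
  have h3 : X (insert v S) c x = (if gen v ∣ x then 0 else 1) * X S c x := by
    unfold X
    rw [Finset.prod_insert hv, hc]
    congr 1
    by_cases hx : gen v ∣ x
    · rw [if_pos hx, MulChar.apply_eq_zero_iff, unit_mk, not_not]
      exact gen_dvd.1 hx
    · rw [if_neg hx, MulChar.one_apply]
      rw [unit_mk]
      exact fun h => hx (gen_dvd.2 h)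
  rw [h3]
  split_ifs
  · ring
  · ring

/-- the sum for a larger modulus -/
theorem Z_prod [DecidableEq (𝓞 K)] [DecidableEq (HeightOneSpectrum (𝓞 K))] (h : MG D n a C w M)
    {e : ℕ} {c : Fk K} (hce : c ^ e = 1) {T : Finset (HeightOneSpectrum (𝓞 K))}
    (R : Finset (HeightOneSpectrum (𝓞 K))) : Disjoint R T →
    (∀ v' ∈ R ∪ T, (2 : 𝓞 K) ∉ v'.asIdeal ∧ n ∉ v'.asIdeal) → (∀ v ∈ R, c v = 1) →
    ∃ x : HeightOneSpectrum (𝓞 K) → ℂ, (∀ v, x v ^ e = 1) ∧
      Z D (fv D a) c (R ∪ T) = (∏ v ∈ R, (a (gen v) - x v - (x v)⁻¹)) * Z D (fv D a) c T := by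
  induction R using Finset.induction_on with
  | empty =>
    intro _ _ _
    exact ⟨fun _ => 1, fun _ => one_pow e, by rw [Finset.empty_union, Finset.prod_empty, one_mul]⟩
  | insert v R hv ih =>
    intro hd hn hc
    have hvT : v ∉ T := fun h => Finset.disjoint_left.1 hd (Finset.mem_insert_self v R) h
    have hvRT : v ∉ R ∪ T := by simp [hv, hvT]
    rw [Finset.insert_union] at hn ⊢
    obtain ⟨x, hx, h1⟩ := ih (hd.mono_left (Finset.subset_insert v R))
      (fun v' hv' => hn v' (Finset.mem_insert_of_mem hv')) (fun v' hv' => hc v' (Finset.mem_insert_of_mem hv'))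
    refine ⟨Function.update x v (X (R ∪ T) c (gen v)), ?_, ?_⟩
    · intro v'
      by_cases h2 : v' = v
      · subst h2
        rw [Function.update_self]
        refine X_pow hce fun v'' hv'' hmem => ?_
        have := gen_na (gen_dvd.2 hmem)
        rw [this] at hv''
        exact hvRT hv''
      · rw [Function.update_of_ne h2]
        exact hx v'
    · rw [Z_step h hvRT hn (hc v (Finset.mem_insert_self v R)), h1, Finset.prod_insert hv,
        Function.update_self, mul_assoc]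
      congr 2
      refine Finset.prod_congr rfl fun v' hv' => ?_
      rw [Function.update_of_ne (show v' ≠ v from fun h => hv (h ▸ hv'))]

end fam

end Pool.Agent.T9h30.BT
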